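import Pool.Agent.Y834.EA.High

/-!
# The exceptional set of a coefficient function
-/

set_option autoImplicit false

namespace Pool.Agent.Y834.EA

open MeasureTheory Finset Filter Topology

/-- A dyadic block. -/
theorem low_block {D lam T : ℝ} (hT : 0 < T) (hlam : 0 < lam) {j k : ℕ}
    (hk : T ≤ ((2 : ℝ) ^ j) ^ k) {F : Finset ℕ}
    (hF : ∀ p ∈ F, p.Prime ∧ 2 ^ j ≤ p ∧ p < 2 ^ (j + 1)) (c : ℕ → ℂ)
    (hc : ∀ p ∈ F, ‖c p‖ ≤ D / p) (a : ℝ) :
    volume {τ | τ ∈ Set.Ioc a (a + T) ∧ lam ≤ ‖SS F c τ‖} ≤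
      ENNReal.ofReal (36 * (2 * k * D ^ 2 / lam ^ 2) ^ k) := by
  have h2j : (0 : ℝ) < 2 ^ j := by positivity
  have hmom := moment (F := F) (fun p hp => (hF p hp).1) (Q := 2 ^ (j + 1))
    (one_le_pow₀ (by norm_num)) (fun p hp => by exact_mod_cast (hF p hp).2.2.le) c k hT a
  have hsum : ∑ p ∈ F, ‖c p‖ ^ 2 ≤ D ^ 2 / 2 ^ j := by
    have h1 : ∀ p ∈ F, ‖c p‖ ^ 2 ≤ D ^ 2 / (2 ^ j) ^ 2 := by
      intro p hp
      have h2 : (2 : ℝ) ^ j ≤ p := by exact_mod_cast (hF p hp).2.1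
      have hp0 : (0 : ℝ) < p := lt_of_lt_of_le h2j h2
      have h3 : ‖c p‖ ^ 2 ≤ (D / p) ^ 2 := pow_le_pow_left₀ (norm_nonneg _) (hc p hp) 2
      refine h3.trans ?_
      rw [div_pow]
      exact div_le_div_of_nonneg_left (sq_nonneg _) (by positivity)
        (pow_le_pow_left₀ h2j.le h2 2)
    have h2 : F ⊆ Ico (2 ^ j) (2 ^ (j + 1)) := fun p hp => mem_Ico.2 (hF p hp).2
    have h3 : F.card ≤ 2 ^ j := by
      have := card_le_card h2
      rw [Nat.card_Ico] at this
      have h4 : 2 ^ (j + 1) - 2 ^ j = 2 ^ j := by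
        rw [pow_succ]
        omega
      omega
    have h4 : (F.card : ℝ) ≤ 2 ^ j := by exact_mod_cast h3
    calc ∑ p ∈ F, ‖c p‖ ^ 2 ≤ ∑ _p ∈ F, D ^ 2 / (2 ^ j) ^ 2 := sum_le_sum h1
      _ = F.card * (D ^ 2 / (2 ^ j) ^ 2) := by rw [sum_const, nsmul_eq_mul]
      _ ≤ 2 ^ j * (D ^ 2 / (2 ^ j) ^ 2) := mul_le_mul_of_nonneg_right h4 (by positivity)
      _ = _ := by field_simp
  refine (markov F c (2 * k) hT hlam a hmom).trans (ENNReal.ofReal_le_ofReal ?_)
  rw [div_le_iff₀ (by positivity)]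
  have hS0 : 0 ≤ ∑ p ∈ F, ‖c p‖ ^ 2 := sum_nonneg fun _ _ => sq_nonneg _
  have h1 : T + ((2 : ℝ) ^ (j + 1)) ^ k ≤ 2 * ((2 : ℝ) ^ (j + 1)) ^ k := by
    have : ((2 : ℝ) ^ j) ^ k ≤ ((2 : ℝ) ^ (j + 1)) ^ k := by
      refine pow_le_pow_left₀ h2j.le ?_ k
      exact pow_le_pow_right₀ (by norm_num) (by omega)
    linarith
  have h2 : (k.factorial : ℝ) ≤ (k : ℝ) ^ k := by exact_mod_cast Nat.factorial_le_pow k
  calc 18 * (k.factorial : ℝ) * (T + (2 ^ (j + 1)) ^ k) * (∑ p ∈ F, ‖c p‖ ^ 2) ^ k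
      ≤ 18 * (k : ℝ) ^ k * (2 * ((2 : ℝ) ^ (j + 1)) ^ k) * (D ^ 2 / 2 ^ j) ^ k := by
        gcongr
    _ = 36 * ((k : ℝ) * 2 ^ (j + 1) * (D ^ 2 / 2 ^ j)) ^ k := by
        rw [mul_pow, mul_pow]
        ring
    _ = 36 * (2 * k * D ^ 2) ^ k := by
        congr 2
        rw [pow_succ]
        field_simp
    _ = 36 * (2 * k * D ^ 2 / lam ^ 2) ^ k * lam ^ (2 * k) := by
        rw [div_pow, pow_mul]
        field_simp

/-- the starting index of the high blocks -/
noncomputable def K0 (T : ℝ) : ℕ := ⌈2 * T * Real.log T⌉₊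

/-- the primes between `y` and the end of the low range, in a dyadic interval -/
noncomputable def Fl (y T : ℝ) (j : ℕ) : Finset ℕ := by
  classical
  exact (range (2 ^ (j + 1))).filter fun p => p.Prime ∧ 2 ^ j ≤ p ∧ y ≤ p ∧ gi T p < K0 T

lemma mem_Fl {y T : ℝ} {j p : ℕ} : p ∈ Fl y T j ↔
    p.Prime ∧ 2 ^ j ≤ p ∧ p < 2 ^ (j + 1) ∧ y ≤ p ∧ gi T p < K0 T := by
  unfold Fl
  rw [mem_filter, mem_range]
  tauto

/-- the primes of the `i`-th high block -/
noncomputable def Fh (y T : ℝ) (i : ℕ) : Finset ℕ := by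
  classical
  exact (range ⌈Real.exp ((2 ^ (i + 1) * K0 T : ℕ) / T)⌉₊).filter fun p =>
    p.Prime ∧ y ≤ p ∧ 2 ^ i * K0 T ≤ gi T p

lemma gi_lt_iff {T : ℝ} (hT : 0 < T) {p m : ℕ} (hp : 1 ≤ p) :
    gi T p < m ↔ p < ⌈Real.exp ((m : ℝ) / T)⌉₊ := by
  have hp0 : (0 : ℝ) < p := by exact_mod_cast hp
  rw [Nat.lt_ceil, gi, Nat.floor_lt (mul_nonneg hT.le (Real.log_nonneg (by exact_mod_cast hp))),
    ← Real.log_lt_iff_lt_exp hp0, lt_div_iff₀ hT, mul_comm]

lemma mem_Fh {y T : ℝ} (hT : 0 < T) {i p : ℕ} : p ∈ Fh y T i ↔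
    p.Prime ∧ y ≤ p ∧ 2 ^ i * K0 T ≤ gi T p ∧ gi T p < 2 ^ (i + 1) * K0 T := by
  unfold Fh
  rw [mem_filter, mem_range]
  constructor
  · rintro ⟨h1, h2, h3, h4⟩
    exact ⟨h2, h3, h4, (gi_lt_iff hT h2.one_le).2 h1⟩
  · rintro ⟨h1, h2, h3, h4⟩
    exact ⟨(gi_lt_iff hT h1.one_le).1 h4, h1, h2, h3⟩

/-- the exceptional set, with `y = (log T)^A`, `lam = (log T)^(-B)` -/
noncomputable def Exc (A B T : ℝ) (c : ℕ → ℂ) (a : ℝ) : Set ℝ :=
  {τ | τ ∈ Set.Ioc a (a + T) ∧ ((∃ j, Real.log T ^ (-B) ≤ ‖SS (Fl (Real.log T ^ A) T j) c τ‖) ∨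
    ∃ i : ℕ, Real.log T ^ (-B) * (3 / 4) ^ i ≤ ‖SS (Fh (Real.log T ^ A) T i) c τ‖)}

/-- The measure of the exceptional set is at most `T^ε`. -/
theorem exc_small (D ε B : ℝ) (hε : 0 < ε) (hB : 0 ≤ B) :
    ∀ᶠ T : ℝ in atTop, ∀ c : ℕ → ℂ, (∀ p : ℕ, p.Prime → ‖c p‖ ≤ D / p) →
      ∀ a : ℝ, volume (Exc (1 + (2 * B + 2) * 4 / ε) B T c a) ≤ ENNReal.ofReal (T ^ ε) := by
  obtain ⟨C, hC1, hC⟩ := cheb_T
  set A : ℝ := 1 + (2 * B + 2) * 4 / ε with hA
  have hA1 : 1 ≤ A := by
    rw [hA]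
    have : 0 ≤ (2 * B + 2) * 4 / ε := by positivity
    linarith
  -- the asymptotic inequality
  have hlog : Tendsto Real.log atTop atTop := Real.tendsto_log_atTop
  have hev : ∀ᶠ L : ℝ in atTop, 180 * (Real.exp (ε / 4 * L) * L ^ (2 * B + 3)) +
      648 * C ^ 2 * D ^ 2 * L ^ (2 * B) ≤ Real.exp (ε * L) := by
    have h1 := tendsto_rpow_mul_exp_neg_mul_atTop_nhds_zero (2 * B + 3) (ε / 4) (by positivity)
    have h2 := tendsto_rpow_mul_exp_neg_mul_atTop_nhds_zero (2 * B) (ε / 4) (by positivity)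
    have h3 := h1.const_mul 180
    have h4 := h2.const_mul (648 * C ^ 2 * D ^ 2)
    rw [mul_zero] at h3 h4
    have h5 := h3.add h4
    rw [add_zero] at h5
    filter_upwards [h5.eventually_lt_const (zero_lt_one), eventually_ge_atTop 0] with L hL hL0
    have e0 : 0 < Real.exp (ε / 4 * L) := Real.exp_pos _
    have e1 : Real.exp (-(ε / 4) * L) * Real.exp (ε / 4 * L) = 1 := by
      rw [← Real.exp_add]
      simp
    have e2 : Real.exp (ε * L) = Real.exp (ε / 4 * L) * Real.exp (ε / 4 * L) *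
        (Real.exp (ε / 4 * L) * Real.exp (ε / 4 * L)) := by
      rw [← Real.exp_add, ← Real.exp_add]
      congr 1
      ring
    have e3 : 1 ≤ Real.exp (ε / 4 * L) := Real.one_le_exp (by positivity)
    set X := Real.exp (ε / 4 * L) with hX
    set Y := Real.exp (-(ε / 4) * L) with hY
    have h6 : 180 * (L ^ (2 * B + 3) * Y) * X + 648 * C ^ 2 * D ^ 2 * (L ^ (2 * B) * Y) * X ≤
        1 * X := by
      have := mul_le_mul_of_nonneg_right hL.le e0.le
      rw [add_mul] at this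
      exact this
    have h7 : 180 * (L ^ (2 * B + 3) * Y) * X = 180 * L ^ (2 * B + 3) := by
      calc 180 * (L ^ (2 * B + 3) * Y) * X = 180 * L ^ (2 * B + 3) * (Y * X) := by ring
        _ = _ := by rw [e1, mul_one]
    have h8 : 648 * C ^ 2 * D ^ 2 * (L ^ (2 * B) * Y) * X = 648 * C ^ 2 * D ^ 2 * L ^ (2 * B) := by
      calc 648 * C ^ 2 * D ^ 2 * (L ^ (2 * B) * Y) * X =
          648 * C ^ 2 * D ^ 2 * L ^ (2 * B) * (Y * X) := by ring
        _ = _ := by rw [e1, mul_one]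
    rw [h7, h8, one_mul] at h6
    have h9 : 0 ≤ 648 * C ^ 2 * D ^ 2 * L ^ (2 * B) := by positivity
    rw [e2]
    have h10 : X ≤ X * X * X := by nlinarith [mul_pos e0 e0]
    calc 180 * (X * L ^ (2 * B + 3)) + 648 * C ^ 2 * D ^ 2 * L ^ (2 * B)
        ≤ X * (180 * L ^ (2 * B + 3) + 648 * C ^ 2 * D ^ 2 * L ^ (2 * B)) := by
          nlinarith
      _ ≤ X * X := mul_le_mul_of_nonneg_left h6 e0.le
      _ ≤ X * X * (X * X) := by nlinarith [mul_pos e0 e0]
  have hLbig : ∀ᶠ L : ℝ in atTop, 2 ≤ L ∧ 4 * D ^ 2 ≤ L ∧ 1 ≤ (A - 1) * Real.log L ∧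
      Real.log 2 ≤ Real.log L := by
    have h1 : Tendsto (fun L => (A - 1) * Real.log L) atTop atTop := by
      refine Tendsto.const_mul_atTop ?_ hlog
      rw [hA]
      have : 0 < (2 * B + 2) * 4 / ε := by positivity
      linarith
    filter_upwards [eventually_ge_atTop 2, eventually_ge_atTop (4 * D ^ 2),
      h1.eventually_ge_atTop 1] with L h2 h3 h4
    exact ⟨h2, h3, h4, Real.log_le_log (by norm_num) h2⟩
  filter_upwards [hlog.eventually hev, hlog.eventually hLbig, eventually_ge_atTop 8]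
    with T hT1 hT2 hT8 c hc a
  obtain ⟨hL2, hLD, hLA, hLL⟩ := hT2
  set L := Real.log T with hL
  have hT0 : 0 < T := by linarith
  have hL0 : 0 < L := by linarith
  have hLl : 0 < Real.log L := by
    have : 0 < Real.log 2 := Real.log_pos (by norm_num)
    linarith
  set lam : ℝ := L ^ (-B) with hlam
  have hlam0 : 0 < lam := Real.rpow_pos_of_pos hL0 _
  have hlam2 : 1 / lam ^ 2 = L ^ (2 * B) := by
    rw [hlam, ← Real.rpow_natCast, ← Real.rpow_mul hL0.le, one_div, ← Real.rpow_neg hL0.le]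
    congr 1
    push_cast
    ring
  set y : ℝ := L ^ A with hy
  set J : ℕ := ⌊4 * L⌋₊ with hJ
  -- empty blocks
  have hJempty : ∀ j, J < j → Fl y T j = ∅ := by
    intro j hj
    rw [Finset.eq_empty_iff_forall_notMem]
    intro p hp
    rw [mem_Fl] at hp
    obtain ⟨hpp, h1, h2, h3, h4⟩ := hp
    have h5 : T * Real.log p < K0 T := by
      have := lt_gi T p
      have h6 : (gi T p : ℝ) + 1 ≤ K0 T := by exact_mod_cast h4
      linarith
    have h6 : (K0 T : ℝ) < 2 * T * L + 1 := Nat.ceil_lt_add_one (by positivity)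
    have h7 : Real.log p < 2 * L + 1 := by
      by_contra h
      push Not at h
      have : T * (2 * L + 1) ≤ T * Real.log p := mul_le_mul_of_nonneg_left h hT0.le
      nlinarith
    have h8 : (j : ℝ) * Real.log 2 ≤ Real.log p := by
      rw [← Real.log_pow]
      exact Real.log_le_log (by positivity) (by exact_mod_cast h1)
    have h9 : 4 * L < j := by
      have : (J : ℝ) + 1 ≤ j := by exact_mod_cast hj
      have := Nat.lt_floor_add_one (4 * L)
      linarith
    have h10 := Real.log_two_gt_d9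
    nlinarith
  -- the low part
  have hlow : ∀ j, volume {τ | τ ∈ Set.Ioc a (a + T) ∧ lam ≤ ‖SS (Fl y T j) c τ‖} ≤
      ENNReal.ofReal (36 * (Real.exp (ε / 4 * L) * L ^ (2 * B + 2))) := by
    intro j
    by_cases hne : (Fl y T j).Nonempty
    · obtain ⟨p, hp⟩ := hne
      rw [mem_Fl] at hp
      obtain ⟨hpp, h1, h2, h3, h4⟩ := hp
      have hjlog : (A - 1) * Real.log L ≤ j * Real.log 2 := by
        have h5 : A * Real.log L ≤ Real.log p := by
          rw [← Real.log_rpow hL0]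
          exact Real.log_le_log (by positivity) h3
        have h6 : Real.log p ≤ (j + 1 : ℕ) * Real.log 2 := by
          rw [← Real.log_pow]
          refine Real.log_le_log (by exact_mod_cast hpp.pos) ?_
          exact_mod_cast h2.le
        push_cast at h6
        nlinarith
      have hj1 : 1 ≤ (j : ℝ) * Real.log 2 := hLA.trans hjlog
      have hj0 : 0 < (j : ℝ) * Real.log 2 := by linarith
      set k : ℕ := ⌈L / (j * Real.log 2)⌉₊ with hk
      have hk1 : L / (j * Real.log 2) ≤ k := Nat.le_ceil _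
      have hk2 : (k : ℝ) < L / (j * Real.log 2) + 1 := Nat.ceil_lt_add_one (by positivity)
      have hkT : T ≤ ((2 : ℝ) ^ j) ^ k := by
        rw [← Real.log_le_log_iff hT0 (by positivity), Real.log_pow, Real.log_pow]
        rw [div_le_iff₀ hj0] at hk1
        exact hk1
      refine (low_block (D := D) hT0 hlam0 hkT (fun q hq => ?_) c (fun q hq => ?_) a).trans ?_
      · rw [mem_Fl] at hq
        exact ⟨hq.1, hq.2.1, hq.2.2.1⟩
      · rw [mem_Fl] at hq
        exact hc q hq.1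
      · refine ENNReal.ofReal_le_ofReal (mul_le_mul_of_nonneg_left ?_ (by norm_num))
        have hkL : (k : ℝ) ≤ 2 * L := by
          have : L / (j * Real.log 2) ≤ L := div_le_self hL0.le hj1
          linarith
        have h5 : 2 * k * D ^ 2 / lam ^ 2 ≤ L ^ (2 * B + 2) := by
          have h6 : 2 * k * D ^ 2 / lam ^ 2 = 2 * k * D ^ 2 * (1 / lam ^ 2) := by ring
          rw [h6, hlam2, Real.rpow_add hL0, Real.rpow_two, mul_comm (L ^ (2 * B))]
          refine mul_le_mul_of_nonneg_right ?_ (by positivity)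
          have h7 : 0 ≤ D ^ 2 := sq_nonneg D
          nlinarith
        have h6 : 0 ≤ 2 * k * D ^ 2 / lam ^ 2 := by positivity
        calc (2 * k * D ^ 2 / lam ^ 2) ^ k ≤ (L ^ (2 * B + 2)) ^ k := pow_le_pow_left₀ h6 h5 k
          _ = Real.exp ((2 * B + 2) * Real.log L * k) := by
              rw [← Real.rpow_natCast, ← Real.rpow_mul hL0.le, Real.rpow_def_of_pos hL0]
              congr 1
              ring
          _ ≤ Real.exp (ε / 4 * L + (2 * B + 2) * Real.log L) := by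
              refine Real.exp_le_exp.2 ?_
              have h7 : L / (j * Real.log 2) ≤ L / ((A - 1) * Real.log L) :=
                div_le_div_of_nonneg_left hL0.le (by linarith) hjlog
              have h8 : (2 * B + 2) * Real.log L * (L / ((A - 1) * Real.log L)) = ε / 4 * L := by
                have h9 : A - 1 = (2 * B + 2) * 4 / ε := by rw [hA]; ring
                rw [h9]
                field_simp
              have h10 : 0 < (2 * B + 2) * Real.log L := by positivity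
              have h11 : (k : ℝ) ≤ L / ((A - 1) * Real.log L) + 1 := by linarith
              calc (2 * B + 2) * Real.log L * k ≤
                  (2 * B + 2) * Real.log L * (L / ((A - 1) * Real.log L) + 1) :=
                    mul_le_mul_of_nonneg_left h11 h10.le
                _ = _ := by rw [mul_add, h8, mul_one]
          _ = _ := by
              rw [Real.exp_add, Real.rpow_def_of_pos hL0]
              congr 2
              ring
    · rw [not_nonempty_iff_eq_empty] at hne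
      rw [hne]
      have : {τ | τ ∈ Set.Ioc a (a + T) ∧ lam ≤ ‖SS ∅ c τ‖} = ∅ := by
        ext τ
        simp [SS, hlam0]
      rw [this]
      simp
  -- the high part
  have hK0 : 2 * T * Real.log T ≤ K0 T := Nat.le_ceil _
  have hK0' : (0 : ℝ) < K0 T := lt_of_lt_of_le (by positivity) hK0
  have hhigh : ∀ i, volume {τ | τ ∈ Set.Ioc a (a + T) ∧
      lam * (3 / 4) ^ i ≤ ‖SS (Fh y T i) c τ‖} ≤
      ENNReal.ofReal (72 * C ^ 2 * D ^ 2 * L ^ (2 * B) * (8 / 9) ^ i) := by
    intro i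
    have h1 : 2 * T * Real.log T ≤ ((2 ^ i * K0 T : ℕ) : ℝ) := by
      push_cast
      have : (1 : ℝ) ≤ 2 ^ i := one_le_pow₀ (by norm_num)
      nlinarith
    have h2 := high_mean (by linarith : 2 ≤ T) (hC T (by linarith)) (by linarith : 0 < C)
      (F := Fh y T i) (K := 2 ^ i * K0 T) (L := 2 ^ i * K0 T) h1 (fun p hp => by
        rw [mem_Fh hT0] at hp
        refine ⟨hp.1, hp.2.2.1, ?_⟩
        have := hp.2.2.2
        rw [pow_succ] at this
        linarith) c |D| (abs_nonneg _) (fun p hp => by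
        rw [mem_Fh hT0] at hp
        refine (hc p hp.1).trans ?_
        exact div_le_div_of_nonneg_right (le_abs_self D) (Nat.cast_nonneg _)) a
    have h3 := markov (Fh y T i) c 2 hT0 (lam := lam * (3 / 4) ^ i) (by positivity) a h2
    refine h3.trans (ENNReal.ofReal_le_ofReal ?_)
    rw [sq_abs]
    have h4 : 72 * C ^ 2 * D ^ 2 * T * ((2 ^ i * K0 T : ℕ) : ℝ) / ((2 ^ i * K0 T : ℕ) : ℝ) ^ 2 =
        72 * C ^ 2 * D ^ 2 * (T / (2 ^ i * K0 T)) := by
      push_cast
      field_simp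
    rw [h4]
    have h5 : T / (2 ^ i * K0 T) ≤ 1 / 2 ^ i := by
      rw [div_le_div_iff₀ (by positivity) (by positivity), one_mul, mul_comm]
      refine mul_le_mul_of_nonneg_left ?_ (by positivity)
      nlinarith
    have h6 : 72 * C ^ 2 * D ^ 2 * (T / (2 ^ i * K0 T)) / (lam * (3 / 4) ^ i) ^ 2 =
        72 * C ^ 2 * D ^ 2 * (1 / lam ^ 2) * ((T / (2 ^ i * K0 T)) * (1 / ((3 / 4) ^ i) ^ 2)) := by
      rw [mul_pow]
      field_simp
    rw [h6, hlam2]
    refine mul_le_mul_of_nonneg_left ?_ (by positivity)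
    have h7 : (1 / 2 ^ i : ℝ) * (1 / ((3 / 4) ^ i) ^ 2) = (8 / 9) ^ i := by
      rw [← pow_mul, mul_comm i 2, pow_mul, ← one_div_pow, ← one_div_pow, ← mul_pow]
      norm_num
    rw [← h7]
    exact mul_le_mul_of_nonneg_right h5 (by positivity)
  -- union
  have hsub : Exc A B T c a ⊆
      (⋃ j ∈ range (J + 1), {τ | τ ∈ Set.Ioc a (a + T) ∧ lam ≤ ‖SS (Fl y T j) c τ‖}) ∪
      ⋃ i : ℕ, {τ | τ ∈ Set.Ioc a (a + T) ∧ lam * (3 / 4) ^ i ≤ ‖SS (Fh y T i) c τ‖} := by
    rintro τ ⟨h1, h2⟩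
    rcases h2 with ⟨j, hj⟩ | ⟨i, hi⟩
    · left
      have hjJ : j ≤ J := by
        by_contra h
        push Not at h
        rw [hJempty j h] at hj
        simp only [SS, sum_empty, norm_zero] at hj
        linarith
      rw [Set.mem_iUnion₂]
      exact ⟨j, mem_range.2 (by omega), h1, hj⟩
    · right
      rw [Set.mem_iUnion]
      exact ⟨i, h1, hi⟩
  have hmu : volume (Exc A B T c a) ≤ ENNReal.ofReal
      ((J + 1 : ℕ) * (36 * (Real.exp (ε / 4 * L) * L ^ (2 * B + 2)))) +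
      ENNReal.ofReal (648 * C ^ 2 * D ^ 2 * L ^ (2 * B)) := by
    refine (measure_mono hsub).trans ((measure_union_le _ _).trans (add_le_add ?_ ?_))
    · refine (measure_biUnion_finset_le _ _).trans ?_
      refine (Finset.sum_le_sum fun j _ => hlow j).trans ?_
      rw [sum_const, card_range, nsmul_eq_mul, ENNReal.ofReal_mul (Nat.cast_nonneg _),
        ENNReal.ofReal_natCast]
    · refine (measure_iUnion_le _).trans ?_
      refine (ENNReal.tsum_le_tsum fun i => hhigh i).trans ?_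
      rw [← ENNReal.ofReal_tsum_of_nonneg (fun i => by positivity)
        (Summable.mul_left _ (summable_geometric_of_lt_one (by norm_num) (by norm_num)))]
      refine ENNReal.ofReal_le_ofReal ?_
      rw [tsum_mul_left, tsum_geometric_of_lt_one (by norm_num) (by norm_num)]
      refine le_of_eq ?_
      ring
  refine hmu.trans ?_
  rw [← ENNReal.ofReal_add (by positivity) (by positivity)]
  refine ENNReal.ofReal_le_ofReal ?_
  have hJ1 : ((J + 1 : ℕ) : ℝ) ≤ 5 * L := by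
    push_cast
    have := Nat.floor_le (show 0 ≤ 4 * L by positivity)
    linarith
  have hTe : T ^ ε = Real.exp (ε * L) := by
    rw [Real.rpow_def_of_pos hT0, mul_comm]
  rw [hTe]
  refine le_trans ?_ hT1
  refine add_le_add_left ?_ _
  have h3 : L ^ (2 * B + 3) = L * L ^ (2 * B + 2) := by
    have : 2 * B + 3 = 1 + (2 * B + 2) := by ring
    rw [this, Real.rpow_add hL0, Real.rpow_one]
  rw [h3]
  have h4 : 0 < Real.exp (ε / 4 * L) * L ^ (2 * B + 2) := by positivity
  calc ((J + 1 : ℕ) : ℝ) * (36 * (Real.exp (ε / 4 * L) * L ^ (2 * B + 2)))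
      ≤ 5 * L * (36 * (Real.exp (ε / 4 * L) * L ^ (2 * B + 2))) :=
        mul_le_mul_of_nonneg_right hJ1 (by positivity)
    _ = _ := by ring

end Pool.Agent.Y834.EA
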