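import Pool.Agent.Y834.EA.Ext

/-!
# The values of a Dirichlet polynomial over primes come close to every point of a disc
-/

set_option autoImplicit false

namespace Pool.Agent.Y834.EA

open MeasureTheory Finset Filter Topology

/-- signs for which a sum of bounded reals is small -/
lemma signs (F : Finset ℕ) (r : ℕ → ℝ) {R : ℝ} (hr : ∀ p ∈ F, |r p| ≤ R) (hR : 0 ≤ R) :
    ∃ g : ℕ → ℝ, (∀ p, g p = 1 ∨ g p = -1) ∧ |∑ p ∈ F, g p * r p| ≤ R := by
  classical
  induction F using Finset.induction_on with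
  | empty => exact ⟨fun _ => 1, fun _ => Or.inl rfl, by simpa using hR⟩
  | insert a F ha ih =>
    obtain ⟨g, h1, h2⟩ := ih fun p hp => hr p (mem_insert_of_mem hp)
    have h3 := hr a (mem_insert_self a F)
    have key : ∀ t : ℝ, ∑ p ∈ F, Function.update g a t p * r p = ∑ p ∈ F, g p * r p := by
      intro t
      refine sum_congr rfl fun p hp => ?_
      have hpa : p ≠ a := by
        rintro rfl
        exact ha hp
      rw [Function.update_of_ne hpa]
    set S := ∑ p ∈ F, g p * r p with hS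
    have hup : ∀ t : ℝ, (t = 1 ∨ t = -1) → ∀ p, Function.update g a t p = 1 ∨
        Function.update g a t p = -1 := by
      intro t ht p
      by_cases hpa : p = a
      · subst hpa
        simpa using ht
      · rw [Function.update_of_ne hpa]
        exact h1 p
    obtain ⟨h4, h5⟩ := abs_le.1 h2
    obtain ⟨h6, h7⟩ := abs_le.1 h3
    rcases le_or_gt 0 S with hS0 | hS0
    · rcases le_or_gt 0 (r a) with hr0 | hr0
      · refine ⟨Function.update g a (-1), hup _ (Or.inr rfl), ?_⟩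
        rw [sum_insert ha, key, Function.update_self, abs_le]
        constructor <;> linarith
      · refine ⟨Function.update g a 1, hup _ (Or.inl rfl), ?_⟩
        rw [sum_insert ha, key, Function.update_self, abs_le]
        constructor <;> linarith
    · rcases le_or_gt 0 (r a) with hr0 | hr0
      · refine ⟨Function.update g a 1, hup _ (Or.inl rfl), ?_⟩
        rw [sum_insert ha, key, Function.update_self, abs_le]
        constructor <;> linarith
      · refine ⟨Function.update g a (-1), hup _ (Or.inr rfl), ?_⟩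
        rw [sum_insert ha, key, Function.update_self, abs_le]
        constructor <;> linarith

/-- Every point of the disc is close to a sum with given absolute values. -/
lemma phases (F : Finset ℕ) (r : ℕ → ℝ) (hr0 : ∀ p ∈ F, 0 ≤ r p) {R : ℝ}
    (hr : ∀ p ∈ F, r p ≤ R) (hR : 0 ≤ R) (w : ℂ) (hw : ‖w‖ ≤ ∑ p ∈ F, r p) :
    ∃ u : ℕ → ℂ, (∀ p, ‖u p‖ = 1) ∧ ‖∑ p ∈ F, (r p : ℂ) * u p - w‖ ≤ R := by
  obtain ⟨g, h1, h2⟩ := signs F r (fun p hp => by rw [abs_of_nonneg (hr0 p hp)]; exact hr p hp) hR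
  set M := ∑ p ∈ F, r p with hM
  have hM0 : 0 ≤ M := sum_nonneg hr0
  rcases hM0.eq_or_lt with hM0' | hMpos
  · refine ⟨fun _ => 1, fun _ => norm_one, ?_⟩
    have hw0 : w = 0 := by
      rw [← norm_le_zero_iff]
      rw [← hM0'] at hw
      exact hw
    have h3 : ∑ p ∈ F, (r p : ℂ) * 1 = 0 := by
      simp only [mul_one]
      rw [← Complex.ofReal_sum, ← hM, ← hM0']
      simp
    rw [h3, hw0, sub_zero, norm_zero]
    exact hR
  · set e : ℂ := Complex.exp (Complex.arg w * Complex.I) with he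
    have he1 : ‖e‖ = 1 := Complex.norm_exp_ofReal_mul_I _
    have hwe : (‖w‖ : ℂ) * e = w := Complex.norm_mul_exp_arg_mul_I w
    set c : ℝ := ‖w‖ / M with hc
    have hc0 : 0 ≤ c := by positivity
    have hc1 : c ≤ 1 := by
      rw [hc, div_le_one hMpos]
      exact hw
    set s : ℝ := Real.sqrt (1 - c ^ 2) with hs
    have hs2 : s ^ 2 = 1 - c ^ 2 := Real.sq_sqrt (by nlinarith)
    have hs0 : 0 ≤ s := Real.sqrt_nonneg _
    have hs1 : s ≤ 1 := by nlinarith
    refine ⟨fun p => e * (c + g p * s * Complex.I), ?_, ?_⟩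
    · intro p
      rw [norm_mul, he1, one_mul]
      have h3 : ((c : ℂ) + g p * s * Complex.I) = ((c : ℝ) : ℂ) + ((g p * s : ℝ) : ℂ) * Complex.I := by
        push_cast
        ring
      have h4 : g p ^ 2 = 1 := by
        rcases h1 p with h | h
        · rw [h]; norm_num
        · rw [h]; norm_num
      have h5 : ‖((c : ℂ) + g p * s * Complex.I)‖ ^ 2 = 1 := by
        rw [h3, ← Complex.normSq_eq_norm_sq, Complex.normSq_add_mul_I, mul_pow, h4, hs2]
        ring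
      have h6 : 0 ≤ ‖((c : ℂ) + g p * s * Complex.I)‖ := norm_nonneg _
      nlinarith
    · have h3 : ∑ p ∈ F, (r p : ℂ) * (e * (c + g p * s * Complex.I)) - w =
          e * (s * Complex.I * ((∑ p ∈ F, g p * r p : ℝ) : ℂ)) := by
        have h4 : ∑ p ∈ F, (r p : ℂ) * (e * (c + g p * s * Complex.I)) =
            e * c * (M : ℂ) + e * (s * Complex.I * ((∑ p ∈ F, g p * r p : ℝ) : ℂ)) := by
          rw [hM]
          push_cast
          rw [mul_sum, mul_sum, mul_sum, ← sum_add_distrib]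
          refine sum_congr rfl fun p _ => ?_
          ring
        have h5 : (c : ℂ) * (M : ℂ) = (‖w‖ : ℂ) := by
          rw [hc, ← Complex.ofReal_mul, div_mul_cancel₀ _ hMpos.ne']
        rw [h4, mul_assoc e, h5, mul_comm e (‖w‖ : ℂ), hwe]
        ring
      rw [h3, norm_mul, he1, one_mul, norm_mul, norm_mul, Complex.norm_I, mul_one,
        Complex.norm_real, Complex.norm_real, Real.norm_of_nonneg hs0, Real.norm_eq_abs]
      calc s * |∑ p ∈ F, g p * r p| ≤ 1 * R := mul_le_mul hs1 h2 (abs_nonneg _) zero_le_one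
        _ = R := one_mul R

/-- If the real part of a sum is almost maximal then all terms are almost positive reals. -/
lemma approx_of_re (F : Finset ℕ) (z : ℕ → ℂ) {lam : ℝ}
    (h : ∑ p ∈ F, ‖z p‖ - lam ≤ (∑ p ∈ F, z p).re) :
    (∑ p ∈ F, ‖z p - (‖z p‖ : ℂ)‖) ^ 2 ≤ 2 * (∑ p ∈ F, ‖z p‖) * lam := by
  have h1 := sum_sq_le_sum_mul_sum_of_sq_le_mul F (r := fun p => ‖z p - (‖z p‖ : ℂ)‖)
    (f := fun p => 2 * ‖z p‖) (g := fun p => ‖z p‖ - (z p).re)
    (fun p _ => by positivity) (fun p _ => sub_nonneg.2 (Complex.re_le_norm _)) (fun p _ => by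
      have h2 : ‖z p‖ ^ 2 = (z p).re ^ 2 + (z p).im ^ 2 := by
        rw [← Complex.normSq_eq_norm_sq, Complex.normSq_apply]
        ring
      rw [← Complex.normSq_eq_norm_sq, Complex.normSq_apply]
      simp only [Complex.sub_re, Complex.sub_im, Complex.ofReal_re, Complex.ofReal_im, sub_zero]
      nlinarith)
  refine h1.trans ?_
  have h2 : ∑ p ∈ F, (‖z p‖ - (z p).re) ≤ lam := by
    rw [sum_sub_distrib, ← Complex.re_sum]
    linarith
  rw [← mul_sum]
  exact mul_le_mul_of_nonneg_left h2 (mul_nonneg zero_le_two (sum_nonneg fun _ _ => norm_nonneg _))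

/-- Every point of the disc is approximated on a set of measure bounded below. -/
theorem disc_values {F : Finset ℕ} (hF : ∀ p ∈ F, p.Prime) {Q : ℝ} (hQ1 : 1 ≤ Q)
    (hQ : ∀ p ∈ F, (p : ℝ) ≤ Q) (c : ℕ → ℂ) {R : ℝ} (hR : ∀ p ∈ F, ‖c p‖ ≤ R) (hR0 : 0 ≤ R)
    (w : ℂ) (hw : ‖w‖ ≤ ∑ p ∈ F, ‖c p‖) (k : ℕ) {T : ℝ} (hT : 0 < T)
    (hTQ : 4 * (Q ^ k) ^ 2 ≤ T)
    (hk : 1 ≤ ∑ p ∈ F, ‖c p‖ → Real.exp (-(k * (1 / (2 * (∑ p ∈ F, ‖c p‖) ^ 2)))) ≤
      1 / (4 * (k + 1) ^ F.card)) :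
    ENNReal.ofReal (T / (4 * (k + 1) ^ F.card)) ≤
      volume {τ : ℝ | τ ∈ Set.Ioc 0 T ∧
        ‖∑ p ∈ F, c p * Complex.exp (-(τ * Real.log p) * Complex.I) - w‖ ≤ 2 + R} := by
  obtain ⟨u, hu1, hu2⟩ := phases F (fun p => ‖c p‖) (fun _ _ => norm_nonneg _) hR hR0 w hw
  set c' : ℕ → ℂ := fun p => c p * (starRingEnd ℂ) (u p) with hc'
  have hc'n : ∀ p, ‖c' p‖ = ‖c p‖ := by
    intro p
    rw [hc', norm_mul, RCLike.norm_conj, hu1, mul_one]
  set z : ℝ → ℕ → ℂ := fun τ p => c' p * Complex.exp (-(τ * Real.log p) * Complex.I) with hz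
  have hzn : ∀ τ p, ‖z τ p‖ = ‖c p‖ := by
    intro τ p
    have h1 : -((τ : ℂ) * (Real.log p : ℂ)) * Complex.I =
        ((-(τ * Real.log p) : ℝ) : ℂ) * Complex.I := by
      push_cast
      ring
    rw [hz]
    simp only
    rw [norm_mul, h1, Complex.norm_exp_ofReal_mul_I, mul_one, hc'n]
  have hcz : ∀ τ : ℝ, ∀ p, c p * Complex.exp (-(τ * Real.log p) * Complex.I) - ‖c p‖ * u p =
      u p * (z τ p - ‖z τ p‖) := by
    intro τ p
    rw [hzn]
    have h1 : u p * (starRingEnd ℂ) (u p) = 1 := by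
      rw [Complex.mul_conj, Complex.normSq_eq_norm_sq, hu1]
      norm_num
    rw [hz, hc']
    simp only
    calc c p * Complex.exp (-(τ * Real.log p) * Complex.I) - ‖c p‖ * u p
        = (u p * (starRingEnd ℂ) (u p)) * (c p * Complex.exp (-(τ * Real.log p) * Complex.I)) -
          ‖c p‖ * u p := by rw [h1, one_mul]
      _ = _ := by ring
  have hfin : ∀ τ : ℝ, ∑ p ∈ F, ‖z τ p - (‖z τ p‖ : ℂ)‖ ≤ 2 →
      ‖∑ p ∈ F, c p * Complex.exp (-(τ * Real.log p) * Complex.I) - w‖ ≤ 2 + R := by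
    intro τ h
    have h1 : ∑ p ∈ F, c p * Complex.exp (-(τ * Real.log p) * Complex.I) - w =
        ∑ p ∈ F, (c p * Complex.exp (-(τ * Real.log p) * Complex.I) - ‖c p‖ * u p) +
          (∑ p ∈ F, (‖c p‖ : ℂ) * u p - w) := by
      rw [sum_sub_distrib]
      ring
    rw [h1]
    refine (norm_add_le _ _).trans (add_le_add ?_ hu2)
    refine le_trans ?_ h
    refine norm_sum_le_of_le _ fun p _ => ?_
    rw [hcz, norm_mul, hu1, one_mul]
  set M := ∑ p ∈ F, ‖c p‖ with hM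
  have hD1 : (1 : ℝ) ≤ 4 * (k + 1) ^ F.card := by
    have : (1 : ℝ) ≤ (k + 1) ^ F.card := one_le_pow₀ (by
      have : (0 : ℝ) ≤ k := Nat.cast_nonneg k
      linarith)
    linarith
  rcases le_or_gt 1 M with hM1 | hM1
  · have hM0 : 0 < M := by linarith
    have h1 := large_values hF hQ1 hQ c' (M := M) (by
      rw [hM]
      exact sum_congr rfl fun p _ => hc'n p) hM0 (1 / M) k hT hTQ (by
      have h2 : 1 / M / (2 * M) = 1 / (2 * M ^ 2) := by field_simp
      rw [h2]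
      exact hk hM1)
    refine h1.trans (measure_mono ?_)
    rintro τ ⟨hτ1, hτ2⟩
    refine ⟨hτ1, hfin τ ?_⟩
    have h3 : ∑ p ∈ F, ‖z τ p‖ = M := by
      rw [hM]
      exact sum_congr rfl fun p _ => hzn τ p
    have h2 := approx_of_re F (z τ) (lam := 1 / M) (by
      rw [h3]
      exact hτ2)
    rw [h3, mul_assoc, mul_one_div_cancel hM0.ne'] at h2
    have h4 : 0 ≤ ∑ p ∈ F, ‖z τ p - (‖z τ p‖ : ℂ)‖ := sum_nonneg fun _ _ => norm_nonneg _
    nlinarith
  · have h1 : Set.Ioc 0 T ⊆ {τ : ℝ | τ ∈ Set.Ioc 0 T ∧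
        ‖∑ p ∈ F, c p * Complex.exp (-(τ * Real.log p) * Complex.I) - w‖ ≤ 2 + R} := by
      intro τ hτ
      refine ⟨hτ, hfin τ ?_⟩
      calc ∑ p ∈ F, ‖z τ p - (‖z τ p‖ : ℂ)‖ ≤ ∑ p ∈ F, 2 * ‖c p‖ := by
            refine sum_le_sum fun p _ => ?_
            refine (norm_sub_le _ _).trans ?_
            rw [Complex.norm_real, norm_norm, hzn]
            linarith
        _ = 2 * M := by rw [← mul_sum]
        _ ≤ 2 := by linarith
    refine le_trans ?_ (measure_mono h1)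
    rw [Real.volume_Ioc, sub_zero]
    refine ENNReal.ofReal_le_ofReal ?_
    exact div_le_self hT.le hD1

/-- the primes less than `x` -/
noncomputable def PS (x : ℕ) : Finset ℕ := (range x).filter Nat.Prime

lemma mem_PS {x p : ℕ} : p ∈ PS x ↔ p < x ∧ p.Prime := by
  unfold PS
  rw [mem_filter, mem_range]

lemma sum_PS_le {D : ℝ} (hD : 0 ≤ D) (c : ℕ → ℂ) (hc : ∀ p : ℕ, p.Prime → ‖c p‖ ≤ D / p) (x : ℕ) :
    ∑ p ∈ PS x, ‖c p‖ ≤ D * (1 + Real.log x) := by
  have h1 : ∑ p ∈ PS x, ‖c p‖ ≤ ∑ p ∈ Icc 1 x, D / (p : ℝ) := by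
    refine (sum_le_sum fun p hp => hc p (mem_PS.1 hp).2).trans ?_
    refine sum_le_sum_of_subset_of_nonneg (fun p hp => ?_) fun p _ _ => by positivity
    rw [mem_PS] at hp
    exact mem_Icc.2 ⟨hp.2.one_le, hp.1.le⟩
  refine h1.trans ?_
  have h2 : ∑ p ∈ Icc 1 x, D / (p : ℝ) = D * ((harmonic x : ℚ) : ℝ) := by
    rw [harmonic_eq_sum_Icc, mul_comm]
    push_cast
    rw [sum_mul]
    refine sum_congr rfl fun p _ => ?_
    rw [div_eq_mul_inv]
    ring
  rw [h2]
  exact mul_le_mul_of_nonneg_left (harmonic_le_one_add_log x) hD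

/-- **The disc theorem for prime sums.** -/
theorem disc_ev (D ε : ℝ) (hD : 0 ≤ D) (hε : 0 < ε) (hε1 : ε ≤ 1) :
    ∀ᶠ T : ℝ in atTop, ∀ c : ℕ → ℂ, (∀ p : ℕ, p.Prime → ‖c p‖ ≤ D / p) →
      ∀ w : ℂ, ‖w‖ ≤ ∑ p ∈ PS ⌈Real.log T ^ (1 - ε)⌉₊, ‖c p‖ →
        ENNReal.ofReal (T ^ (1 - ε)) ≤ volume {τ : ℝ | τ ∈ Set.Ioc 0 T ∧
          ‖∑ p ∈ PS ⌈Real.log T ^ (1 - ε)⌉₊,
            c p * Complex.exp (-(τ * Real.log p) * Complex.I) - w‖ ≤ 2 + D} := by
  have hlog : Tendsto Real.log atTop atTop := Real.tendsto_log_atTop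
  have hev : ∀ᶠ L : ℝ in atTop, 2 ≤ L ∧ Real.log L ≤ L ^ (ε / 16) ∧
      8 + 4 / ε + 400 * D ^ 2 ≤ L ^ (ε / 16) := by
    have h1 : ∀ᶠ L : ℝ in atTop, Real.log L ≤ L ^ (ε / 16) := by
      have h2 := (isLittleO_log_rpow_atTop (r := ε / 16) (by positivity)).bound
        (zero_lt_one : (0 : ℝ) < 1)
      filter_upwards [h2, eventually_ge_atTop 1] with L hL hL1
      rw [one_mul, Real.norm_eq_abs, Real.norm_eq_abs,
        abs_of_nonneg (Real.log_nonneg hL1), abs_of_nonneg (by positivity)] at hL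
      exact hL
    have h3 : Tendsto (fun L : ℝ => L ^ (ε / 16)) atTop atTop :=
      tendsto_rpow_atTop (by positivity)
    filter_upwards [eventually_ge_atTop 2, h1, h3.eventually_ge_atTop (8 + 4 / ε + 400 * D ^ 2)]
      with L h4 h5 h6
    exact ⟨h4, h5, h6⟩
  filter_upwards [hlog.eventually hev, eventually_gt_atTop 0] with T hT hT0 c hc w hw
  obtain ⟨hL2, hll, hX⟩ := hT
  set L := Real.log T with hL
  have hL0 : 0 < L := by linarith
  have hL1 : 1 ≤ L := by linarith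
  set X : ℝ := L ^ (ε / 16) with hXdef
  set Y : ℝ := L ^ (1 - ε) with hYdef
  have hε4 : 0 < 4 / ε := by positivity
  have hD2 : 0 ≤ D ^ 2 := sq_nonneg D
  have hX8 : 8 ≤ X := by linarith
  have hX0 : 0 < X := by linarith
  have hY1 : 1 ≤ Y := Real.one_le_rpow hL1 (by linarith)
  have hY0 : 0 < Y := by linarith
  have hLXY : L = Y * X ^ 16 := by
    rw [hXdef, hYdef, ← Real.rpow_natCast, ← Real.rpow_mul hL0.le, ← Real.rpow_add hL0]
    have : 1 - ε + ε / 16 * ((16 : ℕ) : ℝ) = 1 := by push_cast; ring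
    rw [this, Real.rpow_one]
  set k : ℕ := ⌊Y * X ^ 8⌋₊ with hk
  have hX8' : 1 ≤ X ^ 8 := one_le_pow₀ (by linarith)
  have hX88 : X ≤ X ^ 8 := le_self_pow₀ (by linarith) (by norm_num)
  have hYX : 2 ≤ Y * X ^ 8 := by nlinarith
  have hk1 : (k : ℝ) ≤ Y * X ^ 8 := Nat.floor_le (by positivity)
  have hk2 : Y * X ^ 8 < k + 1 := Nat.lt_floor_add_one _
  have hk3 : Y * X ^ 8 / 2 ≤ k := by linarith
  have hX816 : X ^ 16 = X ^ 8 * X ^ 8 := by rw [← pow_add]
  have hkL : (k : ℝ) + 1 ≤ L ^ 2 := by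
    have h1 : Y * X ^ 8 ≤ L := by
      rw [hLXY, hX816]
      have : X ^ 8 ≤ X ^ 8 * X ^ 8 := by nlinarith
      exact mul_le_mul_of_nonneg_left this hY0.le
    nlinarith
  have hlogk : Real.log ((k : ℝ) + 1) ≤ 2 * X := by
    have h1 := Real.log_le_log (by positivity) hkL
    rw [Real.log_pow] at h1
    push_cast at h1
    linarith
  have hlogk0 : 0 ≤ Real.log ((k : ℝ) + 1) := Real.log_nonneg (by
    have : (0 : ℝ) ≤ k := Nat.cast_nonneg k
    linarith)
  have hcard : ((PS ⌈Y⌉₊).card : ℝ) ≤ Y := by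
    have h1 : PS ⌈Y⌉₊ ⊆ Ico 1 ⌈Y⌉₊ := fun p hp => by
      rw [mem_PS] at hp
      exact mem_Ico.2 ⟨hp.2.one_le, hp.1⟩
    have h2 := card_le_card h1
    rw [Nat.card_Ico] at h2
    have h3 : 1 ≤ ⌈Y⌉₊ := Nat.one_le_ceil_iff.2 hY0
    have h4 : ((PS ⌈Y⌉₊).card : ℝ) ≤ (⌈Y⌉₊ : ℝ) - 1 := by
      have : (PS ⌈Y⌉₊).card + 1 ≤ ⌈Y⌉₊ := by omega
      have h5 : (((PS ⌈Y⌉₊).card : ℕ) : ℝ) + 1 ≤ (⌈Y⌉₊ : ℝ) := by exact_mod_cast this
      linarith
    have := Nat.ceil_lt_add_one hY0.le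
    linarith
  have hlog4 : Real.log 4 ≤ 2 := by
    have h1 : Real.log 4 = 2 * Real.log 2 := by
      have : (4 : ℝ) = 2 ^ 2 := by norm_num
      rw [this, Real.log_pow]
      norm_num
    have := Real.log_two_lt_d9
    linarith
  -- the size of the denominator
  have hden : 4 * ((k : ℝ) + 1) ^ (PS ⌈Y⌉₊).card ≤ Real.exp (4 * Y * X) := by
    have h1 : (0 : ℝ) < 4 * ((k : ℝ) + 1) ^ (PS ⌈Y⌉₊).card := by positivity
    rw [← Real.log_le_iff_le_exp h1, Real.log_mul (by norm_num) (by positivity), Real.log_pow]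
    have h2 : ((PS ⌈Y⌉₊).card : ℝ) * Real.log ((k : ℝ) + 1) ≤ Y * (2 * X) :=
      mul_le_mul hcard hlogk hlogk0 hY0.le
    nlinarith
  have hQ : ∀ p ∈ PS ⌈Y⌉₊, (p : ℝ) ≤ Y := by
    intro p hp
    exact (Nat.lt_ceil.1 (mem_PS.1 hp).1).le
  have hR : ∀ p ∈ PS ⌈Y⌉₊, ‖c p‖ ≤ D := by
    intro p hp
    have hpp := (mem_PS.1 hp).2
    refine (hc p hpp).trans (div_le_self hD ?_)
    exact_mod_cast hpp.one_le
  have hTQ : 4 * (Y ^ k) ^ 2 ≤ T := by
    have h1 : (0 : ℝ) < 4 * (Y ^ k) ^ 2 := by positivity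
    rw [← Real.log_le_log_iff h1 hT0, Real.log_mul (by norm_num) (by positivity), Real.log_pow,
      Real.log_pow, ← hL]
    have h2 : Real.log Y ≤ X := by
      refine le_trans ?_ hll
      refine Real.log_le_log hY0 ?_
      calc Y ≤ L ^ (1 : ℝ) := Real.rpow_le_rpow_of_exponent_le hL1 (by linarith)
        _ = L := Real.rpow_one L
    have h2' : 0 ≤ Real.log Y := Real.log_nonneg hY1
    have h3 : (k : ℝ) * Real.log Y ≤ (Y * X ^ 8) * X := mul_le_mul hk1 h2 h2' (by positivity)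
    have h4 : 4 * (Y * X ^ 8 * X) ≤ L := by
      rw [hLXY, hX816]
      have h5 : 4 * X ≤ X ^ 8 := by
        have h6 : X ^ 2 ≤ X ^ 8 := pow_le_pow_right₀ (by linarith) (by norm_num)
        nlinarith
      have h6 : 0 ≤ Y * X ^ 8 := by positivity
      nlinarith
    push_cast
    have h7 : 2 ≤ Y * X ^ 8 * X := by nlinarith
    linarith
  have hkk : 1 ≤ ∑ p ∈ PS ⌈Y⌉₊, ‖c p‖ →
      Real.exp (-(k * (1 / (2 * (∑ p ∈ PS ⌈Y⌉₊, ‖c p‖) ^ 2)))) ≤
      1 / (4 * ((k : ℝ) + 1) ^ (PS ⌈Y⌉₊).card) := by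
    intro hM1
    have h1 := sum_PS_le hD c hc ⌈Y⌉₊
    set M := ∑ p ∈ PS ⌈Y⌉₊, ‖c p‖ with hM
    have h2 : Real.log ⌈Y⌉₊ ≤ 2 * X := by
      have h3 : (⌈Y⌉₊ : ℝ) ≤ L ^ 2 := by
        have h4 := Nat.ceil_lt_add_one hY0.le
        have h5 : Y ≤ L := by
          calc Y ≤ L ^ (1 : ℝ) := Real.rpow_le_rpow_of_exponent_le hL1 (by linarith)
            _ = L := Real.rpow_one L
        nlinarith
      have h4 : (0 : ℝ) < ⌈Y⌉₊ := lt_of_lt_of_le hY0 (Nat.le_ceil Y)
      have h5 := Real.log_le_log h4 h3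
      rw [Real.log_pow] at h5
      push_cast at h5
      linarith
    have h3 : M ≤ 3 * (D * X) := by
      refine h1.trans ?_
      have : 1 + Real.log ⌈Y⌉₊ ≤ 3 * X := by linarith
      nlinarith
    have h4 : M ^ 2 ≤ 9 * D ^ 2 * X ^ 2 := by
      have := pow_le_pow_left₀ (by linarith) h3 2
      nlinarith
    have h5 : 4 * Y * X ≤ k * (1 / (2 * M ^ 2)) := by
      rw [mul_one_div, le_div_iff₀ (by positivity)]
      have h6 : 4 * Y * X * (2 * M ^ 2) ≤ 4 * Y * X * (2 * (9 * D ^ 2 * X ^ 2)) := by gcongr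
      refine h6.trans (le_trans ?_ hk3)
      have h7 : 144 * D ^ 2 ≤ X := by linarith
      have h8 : X ^ 4 ≤ X ^ 8 := pow_le_pow_right₀ (by linarith) (by norm_num)
      have h9 : 144 * D ^ 2 * X ^ 3 ≤ X ^ 8 := by
        calc 144 * D ^ 2 * X ^ 3 ≤ X * X ^ 3 := mul_le_mul_of_nonneg_right h7 (by positivity)
          _ = X ^ 4 := by ring
          _ ≤ X ^ 8 := h8
      nlinarith
    refine (Real.exp_le_exp.2 (neg_le_neg h5)).trans ?_
    rw [Real.exp_neg, one_div]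
    exact inv_anti₀ (by positivity) hden
  have h1 := disc_values (fun p hp => (mem_PS.1 hp).2) hY1 hQ c hR hD w hw k hT0 hTQ hkk
  refine le_trans (ENNReal.ofReal_le_ofReal ?_) h1
  rw [le_div_iff₀ (by positivity)]
  have h2 : T ^ (1 - ε) = Real.exp (L * (1 - ε)) := Real.rpow_def_of_pos hT0 _
  have h3 : T = Real.exp L := (Real.exp_log hT0).symm
  calc T ^ (1 - ε) * (4 * ((k : ℝ) + 1) ^ (PS ⌈Y⌉₊).card)
      ≤ Real.exp (L * (1 - ε)) * Real.exp (4 * Y * X) := by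
        rw [h2]
        exact mul_le_mul_of_nonneg_left hden (Real.exp_pos _).le
    _ = Real.exp (L * (1 - ε) + 4 * Y * X) := (Real.exp_add _ _).symm
    _ ≤ Real.exp L := by
        refine Real.exp_le_exp.2 ?_
        have h4 : 4 * Y * X ≤ ε * L := by
          have h5 : 4 ≤ ε * X := by
            have : 4 / ε ≤ X := by linarith
            rw [div_le_iff₀ hε] at this
            linarith
          have h6 : X ≤ X ^ 15 := le_self_pow₀ (by linarith) (by norm_num)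
          calc 4 * Y * X ≤ (ε * X) * Y * X ^ 15 := by gcongr
            _ = ε * (Y * X ^ 16) := by ring
            _ = ε * L := by rw [← hLXY]
        linarith
    _ = T := h3.symm

end Pool.Agent.Y834.EA
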