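import Pool.Agent.Y834.EA.Blk

/-!
# Outside the exceptional set the tails are small
-/

set_option autoImplicit false

namespace Pool.Agent.Y834.EA

open MeasureTheory Finset Filter Topology

/-- the primes in `[y, x)` -/
noncomputable def PR (y : ℝ) (x : ℕ) : Finset ℕ := by
  classical
  exact (range x).filter fun p => p.Prime ∧ y ≤ p

lemma mem_PR {y : ℝ} {x p : ℕ} : p ∈ PR y x ↔ p < x ∧ p.Prime ∧ y ≤ p := by
  unfold PR
  rw [mem_filter, mem_range]

/-- the end points of the high blocks -/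
noncomputable def xe (T : ℝ) (i : ℕ) : ℕ := ⌈Real.exp ((2 ^ i * K0 T : ℕ) / T)⌉₊

lemma mem_PR_xe {y T : ℝ} (hT : 0 < T) {i p : ℕ} : p ∈ PR y (xe T i) ↔
    p.Prime ∧ y ≤ p ∧ gi T p < 2 ^ i * K0 T := by
  rw [mem_PR]
  constructor
  · rintro ⟨h1, h2, h3⟩
    exact ⟨h2, h3, (gi_lt_iff hT h2.one_le).2 h1⟩
  · rintro ⟨h1, h2, h3⟩
    exact ⟨(gi_lt_iff hT h1.one_le).1 h3, h1, h2⟩

lemma Fl_empty {T : ℝ} (hT8 : 8 ≤ T) (hL2 : 2 ≤ Real.log T) (y : ℝ) (j : ℕ)
    (hj : ⌊4 * Real.log T⌋₊ < j) : Fl y T j = ∅ := by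
  rw [Finset.eq_empty_iff_forall_notMem]
  intro p hp
  rw [mem_Fl] at hp
  have hT0 : 0 < T := by linarith
  obtain ⟨hpp, h1, h2, h3, h4⟩ := hp
  have h5 : T * Real.log p < K0 T := by
    have := lt_gi T p
    have h6 : (gi T p : ℝ) + 1 ≤ K0 T := by exact_mod_cast h4
    linarith
  have h6 : (K0 T : ℝ) < 2 * T * Real.log T + 1 := Nat.ceil_lt_add_one (by positivity)
  have h7 : Real.log p < 2 * Real.log T + 1 := by
    by_contra h
    push Not at h
    have : T * (2 * Real.log T + 1) ≤ T * Real.log p := mul_le_mul_of_nonneg_left h hT0.le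
    nlinarith
  have h8 : (j : ℝ) * Real.log 2 ≤ Real.log p := by
    rw [← Real.log_pow]
    exact Real.log_le_log (by positivity) (by exact_mod_cast h1)
  have h9 : 4 * Real.log T < j := by
    have : ((⌊4 * Real.log T⌋₊ : ℕ) : ℝ) + 1 ≤ j := by exact_mod_cast hj
    have := Nat.lt_floor_add_one (4 * Real.log T)
    linarith
  have h10 := Real.log_two_gt_d9
  nlinarith

/-- decomposition into blocks -/
lemma decomp {T : ℝ} (hT8 : 8 ≤ T) (hL2 : 2 ≤ Real.log T) (y : ℝ) (c : ℕ → ℂ) (τ : ℝ) (i : ℕ) :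
    SS (PR y (xe T i)) c τ = ∑ j ∈ range (⌊4 * Real.log T⌋₊ + 1), SS (Fl y T j) c τ +
      ∑ l ∈ range i, SS (Fh y T l) c τ := by
  classical
  have hT0 : 0 < T := by linarith
  induction i with
  | zero =>
    rw [range_zero, sum_empty, add_zero]
    unfold SS
    have hmaps : ∀ p ∈ PR y (xe T 0), Nat.log 2 p ∈ range (⌊4 * Real.log T⌋₊ + 1) := by
      intro p hp
      rw [mem_PR_xe hT0, pow_zero, one_mul] at hp
      by_contra h
      rw [mem_range] at h
      have h1 := Fl_empty hT8 hL2 y (Nat.log 2 p) (by omega)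
      have h2 : p ∈ Fl y T (Nat.log 2 p) := by
        rw [mem_Fl]
        exact ⟨hp.1, Nat.pow_log_le_self 2 hp.1.ne_zero, Nat.lt_pow_succ_log_self (by norm_num) p,
          hp.2.1, hp.2.2⟩
      rw [h1] at h2
      simp at h2
    rw [← sum_fiberwise_of_maps_to hmaps]
    refine sum_congr rfl fun j _ => sum_congr ?_ fun _ _ => rfl
    ext p
    rw [mem_filter, mem_PR_xe hT0, mem_Fl, pow_zero, one_mul]
    constructor
    · rintro ⟨⟨h1, h2, h3⟩, h4⟩
      have h5 := Nat.pow_log_le_self 2 h1.ne_zero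
      have h6 := Nat.lt_pow_succ_log_self (b := 2) (by norm_num) p
      rw [h4] at h5 h6
      exact ⟨h1, h5, h6, h2, h3⟩
    · rintro ⟨h1, h2, h3, h4, h5⟩
      exact ⟨⟨h1, h4, h5⟩, (Nat.log_eq_iff (Or.inr ⟨by norm_num, h1.ne_zero⟩)).2 ⟨h2, h3⟩⟩
  | succ i ih =>
    rw [sum_range_succ (fun l => SS (Fh y T l) c τ) i, ← add_assoc, ← ih]
    unfold SS
    rw [← sum_union]
    · refine sum_congr ?_ fun _ _ => rfl
      ext p
      rw [mem_union, mem_PR_xe hT0, mem_PR_xe hT0, mem_Fh hT0]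
      constructor
      · rintro ⟨h1, h2, h3⟩
        rcases Nat.lt_or_ge (gi T p) (2 ^ i * K0 T) with h | h
        · exact Or.inl ⟨h1, h2, h⟩
        · exact Or.inr ⟨h1, h2, h, h3⟩
      · rintro (⟨h1, h2, h3⟩ | ⟨h1, h2, h3, h4⟩)
        · refine ⟨h1, h2, lt_of_lt_of_le h3 ?_⟩
          exact Nat.mul_le_mul_right _ (Nat.pow_le_pow_right (by norm_num) (by omega))
        · exact ⟨h1, h2, h4⟩
    · rw [disjoint_left]
      intro p hp hq
      rw [mem_PR_xe hT0] at hp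
      rw [mem_Fh hT0] at hq
      omega

/-- bound for the partial sums outside the exceptional set -/
theorem partial_bound {A B T : ℝ} (hT8 : 8 ≤ T) (hL2 : 2 ≤ Real.log T) (c : ℕ → ℂ) {a τ : ℝ}
    (hτ : τ ∈ Set.Ioc a (a + T)) (hτ' : τ ∉ Exc A B T c a) (i : ℕ) :
    ‖SS (PR (Real.log T ^ A) (xe T i)) c τ‖ ≤ 9 * Real.log T ^ (1 - B) := by
  have hL0 : 0 < Real.log T := by linarith
  set L := Real.log T with hL
  set lam : ℝ := L ^ (-B) with hlam
  have hlam0 : 0 < lam := Real.rpow_pos_of_pos hL0 _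
  have h1 : (∀ j, ‖SS (Fl (L ^ A) T j) c τ‖ < lam) ∧
      ∀ i : ℕ, ‖SS (Fh (L ^ A) T i) c τ‖ < lam * (3 / 4) ^ i := by
    constructor
    · intro j
      by_contra h
      exact hτ' ⟨hτ, Or.inl ⟨j, not_lt.1 h⟩⟩
    · intro j
      by_contra h
      exact hτ' ⟨hτ, Or.inr ⟨j, not_lt.1 h⟩⟩
  rw [decomp hT8 hL2]
  have h2 : ‖∑ j ∈ range (⌊4 * L⌋₊ + 1), SS (Fl (L ^ A) T j) c τ‖ ≤ 5 * L * lam := by
    refine (norm_sum_le_of_le _ fun j _ => (h1.1 j).le).trans ?_
    rw [sum_const, card_range, nsmul_eq_mul]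
    refine mul_le_mul_of_nonneg_right ?_ hlam0.le
    push_cast
    have := Nat.floor_le (show 0 ≤ 4 * L by positivity)
    linarith
  have h3 : ‖∑ l ∈ range i, SS (Fh (L ^ A) T l) c τ‖ ≤ 4 * lam := by
    refine (norm_sum_le_of_le _ fun j _ => (h1.2 j).le).trans ?_
    rw [← mul_sum, mul_comm]
    refine mul_le_mul_of_nonneg_right ?_ hlam0.le
    have h4 : Summable fun n : ℕ => (3 / 4 : ℝ) ^ n :=
      summable_geometric_of_lt_one (by norm_num) (by norm_num)
    refine (h4.sum_le_tsum _ fun n _ => by positivity).trans ?_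
    rw [tsum_geometric_of_lt_one (by norm_num) (by norm_num)]
    norm_num
  have h4 : L ^ (1 - B) = L * lam := by
    rw [hlam, sub_eq_add_neg, Real.rpow_add hL0, Real.rpow_one]
  rw [h4]
  refine (norm_add_le _ _).trans ?_
  nlinarith [mul_pos hL0 hlam0]

lemma tendsto_xe {T : ℝ} (hT : 0 < T) (hK : 1 ≤ K0 T) : Tendsto (xe T) atTop atTop := by
  have h1 : Tendsto (fun i : ℕ => Real.exp ((2 ^ i * K0 T : ℕ) / T)) atTop atTop := by
    refine Real.tendsto_exp_atTop.comp ?_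
    refine Tendsto.atTop_div_const hT ?_
    refine tendsto_natCast_atTop_atTop.comp ?_
    refine tendsto_atTop_mono (fun i => ?_) (tendsto_pow_atTop_atTop_of_one_lt (r := (2 : ℕ))
      (by norm_num))
    exact Nat.le_mul_of_pos_right _ hK
  exact tendsto_nat_ceil_atTop.comp h1

end Pool.Agent.Y834.EA
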