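import Pool.Agent.Y834.EA.Loc
import Pool.Agent.Y834.EA.Tail

/-!
# Sums over the places of a number field, uniformly
-/

set_option autoImplicit false

namespace Pool.Agent.Y834.EA

open Filter Topology NumberField IsDedekindDomain Finset Pool.Agent.H921R2.TatePole
  Pool.Agent.H341R2 Pool.Agent.H341R2.EC Pool.Agent.W350.Edge Pool.Agent.W350.EdgeV
  Pool.Agent.W350.EdgeNF Pool.Agent.W350.EdgeEC

variable {K : Type} [Field K] [NumberField K]

open Classical in
/-- the normalised traces at all places prime to 6 -/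
noncomputable def bn (W : HeightOneSpectrum (𝓞 K) → WeierstrassCurve (𝓞 K))
    (v : HeightOneSpectrum (𝓞 K)) : ℂ :=
  if (6 : 𝓞 K) ∉ v.asIdeal then (trc W v : ℂ) * (((Real.sqrt (nm v) : ℝ) : ℂ))⁻¹ else 0

lemma norm_bn (W : HeightOneSpectrum (𝓞 K) → WeierstrassCurve (𝓞 K))
    (v : HeightOneSpectrum (𝓞 K)) : ‖bn W v‖ ≤ 2 := by
  unfold bn
  split_ifs with h
  · simp
  · have hs : 0 < Real.sqrt (nm v) := Real.sqrt_pos.2 (nm_pos v)
    rw [norm_mul, Complex.norm_intCast, norm_inv, Complex.norm_real,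
      Real.norm_of_nonneg hs.le, ← div_eq_mul_inv, div_le_iff₀ hs]
    exact trc_bound W v h

lemma bn_term (W : HeightOneSpectrum (𝓞 K) → WeierstrassCurve (𝓞 K))
    {v : HeightOneSpectrum (𝓞 K)} (h : (6 : 𝓞 K) ∉ v.asIdeal) (τ : ℝ) (z : ℂ) :
    Complex.exp (-z * Real.log (nm v)) * vt nm (bn W) τ v =
      (trc W v : ℂ) * (nm v : ℂ) ^ (-(((3 / 2 : ℝ) : ℂ) + τ * Complex.I + z)) := by
  have h0 := nm_pos v
  have hlog : Complex.log (nm v : ℂ) = ((Real.log (nm v) : ℝ) : ℂ) := by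
    rw [← Complex.ofReal_natCast, Complex.ofReal_log h0.le]
  have h1 : (nm v : ℂ) = Complex.exp ((Real.log (nm v) : ℝ) : ℂ) := by
    rw [← Complex.ofReal_exp, Real.exp_log h0, Complex.ofReal_natCast]
  have h2 : ((Real.sqrt (nm v) : ℝ) : ℂ) = Complex.exp ((Real.log (nm v) / 2 : ℝ) : ℂ) := by
    rw [← Complex.ofReal_exp, Real.sqrt_eq_rpow, Real.rpow_def_of_pos h0]
    congr 2
    ring
  unfold vt bn
  rw [if_pos h, Complex.cpow_def_of_ne_zero (nmC_ne v), hlog, h2, ← Complex.exp_neg]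
  have h3 : (trc W v : ℂ) * Complex.exp (-((Real.log (nm v) / 2 : ℝ) : ℂ)) / (nm v : ℂ) =
      (trc W v : ℂ) * Complex.exp (-((Real.log (nm v) / 2 : ℝ) : ℂ)) *
        Complex.exp (-((Real.log (nm v) : ℝ) : ℂ)) := by
    rw [Complex.exp_neg ((Real.log (nm v) : ℝ) : ℂ), ← h1, div_eq_mul_inv]
  rw [h3]
  have h4 : ∀ x y u w c : ℂ, Complex.exp x * (c * Complex.exp y * Complex.exp u *
      Complex.exp w) = c * Complex.exp (x + y + u + w) := by
    intro x y u w c
    rw [Complex.exp_add, Complex.exp_add, Complex.exp_add]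
    ring
  rw [h4]
  congr 2
  push_cast
  ring

/-- the places with `y ≤ N v < x` -/
noncomputable def FY (K : Type) [Field K] [NumberField K] (y : ℝ) (x : ℕ) :
    Finset (HeightOneSpectrum (𝓞 K)) := by
  classical
  exact (FV nm hfin x).filter fun v => y ≤ nm v

lemma mem_FY {y : ℝ} {x : ℕ} {v : HeightOneSpectrum (𝓞 K)} :
    v ∈ FY K y x ↔ nm v < x ∧ y ≤ nm v := by
  unfold FY
  rw [mem_filter, mem_FV]

/-- the coefficients on the primes, damped by `p^(-η)` -/
noncomputable def cf (R : Type*) [CommRing R] (P Q : R) (η : ℝ) (p : ℕ) : ℂ :=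
  homCoef R P Q p / p * Complex.exp (-(η : ℂ) * Real.log p)

lemma norm_damp (η : ℝ) (hη : 0 ≤ η) {n : ℕ} (hn : 1 ≤ n) :
    ‖Complex.exp (-(η : ℂ) * Real.log n)‖ ≤ 1 := by
  rw [norm_exp_z _ hn]
  exact Real.rpow_le_one_of_one_le_of_nonpos (by exact_mod_cast hn) (by simpa using hη)

lemma norm_cf (P Q : 𝓞 K) {η : ℝ} (hη : 0 ≤ η) (p : ℕ) (hp : p.Prime) :
    ‖cf (𝓞 K) P Q η p‖ ≤ 2 * Module.finrank ℚ K / p := by
  unfold cf
  rw [norm_mul, norm_div, Complex.norm_natCast]
  have h1 := homCoef_bound P Q p hp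
  have h2 := norm_damp η hη hp.one_le
  have h3 : (0 : ℝ) < p := by exact_mod_cast hp.pos
  calc ‖homCoef (𝓞 K) P Q p‖ / p * ‖Complex.exp (-(η : ℂ) * Real.log p)‖
      ≤ (2 * Module.finrank ℚ K / p) * 1 :=
        mul_le_mul (div_le_div_of_nonneg_right h1 h3.le) h2 (norm_nonneg _) (by positivity)
    _ = _ := mul_one _

/-- the sum over the places of the integral model -/
theorem place_sum (P Q : 𝓞 K) {y : ℝ} (hy : 1 ≤ y) (x : ℕ) (τ : ℝ) {η : ℝ} (hη : 0 ≤ η) :
    ‖∑ v ∈ FY K y x, Complex.exp (-(η : ℂ) * Real.log (nm v)) * vt nm (an P Q) τ v‖ ≤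
      ‖SS (PR y x) (cf (𝓞 K) P Q η) τ‖ + 2 * (y ^ (-(1 / 4) : ℝ) * (Module.finrank ℚ K * ZZ)) := by
  classical
  rw [← sum_filter_add_sum_filter_not (FY K y x) (fun v => (nm v).Prime)]
  refine (norm_add_le _ _).trans (add_le_add (le_of_eq ?_) ?_)
  · congr 1
    have hmaps : ∀ v ∈ (FY K y x).filter (fun v => (nm v).Prime), nm v ∈ PR y x := by
      intro v hv
      rw [mem_filter, mem_FY] at hv
      rw [mem_PR]
      exact ⟨hv.1.1, hv.2, hv.1.2⟩
    rw [← sum_fiberwise_of_maps_to hmaps]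
    unfold SS
    refine sum_congr rfl fun p hp => ?_
    rw [mem_PR] at hp
    unfold cf
    rw [← grp_an P Q p hp.2.1]
    have h1 : grp (N := (nm : HeightOneSpectrum (𝓞 K) → ℕ)) (an P Q) p =
        ∑ v ∈ ((FY K y x).filter (fun v => (nm v).Prime)).filter (fun v => nm v = p),
          an P Q v := by
      unfold grp
      have := (Pool.Agent.W350.EdgeV.fiber_finite (N := (nm : HeightOneSpectrum (𝓞 K) → ℕ)) hfin p).fintype
      rw [tsum_fintype]
      rw [Finset.sum_subtype (s := ((FY K y x).filter (fun v => (nm v).Prime)).filter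
        (fun v => nm v = p)) (p := fun v => v ∈ (nm : HeightOneSpectrum (𝓞 K) → ℕ) ⁻¹' {p})]
      intro v
      rw [mem_filter, mem_filter, mem_FY]
      constructor
      · exact fun h => h.2
      · intro h
        have h' : nm v = p := h
        rw [h']
        exact ⟨⟨⟨hp.1, hp.2.2⟩, hp.2.1⟩, rfl⟩
    rw [h1, sum_div, sum_mul, sum_mul]
    refine sum_congr rfl fun v hv => ?_
    rw [mem_filter] at hv
    unfold vt
    rw [hv.2]
    ring
  · calc ‖∑ v ∈ (FY K y x).filter (fun v => ¬ (nm v).Prime),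
          Complex.exp (-(η : ℂ) * Real.log (nm v)) * vt nm (an P Q) τ v‖
        ≤ ∑ v ∈ (FY K y x).filter (fun v => ¬ (nm v).Prime),
          2 * (y ^ (-(1 / 4) : ℝ) * ((below v : ℕ) : ℝ) ^ (-(3 / 2) : ℝ)) := by
          refine norm_sum_le_of_le _ fun v hv => ?_
          rw [mem_filter, mem_FY] at hv
          rw [norm_mul, norm_vt]
          have h1 := norm_damp η hη (hN v)
          have h2 := norm_an P Q v
          have h3 := nonprime_le v hv.2 hy hv.1.2
          have h4 := nm_pos v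
          calc ‖Complex.exp (-(η : ℂ) * Real.log (nm v))‖ * (‖an P Q v‖ / nm v)
              ≤ 1 * (2 / nm v) := by gcongr
            _ = 2 * (1 / nm v) := by ring
            _ ≤ _ := mul_le_mul_of_nonneg_left h3 (by norm_num)
      _ = 2 * (y ^ (-(1 / 4) : ℝ) * ∑ v ∈ (FY K y x).filter (fun v => ¬ (nm v).Prime),
            ((below v : ℕ) : ℝ) ^ (-(3 / 2) : ℝ)) := by
          rw [← mul_sum, ← mul_sum]
      _ ≤ _ := by
          refine mul_le_mul_of_nonneg_left (mul_le_mul_of_nonneg_left (sum_below _) ?_)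
            (by norm_num)
          positivity

open Classical in
/-- the sum of the logarithms of the local factors -/
theorem total_sum {P Q : 𝓞 K} (W : HeightOneSpectrum (𝓞 K) → WeierstrassCurve (𝓞 K))
    (hgood : ∀ v, Good P Q v → trc W v = -csumv P Q v) {M : ℝ}
    (hM : ∀ F : Finset (HeightOneSpectrum (𝓞 K)), (∀ v ∈ F, P ^ 3 - Q ^ 2 ∈ v.asIdeal) →
      (F.card : ℝ) ≤ M) {y : ℝ} (hy : 16 ≤ y) (x : ℕ) (τ : ℝ) {η : ℝ} (hη : 0 ≤ η) :
    ‖∑ v ∈ FY K y x, ((if (6 : 𝓞 K) ∉ v.asIdeal then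
      (trc W v : ℂ) * (nm v : ℂ) ^ (-(((3 / 2 : ℝ) : ℂ) + τ * Complex.I + η)) else 0) +
        rw6 W v (((3 / 2 : ℝ) : ℂ) + τ * Complex.I + η))‖ ≤
      ‖SS (PR y x) (cf (𝓞 K) P Q η) τ‖ + 26 * (y ^ (-(1 / 4) : ℝ) * (Module.finrank ℚ K * ZZ)) +
        2 * M / y := by
  have hy0 : 0 < y := by linarith
  have hre : (3 / 2 : ℝ) ≤ (((3 / 2 : ℝ) : ℂ) + τ * Complex.I + η).re := by
    simp only [Complex.add_re, Complex.ofReal_re, Complex.mul_re, Complex.I_re, mul_zero,
      Complex.ofReal_im, Complex.I_im, mul_one, sub_self, add_zero]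
    linarith
  have h1 : ∀ v, (if (6 : 𝓞 K) ∉ v.asIdeal then
      (trc W v : ℂ) * (nm v : ℂ) ^ (-(((3 / 2 : ℝ) : ℂ) + τ * Complex.I + η)) else 0) =
      Complex.exp (-(η : ℂ) * Real.log (nm v)) * vt nm (an P Q) τ v +
      Complex.exp (-(η : ℂ) * Real.log (nm v)) * vt nm (fun v => bn W v - an P Q v) τ v := by
    intro v
    have h2 : Complex.exp (-(η : ℂ) * Real.log (nm v)) * vt nm (an P Q) τ v +
      Complex.exp (-(η : ℂ) * Real.log (nm v)) * vt nm (fun v => bn W v - an P Q v) τ v =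
      Complex.exp (-(η : ℂ) * Real.log (nm v)) * vt nm (bn W) τ v := by
      unfold vt
      ring
    rw [h2]
    split_ifs with h6
    · unfold vt bn
      rw [if_neg (not_not.2 h6)]
      simp
    · exact (bn_term W h6 τ η).symm
  rw [sum_add_distrib]
  simp_rw [h1]
  rw [sum_add_distrib]
  have h2 := place_sum P Q (by linarith : 1 ≤ y) x τ hη
  have h3 : ‖∑ v ∈ FY K y x, Complex.exp (-(η : ℂ) * Real.log (nm v)) *
      vt nm (fun v => bn W v - an P Q v) τ v‖ ≤ 2 * M / y := by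
    rw [← sum_filter_add_sum_filter_not (FY K y x) (fun v => P ^ 3 - Q ^ 2 ∈ v.asIdeal)]
    have h4 : ∑ v ∈ (FY K y x).filter (fun v => ¬ (P ^ 3 - Q ^ 2 ∈ v.asIdeal)),
        Complex.exp (-(η : ℂ) * Real.log (nm v)) *
          vt nm (fun v => bn W v - an P Q v) τ v = 0 := by
      refine sum_eq_zero fun v hv => ?_
      rw [mem_filter] at hv
      have h5 : bn W v - an P Q v = 0 := by
        unfold bn an
        by_cases h6 : (6 : 𝓞 K) ∉ v.asIdeal
        · have hg : Good P Q v := ⟨h6, hv.2⟩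
          rw [if_pos h6, if_pos hg, hgood v hg]
          push_cast
          ring
        · have hg : ¬ Good P Q v := fun h => h6 h.1
          rw [if_neg h6, if_neg hg, sub_zero]
      unfold vt
      simp only [h5, zero_div, zero_mul, mul_zero]
    rw [h4, add_zero]
    calc ‖∑ v ∈ (FY K y x).filter (fun v => P ^ 3 - Q ^ 2 ∈ v.asIdeal),
          Complex.exp (-(η : ℂ) * Real.log (nm v)) *
            vt nm (fun v => bn W v - an P Q v) τ v‖
        ≤ ∑ v ∈ (FY K y x).filter (fun v => P ^ 3 - Q ^ 2 ∈ v.asIdeal), 2 / y := by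
          refine norm_sum_le_of_le _ fun v hv => ?_
          rw [mem_filter, mem_FY] at hv
          rw [norm_mul, norm_vt]
          have h5 := norm_damp η hη (hN v)
          have h6 : ‖bn W v - an P Q v‖ ≤ 2 := by
            by_cases hg : (6 : 𝓞 K) ∉ v.asIdeal ∧ P ^ 3 - Q ^ 2 ∉ v.asIdeal
            · exact absurd hv.2 hg.2
            · have : an P Q v = 0 := by
                unfold an
                rw [if_neg (show ¬ Good P Q v from hg)]
              rw [this, sub_zero]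
              exact norm_bn W v
          calc ‖Complex.exp (-(η : ℂ) * Real.log (nm v))‖ * (‖bn W v - an P Q v‖ / nm v)
              ≤ 1 * (2 / y) := by
                refine mul_le_mul h5 ?_ (by positivity) (by norm_num)
                exact div_le_div₀ (by norm_num) h6 hy0 hv.1.2
            _ = _ := one_mul _
      _ = (((FY K y x).filter (fun v => P ^ 3 - Q ^ 2 ∈ v.asIdeal)).card : ℝ) * (2 / y) := by
          rw [sum_const, nsmul_eq_mul]
      _ ≤ M * (2 / y) := mul_le_mul_of_nonneg_right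
          (hM _ fun v hv => (mem_filter.1 hv).2) (by positivity)
      _ = _ := by ring
  have h4 : ‖∑ v ∈ FY K y x, rw6 W v (((3 / 2 : ℝ) : ℂ) + τ * Complex.I + η)‖ ≤
      24 * (y ^ (-(1 / 4) : ℝ) * (Module.finrank ℚ K * ZZ)) := by
    calc ‖∑ v ∈ FY K y x, rw6 W v (((3 / 2 : ℝ) : ℂ) + τ * Complex.I + η)‖
        ≤ ∑ v ∈ FY K y x, 24 * (y ^ (-(1 / 4) : ℝ) * ((below v : ℕ) : ℝ) ^ (-(3 / 2) : ℝ)) := by
          refine norm_sum_le_of_le _ fun v hv => ?_
          rw [mem_FY] at hv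
          have hb := below_pos v
          have hpos : 0 ≤ y ^ (-(1 / 4) : ℝ) * ((below v : ℕ) : ℝ) ^ (-(3 / 2) : ℝ) := by
            positivity
          by_cases h6 : (6 : 𝓞 K) ∈ v.asIdeal
          · have h16 : 16 ≤ nm v := by
              have : (16 : ℝ) ≤ nm v := hy.trans hv.2
              exact_mod_cast this
            refine (norm_rw6_six W v h6 h16 hre).2.trans ?_
            have h7 := six_le v h6
            have h8 : (nm v : ℝ) ^ (-(1 / 2) : ℝ) ≤ y ^ (-(1 / 4) : ℝ) :=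
              calc (nm v : ℝ) ^ (-(1 / 2) : ℝ) ≤ y ^ (-(1 / 2) : ℝ) :=
                    Real.rpow_le_rpow_of_nonpos hy0 hv.2 (by norm_num)
                _ ≤ y ^ (-(1 / 4) : ℝ) :=
                    Real.rpow_le_rpow_of_exponent_le (by linarith) (by norm_num)
            have h9 : 0 < y ^ (-(1 / 4) : ℝ) := by positivity
            nlinarith
          · refine (norm_rw6_good W v h6 hre).trans ?_
            have h7 := sq_le v (by linarith : 1 ≤ y) hv.2
            nlinarith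
      _ = 24 * (y ^ (-(1 / 4) : ℝ) * ∑ v ∈ FY K y x, ((below v : ℕ) : ℝ) ^ (-(3 / 2) : ℝ)) := by
          rw [← mul_sum, ← mul_sum]
      _ ≤ _ := by
          refine mul_le_mul_of_nonneg_left (mul_le_mul_of_nonneg_left (sum_below _) ?_)
            (by norm_num)
          positivity
  have h5 := norm_add_le (∑ v ∈ FY K y x, Complex.exp (-(η : ℂ) * Real.log (nm v)) *
      vt nm (an P Q) τ v) (∑ v ∈ FY K y x, Complex.exp (-(η : ℂ) * Real.log (nm v)) *
      vt nm (fun v => bn W v - an P Q v) τ v)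
  refine (norm_add_le _ _).trans ?_
  linarith

/-- the Euler product over the places of norm less than `y` -/
noncomputable def Py (W : HeightOneSpectrum (𝓞 K) → WeierstrassCurve (𝓞 K)) (y : ℝ) (s : ℂ) : ℂ :=
  ∏ v ∈ FV nm hfin ⌈y⌉₊, lf W v s

/-- comparison of the Euler product up to `x` with the Euler product up to `y` -/
theorem ratio {P Q : 𝓞 K} (W : HeightOneSpectrum (𝓞 K) → WeierstrassCurve (𝓞 K))
    (hgood : ∀ v, Good P Q v → trc W v = -csumv P Q v) {M : ℝ}
    (hM : ∀ F : Finset (HeightOneSpectrum (𝓞 K)), (∀ v ∈ F, P ^ 3 - Q ^ 2 ∈ v.asIdeal) →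
      (F.card : ℝ) ≤ M) {y : ℝ} (hy : 16 ≤ y) {x : ℕ} (hx : ⌈y⌉₊ ≤ x) (τ : ℝ) {η : ℝ}
    (hη : 0 ≤ η) {E : ℝ} (hE : E ≤ 1)
    (hE' : ‖SS (PR y x) (cf (𝓞 K) P Q η) τ‖ +
      26 * (y ^ (-(1 / 4) : ℝ) * (Module.finrank ℚ K * ZZ)) + 2 * M / y ≤ E) :
    ‖∏ v ∈ FV nm hfin x, lf W v (((3 / 2 : ℝ) : ℂ) + τ * Complex.I + η) -
      Py W y (((3 / 2 : ℝ) : ℂ) + τ * Complex.I + η)‖ ≤
      2 * E * ‖Py W y (((3 / 2 : ℝ) : ℂ) + τ * Complex.I + η)‖ := by
  classical
  set s : ℂ := ((3 / 2 : ℝ) : ℂ) + τ * Complex.I + η with hs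
  have hre : (3 / 2 : ℝ) ≤ s.re := by
    rw [hs]
    simp only [Complex.add_re, Complex.ofReal_re, Complex.mul_re, Complex.I_re, mul_zero,
      Complex.ofReal_im, Complex.I_im, mul_one, sub_self, add_zero]
    linarith
  have h1 : ∏ v ∈ FV nm hfin x, lf W v s = Py W y s * ∏ v ∈ FY K y x, lf W v s := by
    unfold Py
    rw [← prod_union]
    · refine prod_congr ?_ fun _ _ => rfl
      ext v
      rw [mem_union, mem_FV, mem_FV, mem_FY, Nat.lt_ceil]
      constructor
      · intro h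
        rcases lt_or_ge (nm v : ℝ) y with h2 | h2
        · exact Or.inl h2
        · exact Or.inr ⟨h, h2⟩
      · rintro (h | h)
        · exact lt_of_lt_of_le (Nat.lt_ceil.2 h) hx
        · exact h.1
    · rw [disjoint_left]
      intro v hv hv'
      rw [mem_FV, Nat.lt_ceil] at hv
      rw [mem_FY] at hv'
      linarith [hv'.2]
  have h2 : ∏ v ∈ FY K y x, lf W v s = Complex.exp (∑ v ∈ FY K y x,
      ((if (6 : 𝓞 K) ∉ v.asIdeal then (trc W v : ℂ) * (nm v : ℂ) ^ (-s) else 0) +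
        rw6 W v s)) := by
    rw [Complex.exp_sum]
    refine prod_congr rfl fun v hv => ?_
    refine lf_exp W v fun hw => ?_
    rw [mem_FY] at hv
    have h3 : ‖ww W v s‖ ≤ 1 / 2 := by
      by_cases h6 : (6 : 𝓞 K) ∈ v.asIdeal
      · have h16 : 16 ≤ nm v := by
          have : (16 : ℝ) ≤ nm v := hy.trans hv.2
          exact_mod_cast this
        exact (norm_rw6_six W v h6 h16 hre).1
      · have := (norm_ww_good W v h6 hre).2
        linarith
    rw [hw, norm_one] at h3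
    norm_num at h3
  have h3 := (total_sum W hgood hM hy x τ hη).trans hE'
  rw [← hs] at h3
  rw [h1, h2]
  set Z := ∑ v ∈ FY K y x,
      ((if (6 : 𝓞 K) ∉ v.asIdeal then (trc W v : ℂ) * (nm v : ℂ) ^ (-s) else 0) +
        rw6 W v s)
  have h4 : Py W y s * Complex.exp Z - Py W y s = Py W y s * (Complex.exp Z - 1) := by ring
  rw [h4, norm_mul, mul_comm]
  refine mul_le_mul_of_nonneg_right ?_ (norm_nonneg _)
  refine (Complex.norm_exp_sub_one_le (h3.trans hE)).trans ?_
  linarith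

end Pool.Agent.Y834.EA
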