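import Pool.Agent.Y834.EA.LogL

/-!
# The range of the logarithm of the L-function on the edge
-/

set_option autoImplicit false

namespace Pool.Agent.Y834.EA

open MeasureTheory Filter Topology NumberField IsDedekindDomain Finset
  Pool.Agent.H921R2.TatePole
  Pool.Agent.H341R2 Pool.Agent.H341R2.EC Pool.Agent.W350.Edge Pool.Agent.W350.EdgeV
  Pool.Agent.W350.EdgeNF Pool.Agent.W350.EdgeEC Polynomial

/-- the sum of the absolute values of the normalised traces -/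
noncomputable def MS {K : Type} [Field K] [NumberField K]
    (W : HeightOneSpectrum (𝓞 K) → WeierstrassCurve (𝓞 K)) (x : ℕ) : ℝ :=
  ∑ p ∈ PS x, |av W p|

/-- `w` is the value of the logarithm of the L-function at `3/2 + iτ` -/
def IsLog {K : Type} [Field K] [NumberField K]
    (W : HeightOneSpectrum (𝓞 K) → WeierstrassCurve (𝓞 K)) (τ : ℝ) (w : ℂ) : Prop :=
  Tendsto (fun x : ℕ => ∑ v ∈ FV nm hfin x,
      Complex.log (lf W v (((3 / 2 : ℝ) : ℂ) + τ * Complex.I))) atTop (𝓝 w) ∧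
    ∀ C' : ℝ, Tendsto (fun s : ℂ => ∏' v, lf W v s)
      (𝓝[{s : ℂ | (3 / 2 : ℝ) < s.re ∧
        ‖s - (((3 / 2 : ℝ) : ℂ) + τ * Complex.I)‖ ≤ C' * (s.re - (3 / 2 : ℝ))}]
        (((3 / 2 : ℝ) : ℂ) + τ * Complex.I)) (𝓝 (Complex.exp w))

/-- **Main theorem on the range.** -/
theorem main3 (d : ℕ) (ε : ℝ) (hε : 0 < ε) :
    ∃ δ C : ℝ, 0 < δ ∧ 0 < C ∧ ∀ᶠ T : ℝ in atTop, ∃ X : Set ℝ,
      volume X ≤ ENNReal.ofReal (T ^ ε) ∧
      ∀ (K : Type) [Field K] [NumberField K] (θ : 𝓞 K) (a b : ℤ[X]), Dt d (T ^ δ) θ a b →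
        ∀ W : HeightOneSpectrum (𝓞 K) → WeierstrassCurve (𝓞 K),
          (∀ v, IsMinAt (twist (crv θ a b) 1) v (W v)) →
        (∀ τ : ℝ, |τ| ≤ T → τ ∉ X → ∃ w : ℂ, IsLog W τ w ∧
          ‖w - ∑ p ∈ PS ⌈Real.log T⌉₊, (av W p : ℂ) *
            Complex.exp (-(τ * Real.log p) * Complex.I)‖ ≤ C ∧
          ‖w‖ ≤ MS W ⌈Real.log T⌉₊ + C) ∧
        ∀ w₀ : ℂ, ‖w₀‖ ≤ MS W ⌈Real.log T⌉₊ →
          ENNReal.ofReal (T ^ (1 - ε)) ≤ volume {τ : ℝ | τ ∈ Set.Ioc 0 T ∧ τ ∉ X ∧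
            ∃ w : ℂ, IsLog W τ w ∧ ‖w - w₀‖ ≤ C} := by
  classical
  obtain ⟨C1, hC10, hC1⟩ := mertens_tail
  set e1 : ℝ := min ε 1 / 4 with he1
  have hmin0 : 0 < min ε 1 := lt_min hε one_pos
  have he0 : 0 < e1 := by positivity
  have he4 : 4 * e1 = min ε 1 := by rw [he1]; ring
  have he4' : e1 ≤ 1 / 4 := by
    have := min_le_right ε 1
    linarith
  have heε : 4 * e1 ≤ ε := by
    have := min_le_left ε 1
    linarith
  -- the exceptional set has measure at most `T^e1`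
  set e2 : ℝ := e1 / 4 with he2
  have he20 : 0 < e2 := by positivity
  set A : ℝ := 1 + (2 * (0 + 2) + 2) * 4 / e2 with hAdef
  have hA : 97 ≤ A := by
    have h1 : (2 * (0 + 2) + 2 : ℝ) * 16 ≤ (2 * (0 + 2) + 2) * 4 / e2 := by
      rw [le_div_iff₀ he20]
      nlinarith
    linarith
  set δ : ℝ := e2 / (3 * (d + 1)) with hδdef
  have hδ0 : 0 < δ := by positivity
  have hδ1 : δ ≤ 1 := by
    rw [hδdef, div_le_one (by positivity)]
    have : (0 : ℝ) ≤ d := Nat.cast_nonneg d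
    linarith
  set C2 : ℝ := Real.log (4 * (A + 1)) + C1 with hC2
  have hC20 : 0 ≤ C2 := by
    have : 0 ≤ Real.log (4 * (A + 1)) := Real.log_nonneg (by linarith)
    positivity
  have hZ := ZZ_nonneg
  refine ⟨δ, 3 + 84 * (d * ZZ) + 2 * d + 4 * d * C2, hδ0, by positivity, ?_⟩
  have hpowev : ∀ᶠ T : ℝ in atTop, (3 : ℝ) ^ (3 * (d + 1) + 1) ≤ T ^ (2 * e2) :=
    (tendsto_rpow_atTop (by positivity)).eventually_ge_atTop _
  have hpow2 : ∀ᶠ T : ℝ in atTop, 2 ≤ T ^ e1 :=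
    (tendsto_rpow_atTop he0).eventually_ge_atTop _
  filter_upwards [exc_small (2 * d) e2 (0 + 2) he20 (by norm_num), eventually_ge_atTop 8,
    Real.tendsto_log_atTop.eventually_ge_atTop 2, hpowev,
    EE_small d hδ0.le hδ1 (le_refl (0 : ℝ)) (by linarith : 4 * 0 + 4 ≤ A),
    Real.tendsto_log_atTop.eventually (hC1 A (by linarith)),
    disc_ev (2 * d) (2 * e1) (by positivity) (by positivity) (by linarith), hpow2]
    with T hexc hT8 hL2 hpow hEE hmer hdisc hT2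
  rw [← hAdef] at hexc
  have hT0 : 0 < T := by linarith
  have hL0 : 0 < Real.log T := by linarith
  have hXvol : volume (XX d δ A (0 + 2) T) ≤ ENNReal.ofReal (T ^ e1) := by
    have h1 : volume (XX d δ A (0 + 2) T) ≤ ∑ z ∈ box d (T ^ δ),
        ∑ a ∈ ({-(2 * T), -T, 0} : Finset ℝ), ENNReal.ofReal (T ^ e2) := by
      unfold XX
      refine (measure_union_le _ _).trans ?_
      rw [volume_TT, zero_add]
      refine (measure_biUnion_finset_le _ _).trans (Finset.sum_le_sum fun z _ => ?_)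
      refine (measure_biUnion_finset_le _ _).trans (Finset.sum_le_sum fun a _ => ?_)
      refine hexc (cz d z 0) (fun p hp => ?_) a
      have := norm_cz d z le_rfl p hp
      simpa using this
    refine h1.trans ?_
    rw [Finset.sum_const, Finset.sum_const, nsmul_eq_mul, nsmul_eq_mul,
      ← ENNReal.ofReal_natCast, ← ENNReal.ofReal_natCast,
      ← ENNReal.ofReal_mul (Nat.cast_nonneg _), ← ENNReal.ofReal_mul (Nat.cast_nonneg _)]
    refine ENNReal.ofReal_le_ofReal ?_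
    have hH1 : 1 ≤ T ^ δ := Real.one_le_rpow (by linarith) hδ0.le
    have h2 := card_box d hH1
    have h3 : ((({-(2 * T), -T, 0} : Finset ℝ).card : ℕ) : ℝ) ≤ 3 := by
      exact_mod_cast Finset.card_le_three
    have h4 : (3 * T ^ δ) ^ (3 * (d + 1)) = 3 ^ (3 * (d + 1)) * T ^ e2 := by
      rw [mul_pow, ← Real.rpow_natCast (T ^ δ), ← Real.rpow_mul hT0.le]
      congr 2
      rw [hδdef]
      push_cast
      field_simp
    rw [h4] at h2
    have h5 : 0 < T ^ e2 := by positivity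
    calc ((box d (T ^ δ)).card : ℝ) * (((({-(2 * T), -T, 0} : Finset ℝ).card : ℕ) : ℝ) * T ^ e2)
        ≤ (3 ^ (3 * (d + 1)) * T ^ e2) * (3 * T ^ e2) := by gcongr
      _ = 3 ^ (3 * (d + 1) + 1) * (T ^ e2 * T ^ e2) := by rw [pow_succ]; ring
      _ ≤ T ^ (2 * e2) * (T ^ e2 * T ^ e2) := by gcongr
      _ = T ^ (4 * e2) := by
          rw [← Real.rpow_add hT0, ← Real.rpow_add hT0]
          congr 1
          ring
      _ = T ^ e1 := by
          congr 1
          rw [he2]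
          ring
  refine ⟨XX d δ A (0 + 2) T, hXvol.trans (ENNReal.ofReal_le_ofReal
    (Real.rpow_le_rpow_of_exponent_le (by linarith) (by linarith))), ?_⟩
  intro K _ _ θ a b hD W hW
  have hn : (Module.finrank ℚ K : ℝ) ≤ d := by exact_mod_cast hD.deg
  set n : ℝ := (Module.finrank ℚ K : ℝ) with hndef
  have hn0 : 0 ≤ n := Nat.cast_nonneg _
  set y : ℝ := Real.log T ^ A with hy
  have hy16 : (16 : ℝ) ≤ y := by
    calc (16 : ℝ) = 2 ^ (4 : ℝ) := by norm_num
      _ ≤ Real.log T ^ (4 : ℝ) := Real.rpow_le_rpow (by norm_num) hL2 (by norm_num)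
      _ ≤ _ := Real.rpow_le_rpow_of_exponent_le (by linarith) (by linarith)
  set SP : ℕ → ℝ → ℂ := fun x τ => ∑ p ∈ PS x, (av W p : ℂ) *
            Complex.exp (-(τ * Real.log p) * Complex.I) with hSP
  -- the value is close to the sum over the primes below `y`
  have hval : ∀ τ : ℝ, |τ| ≤ T → τ ∉ XX d δ A (0 + 2) T → ∃ w : ℂ, IsLog W τ w ∧
      ‖w - SP ⌈y⌉₊ τ‖ ≤ 1 + 84 * (d * ZZ) := by
    intro τ hτT hτX
    unfold XX at hτX
    rw [Set.mem_union, not_or] at hτX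
    obtain ⟨l, hl0, hl1, hl2⟩ := universal (crv θ a b) (crv_elliptic hD) W hW τ hτX.1
    obtain ⟨w, hw⟩ := log_limit hD.ne W hW τ hτX.1
    obtain ⟨u, hu, hτu⟩ : ∃ u ∈ ({-(2 * T), -T, 0} : Finset ℝ), τ ∈ Set.Ioc u (u + T) := by
      obtain ⟨h1, h2⟩ := abs_le.1 hτT
      rcases le_or_gt τ (-T) with h3 | h3
      · exact ⟨-(2 * T), by simp, by linarith, by linarith⟩
      · rcases le_or_gt τ 0 with h4 | h4
        · exact ⟨-T, by simp, h3, by linarith⟩
        · exact ⟨0, by simp, h4, by linarith⟩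
    set z := ix d (minpoly ℤ θ) a b with hz'
    have hzbox : z ∈ box d (T ^ δ) := ix_mem hD.hθ hD.hA hD.hB
    have hmatch := match_ix hD.gen hD.deg hD.dA hD.dB
    have hcz : cz d z 0 = cf (𝓞 K) (PP θ a) (QQ θ b) 0 := by
      funext p
      unfold cz cf
      rw [hz_eq hmatch]
    have hexcτ : τ ∉ Exc A (0 + 2) T (cz d z 0) u := by
      intro h
      apply hτX.2
      rw [Set.mem_iUnion₂]
      refine ⟨z, hzbox, ?_⟩
      rw [Set.mem_iUnion₂]
      exact ⟨u, hu, h⟩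
    have hpart := partial_bound (A := A) (B := 0 + 2) hT8 hL2 (cz d z 0) hτu hexcτ
    rw [hcz] at hpart
    set s0 : ℂ := ((3 / 2 : ℝ) : ℂ) + τ * Complex.I with hs0
    have hre : (3 / 2 : ℝ) ≤ s0.re := by
      rw [hs0]
      simp
    have hlw : l = Complex.exp w := by
      refine tendsto_nhds_unique hl1 ?_
      refine ((Complex.continuous_exp.tendsto w).comp hw).congr fun x => ?_
      simp only [Function.comp_apply]
      rw [Complex.exp_sum]
      exact prod_congr rfl fun v _ => Complex.exp_log (lf_ne_zero W v hre)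
    refine ⟨w, ⟨hw, ?_⟩, ?_⟩
    · rw [← hlw]
      exact hl2
    · have hK1 : 1 ≤ K0 T := by
        unfold K0
        exact Nat.one_le_ceil_iff.2 (by positivity)
      have hxe := tendsto_xe hT0 hK1
      have hclose : ‖w - ∑ v ∈ FV nm hfin ⌈y⌉₊, Complex.log (lf W v s0)‖ ≤ 1 := by
        have h1 : Tendsto (fun i => ‖∑ v ∈ FV nm hfin (xe T i), Complex.log (lf W v s0) -
            ∑ v ∈ FV nm hfin ⌈y⌉₊, Complex.log (lf W v s0)‖) atTop
            (𝓝 ‖w - ∑ v ∈ FV nm hfin ⌈y⌉₊, Complex.log (lf W v s0)‖) :=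
          ((hw.comp hxe).sub_const _).norm
        refine le_of_tendsto h1 ?_
        filter_upwards [hxe.eventually_ge_atTop ⌈y⌉₊] with i hi
        have h2 := total_sum W (good_trc hW) (hD.count) hy16 (xe T i) τ (le_refl (0 : ℝ))
        rw [Complex.ofReal_zero, add_zero, ← hs0] at h2
        have h3 : ∑ v ∈ FV nm hfin (xe T i), Complex.log (lf W v s0) -
            ∑ v ∈ FV nm hfin ⌈y⌉₊, Complex.log (lf W v s0) =
            ∑ v ∈ FY K y (xe T i), ((if (6 : 𝓞 K) ∉ v.asIdeal then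
              (trc W v : ℂ) * (nm v : ℂ) ^ (-s0) else 0) + rw6 W v s0) := by
          have h4 : FV nm hfin (xe T i) = FV nm hfin ⌈y⌉₊ ∪ FY K y (xe T i) := by
            ext v
            rw [mem_union, mem_FV, mem_FV, mem_FY, Nat.lt_ceil]
            constructor
            · intro h
              rcases lt_or_ge (nm v : ℝ) y with h5 | h5
              · exact Or.inl h5
              · exact Or.inr ⟨h, h5⟩
            · rintro (h | h)
              · exact lt_of_lt_of_le (Nat.lt_ceil.2 h) hi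
              · exact h.1
          have h5 : Disjoint (FV nm hfin ⌈y⌉₊) (FY K y (xe T i)) := by
            rw [disjoint_left]
            intro v hv hv'
            rw [mem_FV, Nat.lt_ceil] at hv
            rw [mem_FY] at hv'
            linarith [hv'.2]
          rw [h4, sum_union h5, add_sub_cancel_left]
          exact sum_congr rfl fun v _ => log_lf W v hre
        rw [h3]
        refine h2.trans ?_
        have h4 := hpart i
        rw [← hy] at h4
        have h5 : 0 ≤ y ^ (-(1 / 4) : ℝ) := by positivity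
        have h6 : y ^ (-(1 / 4) : ℝ) * (Module.finrank ℚ K * ZZ) ≤
            y ^ (-(1 / 4) : ℝ) * (d * ZZ) := by gcongr
        have h7 : Real.log T ^ (-(0 : ℝ)) = 1 := by rw [neg_zero, Real.rpow_zero]
        rw [h7] at hEE
        unfold EE at hEE
        rw [← hy] at hEE
        refine (add_le_add (add_le_add h4 (mul_le_mul_of_nonneg_left h6 (by norm_num)))
          le_rfl).trans ?_
        exact hEE.trans (by norm_num)
      have h8 := log_short W ⌈y⌉₊ τ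
      rw [← hs0] at h8
      have h9 : (84 : ℝ) * (Module.finrank ℚ K * ZZ) ≤ 84 * (d * ZZ) := by gcongr
      calc ‖w - SP ⌈y⌉₊ τ‖ = ‖(w - ∑ v ∈ FV nm hfin ⌈y⌉₊, Complex.log (lf W v s0)) +
            (∑ v ∈ FV nm hfin ⌈y⌉₊, Complex.log (lf W v s0) - SP ⌈y⌉₊ τ)‖ := by
            congr 1
            ring
        _ ≤ 1 + 84 * (d * ZZ) := (norm_add_le _ _).trans (add_le_add hclose (h8.trans h9))
  -- the terms are small
  have hterm : ∀ τ : ℝ, ∀ p, ‖(av W p : ℂ) * Complex.exp (-(τ * Real.log p) * Complex.I)‖ =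
      |av W p| := by
    intro τ p
    have h1 : -((τ : ℂ) * (Real.log p : ℂ)) * Complex.I =
        ((-(τ * Real.log p) : ℝ) : ℂ) * Complex.I := by
      push_cast
      ring
    rw [norm_mul, h1, Complex.norm_exp_ofReal_mul_I, mul_one, Complex.norm_real,
      Real.norm_eq_abs]
  have hav : ∀ p : ℕ, p.Prime → ‖(av W p : ℂ)‖ ≤ 2 * d / p := by
    intro p hp
    refine (norm_av W p hp).trans ?_
    have : (0 : ℝ) < p := by exact_mod_cast hp.pos
    gcongr
  -- the tail of the absolute values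
  have htail : ∀ η : ℝ, 0 ≤ η → η ≤ 1 / 2 →
      ∑ p ∈ PS ⌈y⌉₊ \ PS ⌈Real.log T ^ (1 - η)⌉₊, |av W p| ≤ 2 * d * C2 := by
    intro η h1 h2
    calc ∑ p ∈ PS ⌈y⌉₊ \ PS ⌈Real.log T ^ (1 - η)⌉₊, |av W p|
        ≤ ∑ p ∈ PS ⌈y⌉₊ \ PS ⌈Real.log T ^ (1 - η)⌉₊, 2 * d * (1 / (p : ℝ)) := by
          refine sum_le_sum fun p hp => ?_
          have h3 := hav p (mem_PS.1 (Finset.mem_sdiff.1 hp).1).2
          rw [Complex.norm_real, Real.norm_eq_abs] at h3
          refine h3.trans (le_of_eq ?_)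
          ring
      _ = 2 * d * ∑ p ∈ PS ⌈y⌉₊ \ PS ⌈Real.log T ^ (1 - η)⌉₊, (1 : ℝ) / p := by
          rw [mul_sum]
      _ ≤ 2 * d * C2 := mul_le_mul_of_nonneg_left (hmer η h1 h2) (by positivity)
  have hle : ∀ η : ℝ, 0 ≤ η → η ≤ 1 / 2 → PS ⌈Real.log T ^ (1 - η)⌉₊ ⊆ PS ⌈y⌉₊ := by
    intro η h1 h2 p hp
    rw [mem_PS] at hp ⊢
    refine ⟨lt_of_lt_of_le hp.1 (Nat.ceil_mono ?_), hp.2⟩
    exact Real.rpow_le_rpow_of_exponent_le (by linarith) (by linarith)
  have hdiff : ∀ τ η : ℝ, 0 ≤ η → η ≤ 1 / 2 →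
      ‖SP ⌈y⌉₊ τ - SP ⌈Real.log T ^ (1 - η)⌉₊ τ‖ ≤ 2 * d * C2 := by
    intro τ η h1 h2
    have h3 : SP ⌈y⌉₊ τ - SP ⌈Real.log T ^ (1 - η)⌉₊ τ =
        ∑ p ∈ PS ⌈y⌉₊ \ PS ⌈Real.log T ^ (1 - η)⌉₊, (av W p : ℂ) *
            Complex.exp (-(τ * Real.log p) * Complex.I) := by
      rw [hSP]
      simp only
      rw [← sum_sdiff (hle η h1 h2)]
      ring
    rw [h3]
    refine (norm_sum_le_of_le _ fun p _ => (hterm τ p).le).trans (htail η h1 h2)
  have hL1 : Real.log T ^ (1 - (0 : ℝ)) = Real.log T := by rw [sub_zero, Real.rpow_one]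
  constructor
  · intro τ hτ hτX
    obtain ⟨w, hw1, hw2⟩ := hval τ hτ hτX
    have h1 := hdiff τ 0 le_rfl (by norm_num)
    rw [hL1] at h1
    have h2 : ‖w - SP ⌈Real.log T⌉₊ τ‖ ≤ 3 + 84 * (d * ZZ) + 2 * d + 4 * d * C2 := by
      calc ‖w - SP ⌈Real.log T⌉₊ τ‖ = ‖(w - SP ⌈y⌉₊ τ) +
            (SP ⌈y⌉₊ τ - SP ⌈Real.log T⌉₊ τ)‖ := by
            congr 1
            ring
        _ ≤ (1 + 84 * (d * ZZ)) + 2 * d * C2 := (norm_add_le _ _).trans (add_le_add hw2 h1)
        _ ≤ _ := by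
            have : 0 ≤ (d : ℝ) * C2 := by positivity
            have : (0 : ℝ) ≤ d := Nat.cast_nonneg d
            linarith
    refine ⟨w, hw1, h2, ?_⟩
    have h3 : ‖SP ⌈Real.log T⌉₊ τ‖ ≤ MS W ⌈Real.log T⌉₊ := by
      unfold MS
      exact norm_sum_le_of_le _ fun p _ => (hterm τ p).le
    calc ‖w‖ = ‖SP ⌈Real.log T⌉₊ τ + (w - SP ⌈Real.log T⌉₊ τ)‖ := by
          congr 1
          ring
      _ ≤ _ := (norm_add_le _ _).trans (add_le_add h3 h2)
  · intro w₀ hw₀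
    have hη1 : (0 : ℝ) ≤ 2 * e1 := by positivity
    have hη2 : 2 * e1 ≤ 1 / 2 := by linarith
    set MF : ℝ := MS W ⌈Real.log T ^ (1 - 2 * e1)⌉₊ with hMF
    set MT : ℝ := MS W ⌈Real.log T⌉₊ with hMT
    have hMF0 : 0 ≤ MF := by
      rw [hMF]
      unfold MS
      exact sum_nonneg fun _ _ => abs_nonneg _
    have hsub1 : PS ⌈Real.log T ^ (1 - 2 * e1)⌉₊ ⊆ PS ⌈Real.log T⌉₊ := by
      intro p hp
      rw [mem_PS] at hp ⊢
      refine ⟨lt_of_lt_of_le hp.1 (Nat.ceil_mono ?_), hp.2⟩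
      calc Real.log T ^ (1 - 2 * e1) ≤ Real.log T ^ (1 : ℝ) :=
            Real.rpow_le_rpow_of_exponent_le (by linarith) (by linarith)
        _ = _ := Real.rpow_one _
    have hMFT : MF ≤ MT := by
      rw [hMF, hMT]
      unfold MS
      exact sum_le_sum_of_subset_of_nonneg hsub1 fun _ _ _ => abs_nonneg _
    have hMTF : MT - MF ≤ 2 * d * C2 := by
      refine le_trans ?_ (htail (2 * e1) hη1 hη2)
      rw [hMT, hMF]
      unfold MS
      rw [← sum_sdiff hsub1, add_sub_cancel_right]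
      refine sum_le_sum_of_subset_of_nonneg (sdiff_subset_sdiff ?_ (Subset.refl _))
        fun _ _ _ => abs_nonneg _
      have := hle 0 le_rfl (by norm_num)
      rwa [hL1] at this
    set w₁ : ℂ := ((MF / MT : ℝ) : ℂ) * w₀ with hw₁
    have hMT0 : 0 ≤ MT := hMF0.trans hMFT
    have hq0 : 0 ≤ MF / MT := by positivity
    have hq1 : MF / MT ≤ 1 := div_le_one_of_le₀ hMFT hMT0
    have hw₁n : ‖w₁‖ ≤ MF := by
      rw [hw₁, norm_mul, Complex.norm_real, Real.norm_of_nonneg hq0]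
      rcases hMT0.eq_or_lt with h | h
      · rw [← h, div_zero, zero_mul]
        exact hMF0
      · calc MF / MT * ‖w₀‖ ≤ MF / MT * MT := mul_le_mul_of_nonneg_left hw₀ hq0
          _ = MF := div_mul_cancel₀ _ h.ne'
    have hw₁d : ‖w₁ - w₀‖ ≤ 2 * d * C2 := by
      have h1 : w₁ - w₀ = -(((1 - MF / MT : ℝ) : ℂ) * w₀) := by
        rw [hw₁]
        push_cast
        ring
      rw [h1, norm_neg, norm_mul, Complex.norm_real, Real.norm_of_nonneg (by linarith)]
      refine le_trans ?_ hMTF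
      rcases hMT0.eq_or_lt with h | h
      · have h2 : ‖w₀‖ ≤ 0 := by rw [h]; exact hw₀
        have h3 : ‖w₀‖ = 0 := le_antisymm h2 (norm_nonneg _)
        rw [h3, mul_zero]
        linarith
      · calc (1 - MF / MT) * ‖w₀‖ ≤ (1 - MF / MT) * MT :=
              mul_le_mul_of_nonneg_left hw₀ (by linarith)
          _ = MT - MF := by field_simp
    have hw₁n' : ‖w₁‖ ≤ ∑ p ∈ PS ⌈Real.log T ^ (1 - 2 * e1)⌉₊, ‖(av W p : ℂ)‖ := by
      refine hw₁n.trans (le_of_eq ?_)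
      rw [hMF]
      unfold MS
      refine sum_congr rfl fun p _ => ?_
      rw [Complex.norm_real, Real.norm_eq_abs]
    have h1 := hdisc (fun p => (av W p : ℂ)) hav w₁ hw₁n'
    set S : Set ℝ := {τ : ℝ | τ ∈ Set.Ioc 0 T ∧
          ‖∑ p ∈ PS ⌈Real.log T ^ (1 - 2 * e1)⌉₊,
            (av W p : ℂ) * Complex.exp (-(τ * Real.log p) * Complex.I) - w₁‖ ≤ 2 + 2 * d} with hS
    have hsub2 : S \ XX d δ A (0 + 2) T ⊆ {τ : ℝ | τ ∈ Set.Ioc 0 T ∧ τ ∉ XX d δ A (0 + 2) T ∧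
            ∃ w : ℂ, IsLog W τ w ∧ ‖w - w₀‖ ≤ 3 + 84 * (d * ZZ) + 2 * d + 4 * d * C2} := by
      rintro τ ⟨⟨hτ1, hτ2⟩, hτ3⟩
      obtain ⟨w, hw1, hw2⟩ := hval τ (by rw [abs_of_pos hτ1.1]; exact hτ1.2) hτ3
      refine ⟨hτ1, hτ3, w, hw1, ?_⟩
      have h3 := hdiff τ (2 * e1) hη1 hη2
      calc ‖w - w₀‖ = ‖(w - SP ⌈y⌉₊ τ) + (SP ⌈y⌉₊ τ - SP ⌈Real.log T ^ (1 - 2 * e1)⌉₊ τ) +
            (SP ⌈Real.log T ^ (1 - 2 * e1)⌉₊ τ - w₁) + (w₁ - w₀)‖ := by
            congr 1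
            ring
        _ ≤ (1 + 84 * (d * ZZ)) + 2 * d * C2 + (2 + 2 * d) + 2 * d * C2 := by
            refine (norm_add_le _ _).trans (add_le_add ?_ hw₁d)
            refine (norm_add_le _ _).trans (add_le_add ?_ hτ2)
            exact (norm_add_le _ _).trans (add_le_add hw2 h3)
        _ = _ := by ring
    refine le_trans ?_ (measure_mono hsub2)
    refine le_trans ?_ (le_measure_sdiff)
    rw [ENNReal.le_sub_iff_add_le_right (ne_top_of_le_ne_top ENNReal.ofReal_ne_top hXvol)]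
    · refine (add_le_add le_rfl hXvol).trans ?_
      rw [← ENNReal.ofReal_add (by positivity) (by positivity)]
      refine le_trans (ENNReal.ofReal_le_ofReal ?_) h1
      have h2 : T ^ (1 - 2 * e1) = T ^ (1 - 2 * e1 - e1) * T ^ e1 := by
        rw [← Real.rpow_add hT0]
        congr 1
        ring
      have h3 : T ^ (1 - ε) ≤ T ^ (1 - 2 * e1 - e1) :=
        Real.rpow_le_rpow_of_exponent_le (by linarith) (by linarith)
      have h4 : T ^ e1 ≤ T ^ (1 - 2 * e1 - e1) :=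
        Real.rpow_le_rpow_of_exponent_le (by linarith) (by linarith)
      have h5 : 0 < T ^ (1 - 2 * e1 - e1) := by positivity
      rw [h2]
      nlinarith
    · refine hXvol.trans (le_trans (ENNReal.ofReal_le_ofReal ?_) h1)
      exact Real.rpow_le_rpow_of_exponent_le (by linarith) (by linarith)

end Pool.Agent.Y834.EA
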