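import Pool.Agent.W350.Edge2
import Pool.Agent.Helper923.PPS.BT

/-!
# Mean values of Dirichlet polynomials over primes on long intervals
-/

set_option autoImplicit false

namespace Pool.Agent.Y834.EA

open MeasureTheory Finset

/-- The Gaussian mean value at scale `T`. -/
lemma gauss_T {ι : Type*} (F : Finset ι) (c : ι → ℂ) (u : ι → ℝ) {T : ℝ} (hT : 0 < T) (a : ℝ) :
    ∫ τ in a..(a + T), ‖∑ p ∈ F, c p * Complex.exp (-(τ * u p) * Complex.I)‖ ^ 2 ≤
      6 * T * ∑ p ∈ F, ∑ q ∈ F, ‖c p‖ * ‖c q‖ * Real.exp (-(T * u p - T * u q) ^ 2) := by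
  have h1 := intervalIntegral.integral_comp_add_mul (a := 0) (b := 1)
    (fun τ : ℝ => ‖∑ p ∈ F, c p * Complex.exp (-(τ * u p) * Complex.I)‖ ^ 2) hT.ne' a
  simp only [mul_zero, add_zero, mul_one, smul_eq_mul] at h1
  have h2 := Pool.Agent.W350.Edge.gauss_mean F
    (fun p => c p * Complex.exp (-(a * u p) * Complex.I)) (fun p => T * u p)
  have h3 : ∀ p, ‖c p * Complex.exp (-((a : ℂ) * (u p : ℂ)) * Complex.I)‖ = ‖c p‖ := by
    intro p
    rw [norm_mul, Complex.norm_exp]
    simp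
  simp only [h3] at h2
  have h4 : ∫ τ in (0 : ℝ)..1, ‖∑ p ∈ F, c p * Complex.exp (-((a + T * τ : ℝ) * u p) *
      Complex.I)‖ ^ 2 ≤ 6 * ∑ p ∈ F, ∑ q ∈ F, ‖c p‖ * ‖c q‖ *
        Real.exp (-(T * u p - T * u q) ^ 2) := by
    refine le_trans (le_of_eq ?_) h2
    congr 1
    funext τ
    congr 2
    refine sum_congr rfl fun p _ => ?_
    rw [mul_assoc, ← Complex.exp_add]
    congr 2
    push_cast
    ring
  rw [h1] at h4
  have h5 : ∫ τ in a..(a + T), ‖∑ p ∈ F, c p * Complex.exp (-(τ * u p) * Complex.I)‖ ^ 2 =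
      T * (T⁻¹ * ∫ τ in a..(a + T), ‖∑ p ∈ F, c p * Complex.exp (-(τ * u p) *
        Complex.I)‖ ^ 2) := (mul_inv_cancel_left₀ hT.ne' _).symm
  rw [h5, mul_comm 6 T, mul_assoc]
  exact mul_le_mul_of_nonneg_left h4 hT.le

/-- geometric sums -/
lemma geo_row (G : Finset ℕ) (n : ℕ) {δ : ℝ} (hδ : 0 < δ) :
    ∑ m ∈ G, Real.exp (-(δ * |(n : ℝ) - m|)) ≤ 2 * (1 + 1 / δ) := by
  set r : ℝ := Real.exp (-δ) with hr
  have hr0 : 0 < r := Real.exp_pos _
  have hr1 : r < 1 := by
    rw [hr, Real.exp_lt_one_iff]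
    linarith
  have hinv : (1 - r)⁻¹ ≤ 1 + 1 / δ := by
    have h1 : 1 + δ ≤ Real.exp δ := by linarith [Real.add_one_le_exp δ]
    have h2 : r ≤ 1 / (1 + δ) := by
      rw [hr, Real.exp_neg, one_div]
      exact inv_anti₀ (by linarith) h1
    have h3 : δ / (1 + δ) ≤ 1 - r := by
      have : δ / (1 + δ) = 1 - 1 / (1 + δ) := by field_simp; ring
      rw [this]
      linarith
    have h4 : (1 - r)⁻¹ ≤ (δ / (1 + δ))⁻¹ := inv_anti₀ (by positivity) h3
    refine h4.trans (le_of_eq ?_)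
    field_simp
    ring
  have hgeo : ∀ H : Finset ℕ, ∑ k ∈ H, r ^ k ≤ 1 + 1 / δ := by
    intro H
    have h1 : Summable fun k : ℕ => r ^ k := summable_geometric_of_lt_one hr0.le hr1
    refine (h1.sum_le_tsum H fun k _ => by positivity).trans ?_
    rw [tsum_geometric_of_lt_one hr0.le hr1]
    exact hinv
  have hpow : ∀ k : ℕ, Real.exp (-(δ * k)) = r ^ k := by
    intro k
    rw [hr, ← Real.exp_nat_mul]
    congr 1
    ring
  rw [← sum_filter_add_sum_filter_not G (fun m => m ≤ n)]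
  have h2 : ∑ m ∈ G.filter (fun m => m ≤ n), Real.exp (-(δ * |(n : ℝ) - m|)) ≤ 1 + 1 / δ := by
    calc ∑ m ∈ G.filter (fun m => m ≤ n), Real.exp (-(δ * |(n : ℝ) - m|))
        = ∑ m ∈ G.filter (fun m => m ≤ n), r ^ (n - m) := by
          refine sum_congr rfl fun m hm => ?_
          rw [mem_filter] at hm
          have : |(n : ℝ) - m| = ((n - m : ℕ) : ℝ) := by
            rw [Nat.cast_sub hm.2, abs_of_nonneg]
            have : (m : ℝ) ≤ n := by exact_mod_cast hm.2
            linarith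
          rw [this, hpow]
      _ = ∑ k ∈ (G.filter (fun m => m ≤ n)).image (fun m => n - m), r ^ k := by
          rw [sum_image]
          intro x hx y hy hxy
          simp only [coe_filter, Set.mem_ofPred_eq] at hx hy
          simp only at hxy
          omega
      _ ≤ _ := hgeo _
  have h3 : ∑ m ∈ G.filter (fun m => ¬ m ≤ n), Real.exp (-(δ * |(n : ℝ) - m|)) ≤ 1 + 1 / δ := by
    calc ∑ m ∈ G.filter (fun m => ¬ m ≤ n), Real.exp (-(δ * |(n : ℝ) - m|))
        = ∑ m ∈ G.filter (fun m => ¬ m ≤ n), r ^ (m - n) := by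
          refine sum_congr rfl fun m hm => ?_
          rw [mem_filter] at hm
          have hnm : n ≤ m := by omega
          have : |(n : ℝ) - m| = ((m - n : ℕ) : ℝ) := by
            rw [Nat.cast_sub hnm, abs_of_nonpos]
            · ring
            have : (n : ℝ) ≤ m := by exact_mod_cast hnm
            linarith
          rw [this, hpow]
      _ = ∑ k ∈ (G.filter (fun m => ¬ m ≤ n)).image (fun m => m - n), r ^ k := by
          rw [sum_image]
          intro x hx y hy hxy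
          simp only [coe_filter, Set.mem_ofPred_eq] at hx hy
          simp only at hxy
          omega
      _ ≤ _ := hgeo _
  linarith

/-- There are at most `k!` tuples of primes with a given product. -/
lemma card_tuples {F : Finset ℕ} (hF : ∀ p ∈ F, p.Prime) (k m : ℕ) :
    ((Fintype.piFinset fun _ : Fin k => F).filter fun f => ∏ i, f i = m).card ≤ k.factorial := by
  classical
  set S := (Fintype.piFinset fun _ : Fin k => F).filter fun f => ∏ i, f i = m with hS
  have h0 : ∀ f ∈ S, List.ofFn f ∈ m.primeFactorsList.permutations.toFinset := by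
    intro f hf
    rw [hS, mem_filter, Fintype.mem_piFinset] at hf
    rw [List.mem_toFinset, List.mem_permutations]
    refine Nat.primeFactorsList_unique ?_ ?_
    · rw [List.prod_ofFn]
      exact hf.2
    · intro p hp
      rw [List.mem_ofFn] at hp
      obtain ⟨i, rfl⟩ := hp
      exact hF _ (hf.1 i)
  by_cases hne : S.Nonempty
  · obtain ⟨f0, hf0⟩ := hne
    have hlen : m.primeFactorsList.length = k := by
      have h1 := h0 f0 hf0
      rw [List.mem_toFinset, List.mem_permutations] at h1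
      rw [← h1.length_eq, List.length_ofFn]
    calc S.card ≤ m.primeFactorsList.permutations.toFinset.card :=
          card_le_card_of_injOn (fun f => List.ofFn f) (fun f hf => h0 f hf)
            (fun f _ g _ h => List.ofFn_injective h)
      _ ≤ m.primeFactorsList.permutations.length := List.toFinset_card_le _
      _ = k.factorial := by rw [List.length_permutations, hlen]
  · rw [not_nonempty_iff_eq_empty.1 hne]
    simp

lemma log_diff {n m : ℕ} (hn : 1 ≤ n) (hm : 1 ≤ m) {N : ℝ} (hnN : (n : ℝ) ≤ N)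
    (hmN : (m : ℝ) ≤ N) : |(n : ℝ) - m| / N ≤ |Real.log n - Real.log m| := by
  have key : ∀ a b : ℝ, 0 < a → a ≤ b → b ≤ N → (b - a) / N ≤ Real.log b - Real.log a := by
    intro a b ha hab hbN
    have hb : 0 < b := lt_of_lt_of_le ha hab
    rw [← Real.log_div hb.ne' ha.ne']
    have h1 := Real.one_sub_inv_le_log_of_pos (div_pos hb ha)
    refine le_trans ?_ h1
    rw [inv_div]
    have : 1 - a / b = (b - a) / b := by field_simp
    rw [this]
    exact div_le_div_of_nonneg_left (by linarith) hb hbN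
  have hn0 : (0 : ℝ) < n := by exact_mod_cast hn
  have hm0 : (0 : ℝ) < m := by exact_mod_cast hm
  rcases le_total (n : ℝ) m with h | h
  · have h1 := key n m hn0 h hmN
    have h2 : Real.log n ≤ Real.log m := Real.log_le_log hn0 h
    rw [abs_of_nonpos (by linarith), abs_of_nonpos (by linarith)]
    refine le_trans (le_of_eq ?_) (h1.trans (le_of_eq ?_)) <;> ring
  · have h1 := key m n hm0 h hnN
    have h2 : Real.log m ≤ Real.log n := Real.log_le_log hm0 h
    rw [abs_of_nonneg (by linarith), abs_of_nonneg (by linarith)]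
    exact h1

lemma exp_quarter : Real.exp (1 / 4) ≤ 3 / 2 := by
  have h7 : Real.exp (1 / 4) ^ 4 ≤ (3 / 2) ^ 4 := by
    rw [← Real.exp_nat_mul]
    have := Real.exp_one_lt_d9
    norm_num
    linarith
  exact le_of_pow_le_pow_left₀ (by norm_num) (by norm_num) h7

/-- The moments of a Dirichlet polynomial over primes. -/
theorem moment {F : Finset ℕ} (hF : ∀ p ∈ F, p.Prime) {Q : ℝ} (hQ1 : 1 ≤ Q)
    (hQ : ∀ p ∈ F, (p : ℝ) ≤ Q) (c : ℕ → ℂ) (k : ℕ) {T : ℝ} (hT : 0 < T) (a : ℝ) :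
    ∫ τ in a..(a + T), ‖∑ p ∈ F, c p * Complex.exp (-(τ * Real.log p) * Complex.I)‖ ^ (2 * k) ≤
      18 * k.factorial * (T + Q ^ k) * (∑ p ∈ F, ‖c p‖ ^ 2) ^ k := by
  classical
  set PI := Fintype.piFinset fun _ : Fin k => F with hPI
  set cc : (Fin k → ℕ) → ℂ := fun f => ∏ i, c (f i) with hcc
  set nn : (Fin k → ℕ) → ℕ := fun f => ∏ i, f i with hnn
  set N : ℝ := Q ^ k with hN
  have hN0 : 0 < N := by positivity
  have hmem : ∀ f ∈ PI, ∀ i, f i ∈ F := fun f hf i => Fintype.mem_piFinset.1 hf i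
  have hnn1 : ∀ f ∈ PI, 1 ≤ nn f := by
    intro f hf
    exact Nat.one_le_iff_ne_zero.2 (prod_ne_zero_iff.2 fun i _ => (hF _ (hmem f hf i)).ne_zero)
  have hnnN : ∀ f ∈ PI, (nn f : ℝ) ≤ N := by
    intro f hf
    rw [hnn, hN]
    push_cast
    calc ∏ i, (f i : ℝ) ≤ ∏ _i : Fin k, Q :=
          prod_le_prod (fun _ _ => Nat.cast_nonneg _) fun i _ => hQ _ (hmem f hf i)
      _ = Q ^ k := by rw [prod_const, card_univ, Fintype.card_fin]
  have hexp : ∀ τ : ℝ, ‖∑ p ∈ F, c p * Complex.exp (-(τ * Real.log p) * Complex.I)‖ ^ (2 * k) =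
      ‖∑ f ∈ PI, cc f * Complex.exp (-(τ * Real.log (nn f)) * Complex.I)‖ ^ 2 := by
    intro τ
    rw [mul_comm 2 k, pow_mul, ← norm_pow]
    congr 2
    have h1 := prod_univ_sum (fun _ : Fin k => F)
      (fun _ p => c p * Complex.exp (-(τ * Real.log p) * Complex.I))
    rw [prod_const, card_univ, Fintype.card_fin] at h1
    rw [h1]
    refine sum_congr rfl fun f hf => ?_
    rw [prod_mul_distrib, ← Complex.exp_sum]
    congr 2
    have h2 : Real.log (nn f) = ∑ i, Real.log (f i) := by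
      rw [hnn]
      push_cast
      rw [Real.log_prod]
      intro i _
      exact_mod_cast (hF _ (hmem f hf i)).ne_zero
    rw [h2]
    push_cast
    rw [mul_sum, ← sum_neg_distrib, sum_mul]
  simp_rw [hexp]
  refine (gauss_T PI cc (fun f => Real.log (nn f)) hT a).trans ?_
  -- the weight
  set δ : ℝ := T / N with hδ
  have hδ0 : 0 < δ := by positivity
  have hw : ∀ f ∈ PI, ∀ g ∈ PI, Real.exp (-(T * Real.log (nn f) - T * Real.log (nn g)) ^ 2) ≤
      3 / 2 * Real.exp (-(δ * |(nn f : ℝ) - nn g|)) := by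
    intro f hf g hg
    have h1 := log_diff (hnn1 f hf) (hnn1 g hg) (hnnN f hf) (hnnN g hg)
    set x : ℝ := δ * |(nn f : ℝ) - nn g| with hx
    have hx0 : 0 ≤ x := by positivity
    have h2 : x ^ 2 ≤ (T * Real.log (nn f) - T * Real.log (nn g)) ^ 2 := by
      rw [← mul_sub, ← sq_abs (T * _), abs_mul, abs_of_pos hT]
      refine pow_le_pow_left₀ hx0 ?_ 2
      have h3 : x = T * (|(nn f : ℝ) - nn g| / N) := by rw [hx, hδ]; ring
      rw [h3]
      exact mul_le_mul_of_nonneg_left h1 hT.le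
    calc Real.exp (-(T * Real.log (nn f) - T * Real.log (nn g)) ^ 2)
        ≤ Real.exp (1 / 4 + -x) := by
          refine Real.exp_le_exp.2 ?_
          nlinarith [sq_nonneg (x - 1 / 2)]
      _ = Real.exp (1 / 4) * Real.exp (-x) := Real.exp_add _ _
      _ ≤ _ := mul_le_mul_of_nonneg_right exp_quarter (Real.exp_pos _).le
  -- the row sums
  have hrow : ∀ f ∈ PI, ∑ g ∈ PI, Real.exp (-(T * Real.log (nn f) - T * Real.log (nn g)) ^ 2) ≤
      3 * k.factorial * (1 + N / T) := by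
    intro f hf
    calc ∑ g ∈ PI, Real.exp (-(T * Real.log (nn f) - T * Real.log (nn g)) ^ 2)
        ≤ ∑ g ∈ PI, 3 / 2 * Real.exp (-(δ * |(nn f : ℝ) - nn g|)) :=
          sum_le_sum fun g hg => hw f hf g hg
      _ = 3 / 2 * ∑ m ∈ PI.image nn, ∑ g ∈ PI with nn g = m,
            Real.exp (-(δ * |(nn f : ℝ) - nn g|)) := by
          rw [← mul_sum, sum_fiberwise_of_maps_to fun g hg => mem_image_of_mem nn hg]
      _ ≤ 3 / 2 * ∑ m ∈ PI.image nn, (k.factorial : ℝ) *
            Real.exp (-(δ * |(nn f : ℝ) - m|)) := by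
          refine mul_le_mul_of_nonneg_left (sum_le_sum fun m _ => ?_) (by norm_num)
          have h1 : ∑ g ∈ PI with nn g = m, Real.exp (-(δ * |(nn f : ℝ) - nn g|)) =
              ∑ g ∈ PI with nn g = m, Real.exp (-(δ * |(nn f : ℝ) - m|)) :=
            sum_congr rfl fun g hg => by rw [(mem_filter.1 hg).2]
          rw [h1, sum_const, nsmul_eq_mul]
          refine mul_le_mul_of_nonneg_right ?_ (Real.exp_pos _).le
          exact_mod_cast card_tuples hF k m
      _ = 3 / 2 * k.factorial * ∑ m ∈ PI.image nn, Real.exp (-(δ * |(nn f : ℝ) - m|)) := by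
          rw [← mul_sum, mul_assoc]
      _ ≤ 3 / 2 * k.factorial * (2 * (1 + 1 / δ)) :=
          mul_le_mul_of_nonneg_left (geo_row _ _ hδ0) (by positivity)
      _ = _ := by
          rw [hδ]
          field_simp
  have hsq : ∑ f ∈ PI, ‖cc f‖ ^ 2 = (∑ p ∈ F, ‖c p‖ ^ 2) ^ k := by
    have h1 := prod_univ_sum (fun _ : Fin k => F) (fun _ p => ‖c p‖ ^ 2)
    rw [prod_const, card_univ, Fintype.card_fin] at h1
    rw [h1]
    refine sum_congr rfl fun f _ => ?_
    rw [hcc, norm_prod, prod_pow]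
  have hmain : ∑ f ∈ PI, ∑ g ∈ PI, ‖cc f‖ * ‖cc g‖ *
      Real.exp (-(T * Real.log (nn f) - T * Real.log (nn g)) ^ 2) ≤
      3 * k.factorial * (1 + N / T) * (∑ p ∈ F, ‖c p‖ ^ 2) ^ k := by
    set w : (Fin k → ℕ) → (Fin k → ℕ) → ℝ := fun f g =>
      Real.exp (-(T * Real.log (nn f) - T * Real.log (nn g)) ^ 2) with hwdef
    have hwsymm : ∀ f g, w f g = w g f := by
      intro f g
      rw [hwdef]
      simp only
      congr 2
      ring
    have hw0 : ∀ f g, 0 < w f g := fun f g => Real.exp_pos _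
    calc ∑ f ∈ PI, ∑ g ∈ PI, ‖cc f‖ * ‖cc g‖ * w f g
        ≤ ∑ f ∈ PI, ∑ g ∈ PI, (‖cc f‖ ^ 2 / 2 * w f g + ‖cc g‖ ^ 2 / 2 * w g f) := by
          refine sum_le_sum fun f _ => sum_le_sum fun g _ => ?_
          rw [hwsymm g f]
          have h1 := sq_nonneg (‖cc f‖ - ‖cc g‖)
          have h2 := hw0 f g
          nlinarith
      _ = (∑ f ∈ PI, ∑ g ∈ PI, ‖cc f‖ ^ 2 / 2 * w f g) + ∑ f ∈ PI, ∑ g ∈ PI, ‖cc g‖ ^ 2 / 2 * w g f := by
          simp_rw [sum_add_distrib]
      _ = (∑ f ∈ PI, ∑ g ∈ PI, ‖cc f‖ ^ 2 / 2 * w f g) + ∑ g ∈ PI, ∑ f ∈ PI, ‖cc g‖ ^ 2 / 2 * w g f := by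
          congr 1
          exact sum_comm
      _ = ∑ f ∈ PI, ‖cc f‖ ^ 2 * ∑ g ∈ PI, w f g := by
          rw [← sum_add_distrib]
          refine sum_congr rfl fun f _ => ?_
          rw [← sum_add_distrib, mul_sum]
          refine sum_congr rfl fun g _ => ?_
          ring
      _ ≤ ∑ f ∈ PI, ‖cc f‖ ^ 2 * (3 * k.factorial * (1 + N / T)) :=
          sum_le_sum fun f hf => mul_le_mul_of_nonneg_left (hrow f hf) (sq_nonneg _)
      _ = _ := by
          rw [← sum_mul, hsq]
          ring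
  calc 6 * T * ∑ f ∈ PI, ∑ g ∈ PI, ‖cc f‖ * ‖cc g‖ *
        Real.exp (-(T * Real.log (nn f) - T * Real.log (nn g)) ^ 2)
      ≤ 6 * T * (3 * k.factorial * (1 + N / T) * (∑ p ∈ F, ‖c p‖ ^ 2) ^ k) :=
        mul_le_mul_of_nonneg_left hmain (by positivity)
    _ = _ := by
        field_simp
        ring

end Pool.Agent.Y834.EA
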