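import Pool.Agent.Y834.EA.Gauss

/-!
# Large primes: Brun-Titchmarsh at the scale `1/T`
-/

set_option autoImplicit false

namespace Pool.Agent.Y834.EA

open MeasureTheory Finset

/-- the index of a prime at the scale `1/T` -/
noncomputable def gi (T : ℝ) (p : ℕ) : ℕ := ⌊T * Real.log p⌋₊

lemma gi_le {T : ℝ} (hT : 0 < T) {p : ℕ} (hp : 1 ≤ p) : (gi T p : ℝ) ≤ T * Real.log p :=
  Nat.floor_le (mul_nonneg hT.le (Real.log_nonneg (by exact_mod_cast hp)))

lemma lt_gi (T : ℝ) (p : ℕ) : T * Real.log p < gi T p + 1 := Nat.lt_floor_add_one _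

/-- Chebyshev's bound at the scale `1/T`. -/
theorem cheb_T : ∃ C : ℝ, 1 ≤ C ∧ ∀ T : ℝ, 2 ≤ T → ∀ l : ℕ, 2 * T * Real.log T ≤ l →
    ∀ F : Finset ℕ, (∀ p ∈ F, p.Prime ∧ gi T p = l) → ∑ p ∈ F, (1 : ℝ) / p ≤ C / l := by
  obtain ⟨C, hC1, hC⟩ := Pool.Agent.Helper923.PPS.brun_titchmarsh
  refine ⟨8 * C, by linarith, ?_⟩
  intro T hT l hl F hF
  have hT0 : 0 < T := by linarith
  have hlogT : 0 < Real.log T := Real.log_pos (by linarith)
  have hl0 : (0 : ℝ) < l := lt_of_lt_of_le (by positivity) hl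
  set X : ℝ := Real.exp (l / T) with hX
  have hX0 : 0 < X := Real.exp_pos _
  have hXT : T ^ 2 ≤ X := by
    rw [hX, ← Real.log_le_iff_le_exp (by positivity), Real.log_pow, le_div_iff₀ hT0]
    push_cast
    linarith
  have hXT' : T ≤ X / T := by
    rw [le_div_iff₀ hT0]
    nlinarith
  have hbound : ∀ p ∈ F, X ≤ p ∧ (p : ℝ) ≤ X + 2 * X / T := by
    intro p hp
    obtain ⟨hpp, hg⟩ := hF p hp
    have hp0 : (0 : ℝ) < p := by exact_mod_cast hpp.pos
    have h1 := gi_le hT0 hpp.one_le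
    have h2 := lt_gi T p
    rw [hg] at h1 h2
    constructor
    · rw [hX, ← Real.le_log_iff_exp_le hp0, div_le_iff₀ hT0]
      linarith
    · have h3 : Real.log p ≤ l / T + 1 / T := by
        rw [← add_div, le_div_iff₀ hT0]
        linarith
      have h4 : (p : ℝ) ≤ X * Real.exp (1 / T) := by
        rw [hX, ← Real.exp_add]
        exact (Real.log_le_iff_le_exp hp0).1 h3
      have h5 : Real.exp (1 / T) ≤ 1 + 2 / T := by
        have h6 : |1 / T| ≤ 1 := by
          rw [abs_of_pos (by positivity), div_le_one hT0]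
          linarith
        have h7 := (abs_le.1 (Real.abs_exp_sub_one_sub_id_le h6)).2
        have h8 : (1 / T) ^ 2 ≤ 1 / T := by
          have : 1 / T ≤ 1 := by rw [div_le_one hT0]; linarith
          have h9 : 0 < 1 / T := by positivity
          nlinarith
        have h9 : 2 / T = 1 / T + 1 / T := by ring
        rw [h9]
        linarith
      calc (p : ℝ) ≤ X * Real.exp (1 / T) := h4
        _ ≤ X * (1 + 2 / T) := mul_le_mul_of_nonneg_left h5 hX0.le
        _ = _ := by ring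
  set a0 : ℕ := ⌊X⌋₊ with ha0
  set N : ℕ := ⌈3 * X / T⌉₊ + 1 with hN
  have ha0X : (a0 : ℝ) ≤ X := Nat.floor_le hX0.le
  have hXa0 : X < a0 + 1 := Nat.lt_floor_add_one X
  have h3X : 3 * X / T = 3 * (X / T) := by ring
  have hN1 : 3 * (X / T) ≤ N := by
    have := Nat.le_ceil (3 * X / T)
    rw [hN]
    push_cast
    linarith
  have hN2 : (N : ℝ) ≤ 4 * (X / T) := by
    have := Nat.ceil_lt_add_one (show 0 ≤ 3 * X / T by positivity)
    rw [hN]
    push_cast
    linarith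
  have hN3 : 2 ≤ N := by
    have : (2 : ℝ) ≤ N := by linarith
    exact_mod_cast this
  have hcard : (F.card : ℝ) ≤ C * N / Real.log N := by
    refine le_trans ?_ (hC a0 1 N hN3 (Or.inl rfl))
    have : F.card ≤ ((Finset.range N).filter (fun k => (a0 + k * 1).Prime)).card := by
      refine card_le_card_of_injOn (fun p => p - a0) (fun p hp => ?_) (fun p hp q hq h => ?_)
      · obtain ⟨h1, h2⟩ := hbound p hp
        have h3 : a0 ≤ p := by
          have : (a0 : ℝ) ≤ p := ha0X.trans h1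
          exact_mod_cast this
        rw [Finset.mem_coe, mem_filter, mem_range, mul_one, Nat.add_sub_cancel' h3]
        refine ⟨?_, (hF p hp).1⟩
        have h4 : ((p - a0 : ℕ) : ℝ) < N := by
          rw [Nat.cast_sub h3]
          have : 2 * X / T = 2 * (X / T) := by ring
          linarith
        exact_mod_cast h4
      · have h1 : a0 ≤ p := by
          have : (a0 : ℝ) ≤ p := ha0X.trans (hbound p hp).1
          exact_mod_cast this
        have h2 : a0 ≤ q := by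
          have : (a0 : ℝ) ≤ q := ha0X.trans (hbound q hq).1
          exact_mod_cast this
        simp only at h
        omega
    exact_mod_cast this
  have hlogN : l / (2 * T) ≤ Real.log N := by
    have h1 : X / T ≤ N := by linarith [show (0 : ℝ) < X / T by positivity]
    have h2 : Real.log (X / T) ≤ Real.log N := Real.log_le_log (by positivity) h1
    rw [Real.log_div hX0.ne' hT0.ne', hX, Real.log_exp] at h2
    have h3 : Real.log T ≤ l / (2 * T) := by
      rw [le_div_iff₀ (by positivity)]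
      linarith
    have h4 : (l : ℝ) / T = l / (2 * T) + l / (2 * T) := by field_simp; norm_num
    linarith
  have hcard2 : (F.card : ℝ) ≤ 8 * C * X / l := by
    refine hcard.trans ?_
    calc C * N / Real.log N ≤ C * (4 * (X / T)) / (l / (2 * T)) := by
          have h1 : 0 < (l : ℝ) / (2 * T) := by positivity
          gcongr
      _ = _ := by field_simp; ring
  calc ∑ p ∈ F, (1 : ℝ) / p ≤ ∑ _p ∈ F, 1 / X := by
        refine sum_le_sum fun p hp => ?_
        exact one_div_le_one_div_of_le hX0 (hbound p hp).1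
    _ = F.card * (1 / X) := by rw [sum_const, nsmul_eq_mul]
    _ ≤ 8 * C * X / l * (1 / X) := mul_le_mul_of_nonneg_right hcard2 (by positivity)
    _ = _ := by field_simp

lemma kappa_T {x y : ℝ} (hx : 0 ≤ x) (hy : 0 ≤ y) :
    Real.exp (-(x - y) ^ 2) ≤ Real.exp (1 - |((⌊x⌋₊ : ℕ) : ℝ) - (⌊y⌋₊ : ℕ)|) := by
  refine Real.exp_le_exp.2 ?_
  have h1 := Nat.floor_le hx
  have h2 := Nat.lt_floor_add_one x
  have h3 := Nat.floor_le hy
  have h4 := Nat.lt_floor_add_one y
  set Δ := x - y with hΔ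
  have h6 : |((⌊x⌋₊ : ℕ) : ℝ) - (⌊y⌋₊ : ℕ)| < |Δ| + 1 := by
    rw [abs_lt]
    constructor
    · have := neg_abs_le Δ
      linarith
    · have := le_abs_self Δ
      linarith
  by_cases h7 : 1 ≤ |Δ|
  · have h8 : |Δ| ≤ Δ ^ 2 := by rw [← sq_abs]; nlinarith
    linarith
  · have h8 : |((⌊x⌋₊ : ℕ) : ℝ) - (⌊y⌋₊ : ℕ)| < 2 := by linarith
    have h9 : |((⌊x⌋₊ : ℕ) : ℤ) - (⌊y⌋₊ : ℕ)| < 2 := by exact_mod_cast h8
    have h10 : |((⌊x⌋₊ : ℕ) : ℤ) - (⌊y⌋₊ : ℕ)| ≤ 1 := by omega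
    have h11 : |((⌊x⌋₊ : ℕ) : ℝ) - (⌊y⌋₊ : ℕ)| ≤ 1 := by exact_mod_cast h10
    nlinarith [sq_nonneg Δ]

lemma sum_T {C T : ℝ} (hT : 2 ≤ T)
    (hC : ∀ l : ℕ, 2 * T * Real.log T ≤ l →
      ∀ F : Finset ℕ, (∀ p ∈ F, p.Prime ∧ gi T p = l) → ∑ p ∈ F, (1 : ℝ) / p ≤ C / l)
    (hC0 : 0 < C) {F : Finset ℕ} {K L : ℕ} (hK : 2 * T * Real.log T ≤ K)
    (hF : ∀ p ∈ F, p.Prime ∧ K ≤ gi T p ∧ gi T p < K + L) (g : ℕ → ℝ) (hg : ∀ l, 0 ≤ g l) :
    ∑ p ∈ F, (1 : ℝ) / p * g (gi T p) ≤ C / K * ∑ l ∈ Ico K (K + L), g l := by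
  have hK0 : (0 : ℝ) < K := lt_of_lt_of_le
    (mul_pos (by linarith) (Real.log_pos (by linarith))) hK
  have hmaps : ∀ p ∈ F, gi T p ∈ Ico K (K + L) := fun p hp => mem_Ico.2 (hF p hp).2
  rw [← sum_fiberwise_of_maps_to hmaps, mul_sum]
  refine sum_le_sum fun l hl => ?_
  have hKl : (K : ℝ) ≤ l := by exact_mod_cast (mem_Ico.1 hl).1
  have h1 : ∑ p ∈ F with gi T p = l, (1 : ℝ) / p * g (gi T p) =
      (∑ p ∈ F with gi T p = l, (1 : ℝ) / p) * g l := by
    rw [sum_mul]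
    refine sum_congr rfl fun p hp => ?_
    rw [(mem_filter.1 hp).2]
  rw [h1]
  refine mul_le_mul_of_nonneg_right ?_ (hg l)
  refine (hC l (hK.trans hKl) _ fun p hp => ?_).trans ?_
  · rw [mem_filter] at hp
    exact ⟨(hF p hp.1).1, hp.2⟩
  · exact div_le_div_of_nonneg_left hC0.le hK0 hKl

/-- The mean square of a block of large primes. -/
theorem high_mean {C T : ℝ} (hT : 2 ≤ T)
    (hC : ∀ l : ℕ, 2 * T * Real.log T ≤ l →
      ∀ F : Finset ℕ, (∀ p ∈ F, p.Prime ∧ gi T p = l) → ∑ p ∈ F, (1 : ℝ) / p ≤ C / l)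
    (hC0 : 0 < C) {F : Finset ℕ} {K L : ℕ} (hK : 2 * T * Real.log T ≤ K)
    (hF : ∀ p ∈ F, p.Prime ∧ K ≤ gi T p ∧ gi T p < K + L) (c : ℕ → ℂ) (D : ℝ) (hD : 0 ≤ D)
    (hc : ∀ p ∈ F, ‖c p‖ ≤ D / p) (a : ℝ) :
    ∫ τ in a..(a + T), ‖∑ p ∈ F, c p * Complex.exp (-(τ * Real.log p) * Complex.I)‖ ^ 2 ≤
      72 * C ^ 2 * D ^ 2 * T * L / K ^ 2 := by
  have hT0 : 0 < T := by linarith
  have hK0 : (0 : ℝ) < K := lt_of_lt_of_le
    (mul_pos (by linarith) (Real.log_pos (by linarith))) hK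
  refine (gauss_T F c (fun p => Real.log p) hT0 a).trans ?_
  have h1 : ∑ p ∈ F, ∑ q ∈ F, ‖c p‖ * ‖c q‖ *
      Real.exp (-(T * Real.log p - T * Real.log q) ^ 2) ≤
      D ^ 2 * (C / K * (C / K * 12 * L)) := by
    calc ∑ p ∈ F, ∑ q ∈ F, ‖c p‖ * ‖c q‖ *
          Real.exp (-(T * Real.log p - T * Real.log q) ^ 2)
        ≤ ∑ p ∈ F, ∑ q ∈ F, (D / p) * (D / q) * Real.exp (1 - |(gi T p : ℝ) - gi T q|) := by
          refine sum_le_sum fun p hp => sum_le_sum fun q hq => ?_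
          have hp1 : (1 : ℝ) ≤ p := by exact_mod_cast (hF p hp).1.one_le
          have hq1 : (1 : ℝ) ≤ q := by exact_mod_cast (hF q hq).1.one_le
          have h2 := kappa_T (mul_nonneg hT0.le (Real.log_nonneg hp1))
            (mul_nonneg hT0.le (Real.log_nonneg hq1))
          have h3 := hc p hp
          have h4 := hc q hq
          have h5 : 0 ≤ D / (p : ℝ) := by positivity
          exact mul_le_mul (mul_le_mul h3 h4 (norm_nonneg _) h5) h2 (Real.exp_pos _).le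
            (by positivity)
      _ = D ^ 2 * ∑ p ∈ F, (1 : ℝ) / p * ∑ q ∈ F, (1 : ℝ) / q *
            Real.exp (1 - |(gi T p : ℝ) - gi T q|) := by
          simp_rw [mul_sum]
          refine sum_congr rfl fun p _ => sum_congr rfl fun q _ => ?_
          ring
      _ ≤ D ^ 2 * (C / K * (C / K * 12 * L)) := by
          refine mul_le_mul_of_nonneg_left ?_ (sq_nonneg D)
          have h6 : ∑ p ∈ F, (1 : ℝ) / p * ∑ q ∈ F, (1 : ℝ) / q *
              Real.exp (1 - |(gi T p : ℝ) - gi T q|) ≤ ∑ p ∈ F, (1 : ℝ) / p * (C / K * 12) := by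
            refine sum_le_sum fun p _ => mul_le_mul_of_nonneg_left ?_ (by positivity)
            refine (sum_T hT hC hC0 hK hF (fun l => Real.exp (1 - |(gi T p : ℝ) - l|))
              (fun _ => (Real.exp_pos _).le)).trans ?_
            exact mul_le_mul_of_nonneg_left (Pool.Agent.W350.Edge.schur_row _ _)
              (div_pos hC0 hK0).le
          refine h6.trans ?_
          rw [← sum_mul]
          have h7 := sum_T hT hC hC0 hK hF (fun _ => 1) (fun _ => zero_le_one)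
          simp only [mul_one, sum_const, Nat.card_Ico, add_tsub_cancel_left, nsmul_eq_mul] at h7
          have h8 : 0 < C / K := div_pos hC0 hK0
          nlinarith
  calc 6 * T * ∑ p ∈ F, ∑ q ∈ F, ‖c p‖ * ‖c q‖ *
          Real.exp (-(T * Real.log p - T * Real.log q) ^ 2)
      ≤ 6 * T * (D ^ 2 * (C / K * (C / K * 12 * L))) :=
        mul_le_mul_of_nonneg_left h1 (by positivity)
    _ = _ := by
        field_simp
        ring

/-! ### measures -/

/-- the exponential sum -/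
noncomputable def SS (F : Finset ℕ) (c : ℕ → ℂ) (τ : ℝ) : ℂ :=
  ∑ p ∈ F, c p * Complex.exp (-(τ * Real.log p) * Complex.I)

lemma continuous_SS (F : Finset ℕ) (c : ℕ → ℂ) : Continuous (SS F c) := by
  unfold SS
  fun_prop

/-- Markov's inequality. -/
lemma markov (F : Finset ℕ) (c : ℕ → ℂ) (k : ℕ) {T lam M : ℝ} (hT : 0 < T) (hlam : 0 < lam)
    (a : ℝ) (hM : ∫ τ in a..(a + T), ‖SS F c τ‖ ^ k ≤ M) :
    volume {τ | τ ∈ Set.Ioc a (a + T) ∧ lam ≤ ‖SS F c τ‖} ≤ ENNReal.ofReal (M / lam ^ k) := by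
  have hcont : Continuous fun τ => ‖SS F c τ‖ ^ k := (continuous_SS F c).norm.pow k
  rw [intervalIntegral.integral_of_le (by linarith)] at hM
  have h1 := mul_meas_ge_le_integral_of_nonneg (μ := volume.restrict (Set.Ioc a (a + T)))
    (f := fun τ => ‖SS F c τ‖ ^ k) (ae_of_all _ fun τ => by positivity)
    (hcont.integrableOn_Icc.mono_set Set.Ioc_subset_Icc_self) (lam ^ k)
  have hs : {τ | τ ∈ Set.Ioc a (a + T) ∧ lam ≤ ‖SS F c τ‖} ⊆
      {τ | lam ^ k ≤ ‖SS F c τ‖ ^ k} ∩ Set.Ioc a (a + T) := by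
    rintro τ ⟨h2, h3⟩
    exact ⟨pow_le_pow_left₀ hlam.le h3 k, h2⟩
  have hmeas : MeasurableSet {τ | lam ^ k ≤ ‖SS F c τ‖ ^ k} :=
    (isClosed_le continuous_const hcont).measurableSet
  refine (measure_mono hs).trans ?_
  rw [← Measure.restrict_apply hmeas]
  have hfin : volume.restrict (Set.Ioc a (a + T)) {τ | lam ^ k ≤ ‖SS F c τ‖ ^ k} ≠ ⊤ :=
    measure_ne_top _ _
  rw [← ENNReal.ofReal_toReal hfin]
  refine ENNReal.ofReal_le_ofReal ?_
  rw [le_div_iff₀ (by positivity), mul_comm]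
  exact h1.trans hM

end Pool.Agent.Y834.EA
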