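import Pool.Agent.Y834.EA.Size

/-!
# Heights and the finite set of data
-/

set_option autoImplicit false

namespace Pool.Agent.Y834.EA

open Filter Topology NumberField IsDedekindDomain Finset Pool.Agent.H921R2.TatePole
  Pool.Agent.H341R2 Pool.Agent.H341R2.EC Pool.Agent.W350.Edge Pool.Agent.W350.EdgeV
  Pool.Agent.W350.EdgeNF Pool.Agent.W350.EdgeEC Polynomial

/-! ### heights -/

lemma root_bound {f : ℤ[X]} (hf : f.Monic) {H : ℝ} (hH : ∀ i, |(f.coeff i : ℝ)| ≤ H) {z : ℂ}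
    (hz : f.eval₂ (Int.castRingHom ℂ) z = 0) : ‖z‖ ≤ 1 + H := by
  have hH0 : 0 ≤ H := (abs_nonneg _).trans (hH 0)
  set p : ℂ[X] := f.map (Int.castRingHom ℂ) with hp
  have hpm : p.Monic := hf.map _
  have hr : p.IsRoot z := by
    rw [IsRoot.def, hp, eval_map]
    exact hz
  have h1 := hr.norm_lt_cauchyBound hpm.ne_zero
  have h2 : cauchyBound p ≤ 1 + ⟨H, hH0⟩ := by
    unfold cauchyBound
    rw [hpm.leadingCoeff, nnnorm_one, div_one, add_comm]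
    refine add_le_add le_rfl (Finset.sup_le fun i _ => ?_)
    rw [← NNReal.coe_le_coe, coe_nnnorm, hp, coeff_map]
    show ‖((f.coeff i : ℤ) : ℂ)‖ ≤ H
    rw [Complex.norm_intCast]
    exact hH i
  have h3 : ‖z‖₊ ≤ 1 + ⟨H, hH0⟩ := h1.le.trans h2
  rw [← NNReal.coe_le_coe] at h3
  have h4 : ((1 + ⟨H, hH0⟩ : NNReal) : ℝ) = 1 + H := by
    rw [NNReal.coe_add]
    rfl
  rw [h4] at h3
  exact h3

lemma eval_bound {A : ℤ[X]} {d : ℕ} (hd : A.natDegree ≤ d) {H : ℝ}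
    (hH : ∀ i, |(A.coeff i : ℝ)| ≤ H) {z : ℂ} (hz : ‖z‖ ≤ 1 + H) :
    ‖A.eval₂ (Int.castRingHom ℂ) z‖ ≤ (d + 1) * (1 + H) ^ (d + 1) := by
  have hH0 : 0 ≤ H := (abs_nonneg _).trans (hH 0)
  rw [eval₂_eq_sum_range' _ (Nat.lt_succ_of_le hd)]
  calc ‖∑ i ∈ range (d + 1), (Int.castRingHom ℂ) (A.coeff i) * z ^ i‖
      ≤ ∑ i ∈ range (d + 1), (1 + H) ^ (d + 1) := by
        refine norm_sum_le_of_le _ fun i hi => ?_
        rw [norm_mul, norm_pow]
        have h1 : ‖(Int.castRingHom ℂ) (A.coeff i)‖ ≤ 1 + H := by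
          show ‖((A.coeff i : ℤ) : ℂ)‖ ≤ 1 + H
          rw [Complex.norm_intCast]
          linarith [hH i]
        have h2 : ‖z‖ ^ i ≤ (1 + H) ^ d :=
          (pow_le_pow_left₀ (norm_nonneg _) hz i).trans
            (pow_le_pow_right₀ (by linarith) (by have := mem_range.1 hi; omega))
        calc ‖(Int.castRingHom ℂ) (A.coeff i)‖ * ‖z‖ ^ i ≤ (1 + H) * (1 + H) ^ d :=
              mul_le_mul h1 h2 (by positivity) (by positivity)
          _ = _ := by ring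
    _ = _ := by
        rw [sum_const, card_range, nsmul_eq_mul]
        push_cast
        ring

section
variable {K : Type} [Field K] [NumberField K]

/-- the integer `c₄` of `y² = x³ + a x + b` -/
noncomputable def PP (θ : 𝓞 K) (A : ℤ[X]) : 𝓞 K := -48 * aeval θ A

/-- the integer `c₆` of `y² = x³ + a x + b` -/
noncomputable def QQ (θ : 𝓞 K) (B : ℤ[X]) : 𝓞 K := -864 * aeval θ B

lemma emb_aeval (σ : K →+* ℂ) (θ : 𝓞 K) (A : ℤ[X]) :
    σ ((aeval θ A : 𝓞 K) : K) = A.eval₂ (Int.castRingHom ℂ) (σ (θ : K)) := by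
  have h1 := Polynomial.hom_eval₂ A (algebraMap ℤ (𝓞 K)) (σ.comp (algebraMap (𝓞 K) K)) θ
  rw [aeval_def]
  have h2 : (σ.comp (algebraMap (𝓞 K) K)).comp (algebraMap ℤ (𝓞 K)) = Int.castRingHom ℂ :=
    RingHom.ext_int _ _
  rw [h2] at h1
  exact h1

lemma emb_bound {θ : 𝓞 K} {d : ℕ} {H : ℝ} (hθ : ∀ i, |((minpoly ℤ θ).coeff i : ℝ)| ≤ H)
    {A : ℤ[X]} (hd : A.natDegree ≤ d) (hA : ∀ i, |(A.coeff i : ℝ)| ≤ H) (σ : K →+* ℂ) :
    ‖σ ((aeval θ A : 𝓞 K) : K)‖ ≤ (d + 1) * (1 + H) ^ (d + 1) := by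
  rw [emb_aeval]
  refine eval_bound hd hA (root_bound (minpoly.monic (IsIntegral.of_finite ℤ θ)) hθ ?_)
  rw [← emb_aeval, minpoly.aeval]
  simp

lemma disc_bound {θ : 𝓞 K} {d : ℕ} {H : ℝ} (hθ : ∀ i, |((minpoly ℤ θ).coeff i : ℝ)| ≤ H)
    {A B : ℤ[X]} (hdA : A.natDegree ≤ d) (hA : ∀ i, |(A.coeff i : ℝ)| ≤ H)
    (hdB : B.natDegree ≤ d) (hB : ∀ i, |(B.coeff i : ℝ)| ≤ H) (σ : K →+* ℂ) :
    ‖σ ((PP θ A ^ 3 - QQ θ B ^ 2 : 𝓞 K) : K)‖ ≤ 10 ^ 6 * ((d + 1) * (1 + H) ^ (d + 1)) ^ 3 := by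
  have hH0 : 0 ≤ H := (abs_nonneg _).trans (hA 0)
  set G : ℝ := (d + 1) * (1 + H) ^ (d + 1) with hG
  have hG1 : 1 ≤ G := by
    have h1 : (1 : ℝ) ≤ (1 + H) ^ (d + 1) := one_le_pow₀ (by linarith)
    have h2 : (0 : ℝ) ≤ d := Nat.cast_nonneg d
    rw [hG]
    nlinarith
  have h1 := emb_bound hθ hdA hA σ
  have h2 := emb_bound hθ hdB hB σ
  set a : ℂ := σ ((aeval θ A : 𝓞 K) : K) with ha
  set b : ℂ := σ ((aeval θ B : 𝓞 K) : K) with hb
  have h3 : σ ((PP θ A ^ 3 - QQ θ B ^ 2 : 𝓞 K) : K) = (-48 * a) ^ 3 - (-864 * b) ^ 2 := by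
    unfold PP QQ
    rw [ha, hb]
    simp only [map_sub, map_pow, map_mul, map_neg, map_ofNat]
  rw [h3]
  refine (norm_sub_le _ _).trans ?_
  rw [norm_pow, norm_pow, norm_mul, norm_mul, norm_neg, norm_neg]
  have h4 : ‖(48 : ℂ)‖ = 48 := by simp
  have h5 : ‖(864 : ℂ)‖ = 864 := by simp
  rw [h4, h5]
  have h6 : (48 * ‖a‖) ^ 3 ≤ (48 * G) ^ 3 := pow_le_pow_left₀ (by positivity) (by linarith) 3
  have h7 : (864 * ‖b‖) ^ 2 ≤ (864 * G) ^ 2 := pow_le_pow_left₀ (by positivity) (by linarith) 2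
  have h8 : G ^ 2 ≤ G ^ 3 := pow_le_pow_right₀ hG1 (by norm_num)
  have h9 : 0 ≤ G ^ 3 := by positivity
  nlinarith

end

/-! ### the data -/

/-- the polynomial with given coefficients -/
noncomputable def pol (d : ℕ) (w : Fin (d + 1) → ℤ) : ℤ[X] := ∑ i, C (w i) * X ^ (i : ℕ)

lemma pol_coeffs {d : ℕ} {f : ℤ[X]} (hf : f.natDegree ≤ d) :
    pol d (fun i => f.coeff i) = f := by
  unfold pol
  rw [Fin.sum_univ_eq_sum_range (fun i => C (f.coeff i) * X ^ i) (d + 1)]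
  exact (f.as_sum_range_C_mul_X_pow' (Nat.lt_succ_of_le hf)).symm

/-- `h` is the coefficient function of a datum with index `z` -/
def Match (d : ℕ) (z : Fin 3 → Fin (d + 1) → ℤ) (h : ℕ → ℂ) : Prop :=
  ∃ (K : Type) (_ : Field K) (_ : NumberField K) (θ : 𝓞 K),
    IntermediateField.adjoin ℚ {(θ : K)} = ⊤ ∧ minpoly ℤ θ = pol d (z 0) ∧
    Module.finrank ℚ K ≤ d ∧
    h = homCoef (𝓞 K) (PP θ (pol d (z 1))) (QQ θ (pol d (z 2)))

lemma iso_exists {K K' : Type} [Field K] [NumberField K] [Field K'] [NumberField K'] {θ : 𝓞 K}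
    {θ' : 𝓞 K'} (h : IntermediateField.adjoin ℚ {(θ : K)} = ⊤)
    (h' : IntermediateField.adjoin ℚ {(θ' : K')} = ⊤) (hm : minpoly ℤ θ = minpoly ℤ θ') :
    ∃ e : 𝓞 K ≃+* 𝓞 K', e θ = θ' := by
  have key : ∀ (L : Type) [Field L] [NumberField L] (t : 𝓞 L)
      (_ : IntermediateField.adjoin ℚ {(t : L)} = ⊤),
      ∃ pb : PowerBasis ℚ L, pb.gen = (t : L) ∧ minpoly ℚ (t : L) =
        (minpoly ℤ t).map (algebraMap ℤ ℚ) := by
    intro L _ _ t ht
    have h1 : Algebra.adjoin ℚ {(t : L)} = ⊤ := by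
      rw [← IntermediateField.adjoin_simple_toSubalgebra_of_isAlgebraic
        (Algebra.IsAlgebraic.isAlgebraic (t : L)), ht, IntermediateField.top_toSubalgebra]
    have hint : IsIntegral ℚ (t : L) := IsIntegral.of_finite ℚ _
    refine ⟨PowerBasis.ofAdjoinEqTop' hint h1, PowerBasis.ofAdjoinEqTop'_gen hint h1, ?_⟩
    have h2 : IsIntegral ℤ (t : L) := t.isIntegral_coe
    rw [minpoly.isIntegrallyClosed_eq_field_fractions' ℚ h2]
    congr 1
    exact minpoly.algebraMap_eq (NumberField.RingOfIntegers.coe_injective) t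
  obtain ⟨pb, hg, hmp⟩ := key K θ h
  obtain ⟨pb', hg', hmp'⟩ := key K' θ' h'
  have h3 : minpoly ℚ pb.gen = minpoly ℚ pb'.gen := by rw [hg, hg', hmp, hmp', hm]
  let e := pb.equivOfMinpoly pb' h3
  refine ⟨RingOfIntegers.mapRingEquiv e.toRingEquiv, ?_⟩
  have h4 : e (θ : K) = (θ' : K') := by
    rw [← hg, ← hg']
    exact PowerBasis.equivOfMinpoly_gen pb pb' h3
  exact RingOfIntegers.ext h4

lemma match_unique {d : ℕ} {z : Fin 3 → Fin (d + 1) → ℤ} {h h' : ℕ → ℂ} (hh : Match d z h)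
    (hh' : Match d z h') : h = h' := by
  obtain ⟨K, _, _, θ, h1, h2, h3, h4⟩ := hh
  obtain ⟨K', _, _, θ', h1', h2', h3', h4'⟩ := hh'
  obtain ⟨e, he⟩ := iso_exists h1 h1' (h2.trans h2'.symm)
  have h5 : ∀ A : ℤ[X], e (aeval θ A) = aeval θ' A := by
    intro A
    have := Polynomial.hom_eval₂ A (algebraMap ℤ (𝓞 K)) (e : 𝓞 K →+* 𝓞 K') θ
    rw [aeval_def, aeval_def]
    have h6 : (e : 𝓞 K →+* 𝓞 K').comp (algebraMap ℤ (𝓞 K)) = algebraMap ℤ (𝓞 K') :=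
      RingHom.ext_int _ _
    rw [h6] at this
    rw [← he]
    exact this
  rw [h4, h4']
  funext p
  rw [← homCoef_equiv e]
  congr 1
  · unfold PP
    rw [map_mul, map_neg, map_ofNat, h5]
  · unfold QQ
    rw [map_mul, map_neg, map_ofNat, h5]

open Classical in
/-- the coefficient function of an index -/
noncomputable def hz (d : ℕ) (z : Fin 3 → Fin (d + 1) → ℤ) : ℕ → ℂ :=
  if h : ∃ f, Match d z f then h.choose else 0

lemma hz_eq {d : ℕ} {z : Fin 3 → Fin (d + 1) → ℤ} {h : ℕ → ℂ} (hh : Match d z h) :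
    hz d z = h := by
  have h1 : ∃ f, Match d z f := ⟨h, hh⟩
  unfold hz
  rw [dif_pos h1]
  exact match_unique h1.choose_spec hh

lemma norm_hz (d : ℕ) (z : Fin 3 → Fin (d + 1) → ℤ) (p : ℕ) (hp : p.Prime) :
    ‖hz d z p‖ ≤ 2 * d := by
  unfold hz
  split_ifs with h
  · obtain ⟨K, _, _, θ, h1, h2, h3, h4⟩ := h.choose_spec
    rw [h4]
    refine (homCoef_bound _ _ p hp).trans ?_
    have : (Module.finrank ℚ K : ℝ) ≤ d := by exact_mod_cast h3
    linarith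
  · simp

/-- the coefficient with damping -/
noncomputable def cz (d : ℕ) (z : Fin 3 → Fin (d + 1) → ℤ) (η : ℝ) (p : ℕ) : ℂ :=
  hz d z p / p * Complex.exp (-(η : ℂ) * Real.log p)

lemma norm_cz (d : ℕ) (z : Fin 3 → Fin (d + 1) → ℤ) {η : ℝ} (hη : 0 ≤ η) (p : ℕ) (hp : p.Prime) :
    ‖cz d z η p‖ ≤ 2 * d / p := by
  unfold cz
  rw [norm_mul, norm_div, Complex.norm_natCast]
  have h1 := norm_hz d z p hp
  have h2 := norm_damp η hη hp.one_le
  have h3 : (0 : ℝ) < p := by exact_mod_cast hp.pos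
  calc ‖hz d z p‖ / p * ‖Complex.exp (-(η : ℂ) * Real.log p)‖
      ≤ (2 * d / p) * 1 :=
        mul_le_mul (div_le_div_of_nonneg_right h1 h3.le) h2 (norm_nonneg _) (by positivity)
    _ = _ := mul_one _

/-- the finite set of indices of height at most `H` -/
noncomputable def box (d : ℕ) (H : ℝ) : Finset (Fin 3 → Fin (d + 1) → ℤ) :=
  Fintype.piFinset fun _ => Fintype.piFinset fun _ => Finset.Icc (-⌊H⌋) ⌊H⌋

lemma card_box (d : ℕ) {H : ℝ} (hH : 1 ≤ H) :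
    ((box d H).card : ℝ) ≤ (3 * H) ^ (3 * (d + 1)) := by
  unfold box
  rw [Fintype.card_piFinset]
  simp only [Fintype.card_piFinset, prod_const, card_univ, Fintype.card_fin, Int.card_Icc]
  push_cast
  rw [← pow_mul, mul_comm (d + 1) 3]
  refine pow_le_pow_left₀ (Nat.cast_nonneg _) ?_ _
  have h1 : (0 : ℤ) ≤ ⌊H⌋ + 1 - -⌊H⌋ := by
    have : 0 ≤ ⌊H⌋ := Int.floor_nonneg.2 (by linarith)
    linarith
  have h2 : (((⌊H⌋ + 1 - -⌊H⌋).toNat : ℕ) : ℝ) = ((⌊H⌋ + 1 - -⌊H⌋ : ℤ) : ℝ) := by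
    have h3 := Int.toNat_of_nonneg h1
    exact_mod_cast congrArg (Int.cast : ℤ → ℝ) h3
  rw [h2]
  push_cast
  have := Int.floor_le H
  linarith

/-- the index of a datum -/
noncomputable def ix (d : ℕ) (f A B : ℤ[X]) : Fin 3 → Fin (d + 1) → ℤ :=
  ![fun i => f.coeff i, fun i => A.coeff i, fun i => B.coeff i]

lemma ix_mem {d : ℕ} {f A B : ℤ[X]} {H : ℝ} (hf : ∀ i, |(f.coeff i : ℝ)| ≤ H)
    (hA : ∀ i, |(A.coeff i : ℝ)| ≤ H) (hB : ∀ i, |(B.coeff i : ℝ)| ≤ H) :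
    ix d f A B ∈ box d H := by
  have key : ∀ g : ℤ[X], (∀ i, |(g.coeff i : ℝ)| ≤ H) → ∀ i : ℕ,
      g.coeff i ∈ Finset.Icc (-⌊H⌋) ⌊H⌋ := by
    intro g hg i
    rw [Finset.mem_Icc, ← abs_le, Int.le_floor]
    push_cast
    exact hg i
  unfold box
  rw [Fintype.mem_piFinset]
  intro k
  rw [Fintype.mem_piFinset]
  intro i
  fin_cases k
  · exact key f hf i
  · exact key A hA i
  · exact key B hB i

lemma match_ix {K : Type} [Field K] [NumberField K] {d : ℕ} {θ : 𝓞 K}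
    (h : IntermediateField.adjoin ℚ {(θ : K)} = ⊤) (hd : Module.finrank ℚ K ≤ d) {A B : ℤ[X]}
    (hdA : A.natDegree ≤ d) (hdB : B.natDegree ≤ d) :
    Match d (ix d (minpoly ℤ θ) A B) (homCoef (𝓞 K) (PP θ A) (QQ θ B)) := by
  have hdf : (minpoly ℤ θ).natDegree ≤ d := by
    have h2 : IsIntegral ℤ (θ : K) := θ.isIntegral_coe
    have h3 : minpoly ℤ (θ : K) = minpoly ℤ θ :=
      minpoly.algebraMap_eq (NumberField.RingOfIntegers.coe_injective) θ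
    have h4 := minpoly.isIntegrallyClosed_eq_field_fractions' ℚ h2
    have h5 : (minpoly ℚ (θ : K)).natDegree ≤ Module.finrank ℚ K :=
      minpoly.natDegree_le (θ : K)
    rw [h4, h3, Polynomial.natDegree_map_eq_of_injective (Int.cast_injective)] at h5
    exact h5.trans hd
  refine ⟨K, inferInstance, inferInstance, θ, h, ?_, hd, ?_⟩
  · exact (pol_coeffs hdf).symm
  · have h1 : pol d (ix d (minpoly ℤ θ) A B 1) = A := pol_coeffs hdA
    have h2 : pol d (ix d (minpoly ℤ θ) A B 2) = B := pol_coeffs hdB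
    rw [h1, h2]

end Pool.Agent.Y834.EA
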