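import Pool.Agent.Y834.EA.Main

/-!
# Dependence of the prime sums on the point; counting windows
-/

set_option autoImplicit false

namespace Pool.Agent.Y834.EA

open MeasureTheory Filter Topology Finset

/-- telescoping bound for the sum of `n^(-1-a)` -/
lemma sum_rpow_le {a : ℝ} (ha : 0 < a) (N : ℕ) :
    ∑ n ∈ Ico 2 (N + 2), (n : ℝ) ^ (-1 - a) ≤ (1 - ((N + 1 : ℕ) : ℝ) ^ (-a)) / a := by
  induction N with
  | zero => simp
  | succ N ih =>
    rw [show N + 1 + 2 = (N + 2) + 1 by ring, sum_Ico_succ_top (by omega)]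
    have hx0 : (0 : ℝ) < ((N + 2 : ℕ) : ℝ) := by positivity
    have hy0 : (0 : ℝ) < ((N + 1 : ℕ) : ℝ) := by positivity
    have hxy : ((N + 1 : ℕ) : ℝ) = ((N + 2 : ℕ) : ℝ) - 1 := by
      push_cast
      ring
    set x : ℝ := ((N + 2 : ℕ) : ℝ) with hx
    set y : ℝ := ((N + 1 : ℕ) : ℝ) with hy
    have h1 : y ^ (-a) = x ^ (-a) * (y / x) ^ (-a) := by
      rw [← Real.mul_rpow hx0.le (by positivity)]
      congr 1
      field_simp
    have h2 : 1 + a / x ≤ (y / x) ^ (-a) := by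
      have h3 : 0 < y / x := by positivity
      rw [Real.rpow_def_of_pos h3]
      have h4 := Real.log_le_sub_one_of_pos h3
      have h5 : y / x - 1 = -(1 / x) := by
        rw [hxy]
        field_simp
        ring
      rw [h5] at h4
      have h6 := Real.add_one_le_exp (Real.log (y / x) * -a)
      have h7 : a / x ≤ Real.log (y / x) * -a := by
        have h8 : 1 / x * a ≤ -Real.log (y / x) * a :=
          mul_le_mul_of_nonneg_right (by linarith) ha.le
        calc a / x = 1 / x * a := by ring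
          _ ≤ _ := h8
          _ = _ := by ring
      linarith
    have h3 : x ^ (-1 - a) = x ^ (-a) * (1 / x) := by
      rw [show -1 - a = -a + -1 by ring, Real.rpow_add hx0, Real.rpow_neg_one, one_div]
    have h4 : x ^ (-1 - a) ≤ (y ^ (-a) - x ^ (-a)) / a := by
      rw [le_div_iff₀ ha, h3, h1]
      have h5 : 0 < x ^ (-a) := by positivity
      calc x ^ (-a) * (1 / x) * a = x ^ (-a) * (a / x) := by ring
        _ ≤ x ^ (-a) * ((y / x) ^ (-a) - 1) :=
            mul_le_mul_of_nonneg_left (by linarith) h5.le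
        _ = _ := by ring
    calc ∑ n ∈ Ico 2 (N + 2), (n : ℝ) ^ (-1 - a) + x ^ (-1 - a)
        ≤ (1 - y ^ (-a)) / a + (y ^ (-a) - x ^ (-a)) / a := add_le_add ih h4
      _ = _ := by ring

lemma exp_sub_le {a b M : ℝ} (ha : a ≤ M) (hb : b ≤ M) :
    |Real.exp a - Real.exp b| ≤ Real.exp M * |a - b| := by
  have key : ∀ a b : ℝ, b ≤ a → a ≤ M → Real.exp a - Real.exp b ≤ Real.exp M * (a - b) := by
    intro a b hba haM
    have h1 := Real.add_one_le_exp (b - a)
    have h2 : Real.exp b = Real.exp a * Real.exp (b - a) := by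
      rw [← Real.exp_add]
      congr 1
      ring
    have h3 := Real.exp_pos a
    have h4 : Real.exp a ≤ Real.exp M := Real.exp_le_exp.2 haM
    rw [h2]
    calc Real.exp a - Real.exp a * Real.exp (b - a) ≤ Real.exp a * (a - b) := by nlinarith
      _ ≤ _ := mul_le_mul_of_nonneg_right h4 (by linarith)
  rcases le_total a b with h | h
  · rw [abs_sub_comm, abs_of_nonneg (sub_nonneg.2 (Real.exp_le_exp.2 h)), abs_sub_comm,
      abs_of_nonneg (sub_nonneg.2 h)]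
    exact key b a h hb
  · rw [abs_of_nonneg (sub_nonneg.2 (Real.exp_le_exp.2 h)), abs_of_nonneg (sub_nonneg.2 h)]
    exact key a b h ha

lemma expI_sub_le (a b : ℝ) :
    ‖Complex.exp (-(a : ℂ) * Complex.I) - Complex.exp (-(b : ℂ) * Complex.I)‖ ≤ |a - b| := by
  have h1 : Complex.exp (-(a : ℂ) * Complex.I) - Complex.exp (-(b : ℂ) * Complex.I) =
      Complex.exp (((-b : ℝ) : ℂ) * Complex.I) *
        (Complex.exp (Complex.I * ((b - a : ℝ) : ℂ)) - 1) := by
    rw [mul_sub, ← Complex.exp_add, mul_one]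
    congr 2
    · push_cast
      ring
    · push_cast
      ring
  rw [h1, norm_mul, Complex.norm_exp_ofReal_mul_I, one_mul, abs_sub_comm]
  exact Real.norm_exp_I_mul_ofReal_sub_one_le

/-- the point evaluation of a damped term -/
lemma term_diff {η₀ η η' τ τ' : ℝ} (h : η₀ ≤ η) (h' : η₀ ≤ η') {p : ℕ} (hp : 1 ≤ p) :
    ‖Complex.exp (-(η : ℂ) * Real.log p) * Complex.exp (-(τ * Real.log p) * Complex.I) -
      Complex.exp (-(η' : ℂ) * Real.log p) * Complex.exp (-(τ' * Real.log p) * Complex.I)‖ ≤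
      (p : ℝ) ^ (-η₀) * Real.log p * (|η - η'| + |τ - τ'|) := by
  have hp0 : (0 : ℝ) < p := by exact_mod_cast hp
  have hl : 0 ≤ Real.log p := Real.log_nonneg (by exact_mod_cast hp)
  set l := Real.log p with hldef
  have hpow : (p : ℝ) ^ (-η₀) = Real.exp (-η₀ * l) := by
    rw [Real.rpow_def_of_pos hp0, mul_comm]
  have h1 : Complex.exp (-(η : ℂ) * l) = ((Real.exp (-η * l) : ℝ) : ℂ) := by
    rw [Complex.ofReal_exp]
    push_cast
    rfl
  have h2 : Complex.exp (-(η' : ℂ) * l) = ((Real.exp (-η' * l) : ℝ) : ℂ) := by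
    rw [Complex.ofReal_exp]
    push_cast
    rfl
  have h3 : ∀ t : ℝ, Complex.exp (-((t : ℂ) * (l : ℂ)) * Complex.I) =
      Complex.exp (-((t * l : ℝ) : ℂ) * Complex.I) := by
    intro t
    push_cast
    rfl
  have hn : ∀ t : ℝ, ‖Complex.exp (-((t * l : ℝ) : ℂ) * Complex.I)‖ = 1 := by
    intro t
    rw [← Complex.ofReal_neg]
    exact Complex.norm_exp_ofReal_mul_I _
  rw [h1, h2, h3, h3]
  have h4 : ((Real.exp (-η * l) : ℝ) : ℂ) * Complex.exp (-((τ * l : ℝ) : ℂ) * Complex.I) -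
      ((Real.exp (-η' * l) : ℝ) : ℂ) * Complex.exp (-((τ' * l : ℝ) : ℂ) * Complex.I) =
      ((Real.exp (-η * l) - Real.exp (-η' * l) : ℝ) : ℂ) *
        Complex.exp (-((τ * l : ℝ) : ℂ) * Complex.I) +
      ((Real.exp (-η' * l) : ℝ) : ℂ) * (Complex.exp (-((τ * l : ℝ) : ℂ) * Complex.I) -
        Complex.exp (-((τ' * l : ℝ) : ℂ) * Complex.I)) := by
    push_cast
    ring
  rw [h4]
  refine (norm_add_le _ _).trans ?_
  rw [norm_mul, norm_mul, hn, mul_one, Complex.norm_real, Complex.norm_real, Real.norm_eq_abs,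
    Real.norm_of_nonneg (Real.exp_pos _).le, hpow]
  have h5 : |Real.exp (-η * l) - Real.exp (-η' * l)| ≤ Real.exp (-η₀ * l) * (l * |η - η'|) := by
    refine (exp_sub_le (M := -η₀ * l) (by nlinarith) (by nlinarith)).trans (le_of_eq ?_)
    congr 1
    rw [show -η * l - -η' * l = -(l * (η - η')) by ring, abs_neg, abs_mul, abs_of_nonneg hl]
  have h6 : ‖Complex.exp (-((τ * l : ℝ) : ℂ) * Complex.I) -
        Complex.exp (-((τ' * l : ℝ) : ℂ) * Complex.I)‖ ≤ l * |τ - τ'| := by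
    refine (expI_sub_le _ _).trans (le_of_eq ?_)
    rw [show τ * l - τ' * l = l * (τ - τ') by ring, abs_mul, abs_of_nonneg hl]
  have h7 : Real.exp (-η' * l) ≤ Real.exp (-η₀ * l) := Real.exp_le_exp.2 (by nlinarith)
  have h8 : Real.exp (-η' * l) * ‖Complex.exp (-((τ * l : ℝ) : ℂ) * Complex.I) -
        Complex.exp (-((τ' * l : ℝ) : ℂ) * Complex.I)‖ ≤
      Real.exp (-η₀ * l) * (l * |τ - τ'|) :=
    mul_le_mul h7 h6 (norm_nonneg _) (Real.exp_pos _).le
  calc _ ≤ Real.exp (-η₀ * l) * (l * |η - η'|) + Real.exp (-η₀ * l) * (l * |τ - τ'|) :=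
        add_le_add h5 h8
    _ = _ := by ring

/-- the damped coefficients -/
noncomputable def dc (h : ℕ → ℂ) (η : ℝ) (p : ℕ) : ℂ :=
  h p / p * Complex.exp (-(η : ℂ) * Real.log p)

/-- **Lipschitz bound** -/
theorem lip {D η₀ : ℝ} (hD : 0 ≤ D) (hη₀ : 0 < η₀) (h : ℕ → ℂ)
    (hh : ∀ p : ℕ, p.Prime → ‖h p‖ ≤ D) (y : ℝ) (x : ℕ) {η η' τ τ' : ℝ} (hη : η₀ ≤ η)
    (hη' : η₀ ≤ η') :
    ‖SS (PR y x) (dc h η) τ - SS (PR y x) (dc h η') τ'‖ ≤
      D * (4 / η₀ ^ 2) * (|η - η'| + |τ - τ'|) := by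
  have hs0 : 0 ≤ |η - η'| + |τ - τ'| := by positivity
  set s := |η - η'| + |τ - τ'| with hs
  unfold SS
  rw [← sum_sub_distrib]
  have hterm : ∀ p ∈ PR y x, ‖dc h η p * Complex.exp (-(τ * Real.log p) * Complex.I) -
      dc h η' p * Complex.exp (-(τ' * Real.log p) * Complex.I)‖ ≤
      D * (2 / η₀) * s * (p : ℝ) ^ (-1 - η₀ / 2) := by
    intro p hp
    rw [mem_PR] at hp
    have hp1 := hp.2.1.one_le
    have hp0 : (0 : ℝ) < p := by exact_mod_cast hp1
    have h1 : dc h η p * Complex.exp (-(τ * Real.log p) * Complex.I) -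
        dc h η' p * Complex.exp (-(τ' * Real.log p) * Complex.I) = h p / p *
        (Complex.exp (-(η : ℂ) * Real.log p) * Complex.exp (-(τ * Real.log p) * Complex.I) -
        Complex.exp (-(η' : ℂ) * Real.log p) *
          Complex.exp (-(τ' * Real.log p) * Complex.I)) := by
      unfold dc
      ring
    rw [h1, norm_mul, norm_div, Complex.norm_natCast]
    have h2 := term_diff (τ := τ) (τ' := τ') hη hη' hp1
    have h3 : Real.log p ≤ (p : ℝ) ^ (η₀ / 2) * (2 / η₀) := by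
      have := Real.log_le_rpow_div hp0.le (ε := η₀ / 2) (by positivity)
      refine this.trans (le_of_eq ?_)
      field_simp
    have h4 : (p : ℝ) ^ (-1 - η₀ / 2) = 1 / p * ((p : ℝ) ^ (-η₀) * (p : ℝ) ^ (η₀ / 2)) := by
      rw [one_div, ← Real.rpow_neg_one, ← Real.rpow_add hp0, ← Real.rpow_add hp0]
      congr 1
      ring
    have h5 : 0 < (p : ℝ) ^ (-η₀) := by positivity
    calc ‖h p‖ / p * _ ≤ D / p * ((p : ℝ) ^ (-η₀) * Real.log p * s) :=
          mul_le_mul (div_le_div_of_nonneg_right (hh p hp.2.1) hp0.le) h2 (norm_nonneg _)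
            (by positivity)
      _ ≤ D / p * ((p : ℝ) ^ (-η₀) * ((p : ℝ) ^ (η₀ / 2) * (2 / η₀)) * s) := by gcongr
      _ = _ := by rw [h4]; ring
  refine (norm_sum_le_of_le _ hterm).trans ?_
  rw [← mul_sum]
  have hsum : ∑ p ∈ PR y x, (p : ℝ) ^ (-1 - η₀ / 2) ≤ 2 / η₀ := by
    have h1 : PR y x ⊆ Ico 2 (x + 2) := fun p hp => by
      rw [mem_PR] at hp
      exact mem_Ico.2 ⟨hp.2.1.two_le, by omega⟩
    refine (sum_le_sum_of_subset_of_nonneg h1 fun p _ _ => by positivity).trans ?_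
    refine (sum_rpow_le (by positivity : 0 < η₀ / 2) x).trans ?_
    have h2 : 0 ≤ ((x + 1 : ℕ) : ℝ) ^ (-(η₀ / 2)) := by positivity
    calc (1 - ((x + 1 : ℕ) : ℝ) ^ (-(η₀ / 2))) / (η₀ / 2) ≤ 1 / (η₀ / 2) :=
          div_le_div_of_nonneg_right (by linarith) (by positivity)
      _ = _ := by field_simp
  calc D * (2 / η₀) * s * ∑ p ∈ PR y x, (p : ℝ) ^ (-1 - η₀ / 2)
      ≤ D * (2 / η₀) * s * (2 / η₀) := mul_le_mul_of_nonneg_left hsum (by positivity)
    _ = _ := by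
        field_simp
        ring

lemma sum_primes_le (F : Finset Nat.Primes) :
    ∑ p ∈ F, ((p : ℕ) : ℝ) ^ (-(3 / 2) : ℝ) ≤ ZZ := by
  unfold ZZ
  exact Summable.sum_le_tsum _ (fun _ _ => by positivity) summable_ZZ

/-- far from the edge the sums are small -/
lemma far {D : ℝ} (hD : 0 ≤ D) (h : ℕ → ℂ) (hh : ∀ p : ℕ, p.Prime → ‖h p‖ ≤ D) {y : ℝ}
    (hy : 1 ≤ y) (x : ℕ) {η : ℝ} (hη : 1 ≤ η) (τ : ℝ) :
    ‖SS (PR y x) (dc h η) τ‖ ≤ D * (y ^ (-(1 / 4) : ℝ) * ZZ) := by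
  unfold SS
  have hterm : ∀ p ∈ PR y x, ‖dc h η p * Complex.exp (-(τ * Real.log p) * Complex.I)‖ ≤
      D * (y ^ (-(1 / 4) : ℝ) * (p : ℝ) ^ (-(3 / 2) : ℝ)) := by
    intro p hp
    rw [mem_PR] at hp
    have hp1 := hp.2.1.one_le
    have hp0 : (0 : ℝ) < p := by exact_mod_cast hp1
    have hp1' : (1 : ℝ) ≤ p := by exact_mod_cast hp1
    have h1 : -((τ : ℂ) * (Real.log p : ℂ)) * Complex.I =
        ((-(τ * Real.log p) : ℝ) : ℂ) * Complex.I := by
      push_cast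
      ring
    unfold dc
    rw [h1, norm_mul, Complex.norm_exp_ofReal_mul_I, mul_one, norm_mul, norm_div,
      Complex.norm_natCast, Pool.Agent.W350.EdgeV.norm_exp_z _ hp1]
    have h2 : (p : ℝ) ^ (-((η : ℂ).re)) ≤ (p : ℝ) ^ (-1 : ℝ) :=
      Real.rpow_le_rpow_of_exponent_le hp1' (by rw [Complex.ofReal_re]; linarith)
    have h3 : 1 / (p : ℝ) * (p : ℝ) ^ (-1 : ℝ) = (p : ℝ) ^ (-(1 / 2) : ℝ) *
        (p : ℝ) ^ (-(3 / 2) : ℝ) := by
      rw [one_div, ← Real.rpow_neg_one, ← Real.rpow_add hp0, ← Real.rpow_add hp0]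
      norm_num
    have h4 : (p : ℝ) ^ (-(1 / 2) : ℝ) ≤ y ^ (-(1 / 4) : ℝ) :=
      calc (p : ℝ) ^ (-(1 / 2) : ℝ) ≤ (p : ℝ) ^ (-(1 / 4) : ℝ) :=
            Real.rpow_le_rpow_of_exponent_le hp1' (by norm_num)
        _ ≤ y ^ (-(1 / 4) : ℝ) :=
            Real.rpow_le_rpow_of_nonpos (by linarith) hp.2.2 (by norm_num)
    calc ‖h p‖ / p * (p : ℝ) ^ (-((η : ℂ).re)) ≤ D / p * (p : ℝ) ^ (-1 : ℝ) :=
          mul_le_mul (div_le_div_of_nonneg_right (hh p hp.2.1) hp0.le) h2 (by positivity)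
            (by positivity)
      _ = D * (1 / (p : ℝ) * (p : ℝ) ^ (-1 : ℝ)) := by ring
      _ ≤ _ := by
          rw [h3]
          gcongr
  refine (norm_sum_le_of_le _ hterm).trans ?_
  rw [← mul_sum, ← mul_sum]
  refine mul_le_mul_of_nonneg_left (mul_le_mul_of_nonneg_left ?_ (by positivity)) hD
  have h1 : ∑ p ∈ PR y x, (p : ℝ) ^ (-(3 / 2) : ℝ) =
      ∑ p ∈ (PR y x).attach.image (fun p => (⟨p.1, (mem_PR.1 p.2).2.1⟩ : Nat.Primes)),
        ((p : ℕ) : ℝ) ^ (-(3 / 2) : ℝ) := by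
    rw [sum_image]
    · exact (sum_attach _ fun p : ℕ => (p : ℝ) ^ (-(3 / 2) : ℝ)).symm
    · intro a _ b _ hab
      exact Subtype.ext (congrArg (fun q : Nat.Primes => (q : ℕ)) hab)
  rw [h1]
  exact sum_primes_le _

/-- the number of windows that meet a small set substantially -/
lemma count_windows {Y : Set ℝ} {ρ V : ℝ} (hV : 0 ≤ V) (hY : volume Y ≤ ENNReal.ofReal V)
    (M : Finset ℤ)
    (hM : ∀ m ∈ M, ENNReal.ofReal ρ ≤ volume (Y ∩ Set.Ioc ((m : ℝ) - 1) (m + 2))) :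
    (M.card : ℝ) * ρ ≤ 3 * V := by
  have key : ∀ a : ℝ, ∑ m ∈ M, volume (Y ∩ Set.Ioc (a + m) (a + m + 1)) ≤ volume Y := by
    intro a
    have h1 : ∀ m : ℤ, volume (Y ∩ Set.Ioc (a + m) (a + m + 1)) =
        volume.restrict Y (Set.Ioc (a + m) (a + m + 1)) := by
      intro m
      rw [Measure.restrict_apply measurableSet_Ioc, Set.inter_comm]
    simp_rw [h1]
    rw [← measure_biUnion_finset]
    · refine (measure_mono (Set.subset_univ _)).trans ?_
      rw [Measure.restrict_apply_univ]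
    · intro m _ m' _ hmm
      exact Set.pairwise_disjoint_Ioc_add_intCast a hmm
    · exact fun _ _ => measurableSet_Ioc
  have h1 : ∑ m ∈ M, ENNReal.ofReal ρ ≤ ∑ m ∈ M, (volume (Y ∩ Set.Ioc (-1 + (m : ℝ)) (-1 + m + 1)) +
      volume (Y ∩ Set.Ioc (0 + (m : ℝ)) (0 + m + 1)) +
      volume (Y ∩ Set.Ioc (1 + (m : ℝ)) (1 + m + 1))) := by
    refine Finset.sum_le_sum fun m hm => (hM m hm).trans ?_
    have h2 : Y ∩ Set.Ioc ((m : ℝ) - 1) (m + 2) ⊆ (Y ∩ Set.Ioc (-1 + (m : ℝ)) (-1 + m + 1) ∪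
        Y ∩ Set.Ioc (0 + (m : ℝ)) (0 + m + 1)) ∪ Y ∩ Set.Ioc (1 + (m : ℝ)) (1 + m + 1) := by
      rintro τ ⟨h3, h4, h5⟩
      rcases le_or_gt τ m with h6 | h6
      · exact Or.inl (Or.inl ⟨h3, by linarith, by linarith⟩)
      · rcases le_or_gt τ (m + 1) with h7 | h7
        · exact Or.inl (Or.inr ⟨h3, by linarith, by linarith⟩)
        · exact Or.inr ⟨h3, by linarith, by linarith⟩
    refine (measure_mono h2).trans ((measure_union_le _ _).trans ?_)
    exact add_le_add (measure_union_le _ _) le_rfl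
  rw [sum_add_distrib, sum_add_distrib, sum_const, nsmul_eq_mul] at h1
  have h2 : (M.card : ENNReal) * ENNReal.ofReal ρ ≤ ENNReal.ofReal (3 * V) := by
    refine h1.trans ?_
    have h3 : (3 : ℝ) * V = V + V + V := by ring
    rw [h3, ENNReal.ofReal_add (by positivity) hV, ENNReal.ofReal_add hV hV]
    exact add_le_add (add_le_add ((key _).trans hY) ((key _).trans hY)) ((key _).trans hY)
  rw [← ENNReal.ofReal_natCast, ← ENNReal.ofReal_mul (Nat.cast_nonneg _)] at h2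
  exact (ENNReal.ofReal_le_ofReal_iff (by positivity)).1 h2

end Pool.Agent.Y834.EA
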