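import Pool.Agent.W350.EdgeEC

/-!
# Local factors of elliptic curves at all places, uniformly
-/

set_option autoImplicit false

namespace Pool.Agent.Y834.EA

open Filter Topology NumberField IsDedekindDomain Polynomial Pool.Agent.H921R2.TatePole
  Pool.Agent.H341R2 Pool.Agent.H341R2.EC Pool.Agent.W350.Edge Pool.Agent.W350.EdgeV
  Pool.Agent.W350.EdgeNF Pool.Agent.W350.EdgeEC

section
variable {k : Type*} [Field k] [Fintype k] [DecidableEq k]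

/-- Weil's bound, also for singular cubics -/
theorem csum_bound' (h6 : (6 : k) ≠ 0) (c c' : k) :
    |(csum c c' : ℝ)| ≤ 2 * Real.sqrt (Fintype.card k) := by
  have h2 : (2 : k) ≠ 0 := by
    intro h; apply h6
    have : (6 : k) = 3 * 2 := by norm_num
    rw [this, h, mul_zero]
  have hk : ringChar k ≠ 2 := by
    intro h
    apply h2
    have := ringChar.Nat.cast_ringChar (R := k)
    rw [h] at this
    exact_mod_cast this
  have hdeg := cub_natDegree c c'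
  have h1 := Sharp.weil_sharp hk (cub c c') (by omega) (by
    intro a q hq
    have ha : a ≠ 0 := by
      rintro rfl
      rw [C_0, zero_mul] at hq
      rw [hq] at hdeg
      simp at hdeg
    have hqd : 2 * q.natDegree = 3 := by
      rw [hq, natDegree_C_mul ha, natDegree_pow] at hdeg
      exact hdeg
    omega)
  rw [hdeg] at h1
  unfold csum
  push_cast
  refine h1.trans (le_of_eq ?_)
  norm_num

end

variable {K : Type} [Field K] [NumberField K]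

/-- the trace at every place prime to 6 -/
theorem trc_bound (W : HeightOneSpectrum (𝓞 K) → WeierstrassCurve (𝓞 K))
    (v : HeightOneSpectrum (𝓞 K)) (h6 : (6 : 𝓞 K) ∉ v.asIdeal) :
    |(trc W v : ℝ)| ≤ 2 * Real.sqrt (nm v) := by
  have h6' : (6 : 𝓞 K ⧸ v.asIdeal) ≠ 0 := by
    have := mk_ne h6
    rwa [map_ofNat] at this
  have h1 := aff_eq_short h6' (red v (W v))
  have h2 := short_eq h6' (red v (W v)).c₄ (red v (W v)).c₆
  have h3 : (trc W v : ℤ) = -csum (red v (W v)).c₄ (red v (W v)).c₆ := by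
    unfold trc csum
    rw [h1, h2, card_v]
    ring
  have h4 := csum_bound' h6' (red v (W v)).c₄ (red v (W v)).c₆
  rw [card_v] at h4
  rw [h3]
  push_cast
  rw [abs_neg]
  exact h4

open Classical in
/-- `1 - (local factor)⁻¹` -/
noncomputable def ww (W : HeightOneSpectrum (𝓞 K) → WeierstrassCurve (𝓞 K))
    (v : HeightOneSpectrum (𝓞 K)) (s : ℂ) : ℂ :=
  (trc W v : ℂ) * (nm v : ℂ) ^ (-s) -
    (if (W v).Δ ∈ v.asIdeal then 0 else (nm v : ℂ)) * (nm v : ℂ) ^ (-2 * s)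

lemma lf_eq (W : HeightOneSpectrum (𝓞 K) → WeierstrassCurve (𝓞 K))
    (v : HeightOneSpectrum (𝓞 K)) (s : ℂ) : lf W v s = (1 - ww W v s)⁻¹ := by
  unfold lf ww
  congr 1
  ring

lemma rpow_half (v : HeightOneSpectrum (𝓞 K)) :
    (nm v : ℝ) * (nm v : ℝ) ^ (-(3 / 2) : ℝ) = (nm v : ℝ) ^ (-(1 / 2) : ℝ) := by
  have h0 := nm_pos v
  calc (nm v : ℝ) * (nm v : ℝ) ^ (-(3 / 2) : ℝ) = (nm v : ℝ) ^ (1 : ℝ) * (nm v : ℝ) ^ (-(3 / 2) : ℝ) := by
        rw [Real.rpow_one]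
    _ = _ := by
        rw [← Real.rpow_add h0]
        norm_num

lemma norm_trc_all (W : HeightOneSpectrum (𝓞 K) → WeierstrassCurve (𝓞 K))
    (v : HeightOneSpectrum (𝓞 K)) {s : ℂ} (hs : 3 / 2 ≤ s.re) :
    ‖(trc W v : ℂ) * (nm v : ℂ) ^ (-s)‖ ≤ (nm v : ℝ) ^ (-(1 / 2) : ℝ) := by
  have h0 := nm_pos v
  have h1 : (1 : ℝ) ≤ nm v := by exact_mod_cast hN v
  rw [norm_mul, Complex.norm_intCast, Complex.norm_natCast_cpow_of_pos (hN v), ← rpow_half]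
  have h2 : (nm v : ℝ) ^ (-s).re ≤ (nm v : ℝ) ^ (-(3 / 2) : ℝ) :=
    Real.rpow_le_rpow_of_exponent_le h1 (by rw [Complex.neg_re]; linarith)
  have h3 : |(trc W v : ℝ)| ≤ nm v := by exact_mod_cast trc_le W v
  exact mul_le_mul h3 h2 (by positivity) h0.le

lemma norm_trc_good (W : HeightOneSpectrum (𝓞 K) → WeierstrassCurve (𝓞 K))
    (v : HeightOneSpectrum (𝓞 K)) (h6 : (6 : 𝓞 K) ∉ v.asIdeal) {s : ℂ} (hs : 3 / 2 ≤ s.re) :
    ‖(trc W v : ℂ) * (nm v : ℂ) ^ (-s)‖ ≤ 2 / nm v := by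
  have h0 := nm_pos v
  have h1 : (1 : ℝ) ≤ nm v := by exact_mod_cast hN v
  rw [norm_mul, Complex.norm_intCast, Complex.norm_natCast_cpow_of_pos (hN v)]
  have h2 : (nm v : ℝ) ^ (-s).re ≤ (nm v : ℝ) ^ (-(3 / 2) : ℝ) :=
    Real.rpow_le_rpow_of_exponent_le h1 (by rw [Complex.neg_re]; linarith)
  have h3 : Real.sqrt (nm v) * (nm v : ℝ) ^ (-(3 / 2) : ℝ) = 1 / nm v := by
    have h4 : (1 / 2 + -(3 / 2) : ℝ) = -1 := by norm_num
    rw [Real.sqrt_eq_rpow, ← Real.rpow_add h0, h4, Real.rpow_neg_one, one_div]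
  calc |(trc W v : ℝ)| * (nm v : ℝ) ^ (-s).re
      ≤ (2 * Real.sqrt (nm v)) * (nm v : ℝ) ^ (-(3 / 2) : ℝ) :=
        mul_le_mul (trc_bound W v h6) h2 (by positivity) (by positivity)
    _ = 2 * (Real.sqrt (nm v) * (nm v : ℝ) ^ (-(3 / 2) : ℝ)) := by ring
    _ = 2 / nm v := by rw [h3]; ring

open Classical in
lemma norm_eps (W : HeightOneSpectrum (𝓞 K) → WeierstrassCurve (𝓞 K))
    (v : HeightOneSpectrum (𝓞 K)) {s : ℂ} (hs : 3 / 2 ≤ s.re) :
    ‖(if (W v).Δ ∈ v.asIdeal then 0 else (nm v : ℂ)) * (nm v : ℂ) ^ (-2 * s)‖ ≤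
      (nm v : ℝ) ^ (-2 : ℝ) := by
  split_ifs
  · rw [zero_mul, norm_zero]
    positivity
  · exact norm_second v hs

lemma norm_ww_good (W : HeightOneSpectrum (𝓞 K) → WeierstrassCurve (𝓞 K))
    (v : HeightOneSpectrum (𝓞 K)) (h6 : (6 : 𝓞 K) ∉ v.asIdeal) {s : ℂ} (hs : 3 / 2 ≤ s.re) :
    ‖ww W v s‖ ≤ 11 / 5 / nm v ∧ ‖ww W v s‖ ≤ 11 / 25 := by
  have h5 : (5 : ℝ) ≤ nm v := by exact_mod_cast five_le_v h6
  have h0 := nm_pos v
  have h1 := norm_trc_good W v h6 hs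
  have h2 := norm_eps W v hs
  have h3 : (nm v : ℝ) ^ (-2 : ℝ) ≤ 1 / 5 / nm v := by
    rw [Real.rpow_neg h0.le, Real.rpow_two, ← one_div, div_div, div_le_div_iff₀ (by positivity)
      (by positivity)]
    nlinarith
  have h4 : ‖ww W v s‖ ≤ 11 / 5 / nm v := by
    unfold ww
    refine (norm_sub_le _ _).trans ((add_le_add h1 (h2.trans h3)).trans (le_of_eq ?_))
    ring
  refine ⟨h4, h4.trans ?_⟩
  rw [div_le_iff₀ h0]
  linarith

lemma norm_ww_all (W : HeightOneSpectrum (𝓞 K) → WeierstrassCurve (𝓞 K))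
    (v : HeightOneSpectrum (𝓞 K)) {s : ℂ} (hs : 3 / 2 ≤ s.re) :
    ‖ww W v s‖ ≤ 2 * (nm v : ℝ) ^ (-(1 / 2) : ℝ) := by
  have h1 : (1 : ℝ) ≤ nm v := by exact_mod_cast hN v
  have h2 := norm_trc_all W v hs
  have h3 := norm_eps W v hs
  have h4 : (nm v : ℝ) ^ (-2 : ℝ) ≤ (nm v : ℝ) ^ (-(1 / 2) : ℝ) :=
    Real.rpow_le_rpow_of_exponent_le h1 (by norm_num)
  unfold ww
  refine (norm_sub_le _ _).trans ?_
  linarith

open Classical in
/-- the remainder of the logarithm of the local factor -/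
noncomputable def rw6 (W : HeightOneSpectrum (𝓞 K) → WeierstrassCurve (𝓞 K))
    (v : HeightOneSpectrum (𝓞 K)) (s : ℂ) : ℂ :=
  -Complex.log (1 - ww W v s) -
    (if (6 : 𝓞 K) ∉ v.asIdeal then (trc W v : ℂ) * (nm v : ℂ) ^ (-s) else 0)

open Classical in
lemma lf_exp (W : HeightOneSpectrum (𝓞 K) → WeierstrassCurve (𝓞 K))
    (v : HeightOneSpectrum (𝓞 K)) {s : ℂ} (h : ww W v s ≠ 1) :
    lf W v s = Complex.exp ((if (6 : 𝓞 K) ∉ v.asIdeal then
      (trc W v : ℂ) * (nm v : ℂ) ^ (-s) else 0) + rw6 W v s) := by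
  have h1 : 1 - ww W v s ≠ 0 := sub_ne_zero.2 h.symm
  unfold rw6
  rw [add_sub_cancel, Complex.exp_neg, Complex.exp_log h1, lf_eq]

open Classical in
lemma norm_rw6_good (W : HeightOneSpectrum (𝓞 K) → WeierstrassCurve (𝓞 K))
    (v : HeightOneSpectrum (𝓞 K)) (h6 : (6 : 𝓞 K) ∉ v.asIdeal) {s : ℂ} (hs : 3 / 2 ≤ s.re) :
    ‖rw6 W v s‖ ≤ 6 * (nm v : ℝ) ^ (-2 : ℝ) := by
  have h0 := nm_pos v
  obtain ⟨h1, h2⟩ := norm_ww_good W v h6 hs
  have h3 : ‖-ww W v s‖ < 1 := by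
    rw [norm_neg]
    linarith
  have h4 := Complex.norm_log_one_add_sub_self_le h3
  rw [norm_neg] at h4
  have h5 : rw6 W v s = -(Complex.log (1 + -ww W v s) - -ww W v s) -
      (if (W v).Δ ∈ v.asIdeal then 0 else (nm v : ℂ)) * (nm v : ℂ) ^ (-2 * s) := by
    unfold rw6
    rw [if_pos h6]
    unfold ww
    ring
  rw [h5]
  refine (norm_sub_le _ _).trans ?_
  rw [norm_neg]
  have h6 : ‖ww W v s‖ ^ 2 * (1 - ‖ww W v s‖)⁻¹ / 2 ≤ 5 * (nm v : ℝ) ^ (-2 : ℝ) := by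
    have h7 : (1 - ‖ww W v s‖)⁻¹ ≤ 2 := by
      rw [inv_le_comm₀ (by linarith) (by norm_num)]
      linarith
    have h8 : ‖ww W v s‖ ^ 2 ≤ (11 / 5 / nm v) ^ 2 := pow_le_pow_left₀ (norm_nonneg _) h1 2
    have h9 : (11 / 5 / (nm v : ℝ)) ^ 2 = 121 / 25 * (nm v : ℝ) ^ (-2 : ℝ) := by
      rw [Real.rpow_neg h0.le, Real.rpow_two]
      ring_nf
    have h10 : 0 < (1 - ‖ww W v s‖)⁻¹ := inv_pos.2 (by linarith)
    have h11 : 0 < (nm v : ℝ) ^ (-2 : ℝ) := by positivity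
    calc ‖ww W v s‖ ^ 2 * (1 - ‖ww W v s‖)⁻¹ / 2
        ≤ (121 / 25 * (nm v : ℝ) ^ (-2 : ℝ)) * 2 / 2 := by
          rw [← h9]
          have := mul_le_mul h8 h7 h10.le (by positivity)
          linarith
      _ ≤ _ := by linarith
  have h12 := norm_eps W v hs
  linarith

lemma norm_rw6_six (W : HeightOneSpectrum (𝓞 K) → WeierstrassCurve (𝓞 K))
    (v : HeightOneSpectrum (𝓞 K)) (h6 : (6 : 𝓞 K) ∈ v.asIdeal) (h16 : 16 ≤ nm v) {s : ℂ}
    (hs : 3 / 2 ≤ s.re) :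
    ‖ww W v s‖ ≤ 1 / 2 ∧ ‖rw6 W v s‖ ≤ 3 * (nm v : ℝ) ^ (-(1 / 2) : ℝ) := by
  have h1 := norm_ww_all W v hs
  have h2 : (nm v : ℝ) ^ (-(1 / 2) : ℝ) ≤ 1 / 4 := by
    have h3 : (16 : ℝ) ≤ nm v := by exact_mod_cast h16
    calc (nm v : ℝ) ^ (-(1 / 2) : ℝ) ≤ (16 : ℝ) ^ (-(1 / 2) : ℝ) :=
          Real.rpow_le_rpow_of_nonpos (by norm_num) h3 (by norm_num)
      _ = 1 / 4 := by
          have : (16 : ℝ) = 4 ^ (2 : ℝ) := by norm_num
          rw [this, ← Real.rpow_mul (by norm_num)]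
          norm_num
  have h3 : ‖ww W v s‖ ≤ 1 / 2 := by linarith
  refine ⟨h3, ?_⟩
  have h4 : rw6 W v s = -Complex.log (1 + -ww W v s) := by
    unfold rw6
    rw [if_neg (not_not.2 h6), sub_zero, ← sub_eq_add_neg]
  rw [h4, norm_neg]
  have h5 := Complex.norm_log_one_add_half_le_self (z := -ww W v s) (by rw [norm_neg]; exact h3)
  rw [norm_neg] at h5
  linarith

/-- the inverse of every local factor is at most 3 -/
lemma norm_lf_ge (W : HeightOneSpectrum (𝓞 K) → WeierstrassCurve (𝓞 K))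
    (v : HeightOneSpectrum (𝓞 K)) {s : ℂ} (hs : 3 / 2 ≤ s.re) : ‖1 - ww W v s‖ ≤ 3 := by
  have h1 := norm_ww_all W v hs
  have h2 : (nm v : ℝ) ^ (-(1 / 2) : ℝ) ≤ 1 := by
    have h3 : (1 : ℝ) ≤ nm v := by exact_mod_cast hN v
    exact Real.rpow_le_one_of_one_le_of_nonpos h3 (by norm_num)
  refine (norm_sub_le _ _).trans ?_
  rw [norm_one]
  linarith

/-! ### sums over places -/

/-- `∑ p^(-3/2)` -/
noncomputable def ZZ : ℝ := ∑' p : Nat.Primes, ((p : ℕ) : ℝ) ^ (-(3 / 2) : ℝ)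

lemma ZZ_nonneg : 0 ≤ ZZ := tsum_nonneg fun _ => by positivity

lemma summable_ZZ : Summable fun p : Nat.Primes => ((p : ℕ) : ℝ) ^ (-(3 / 2) : ℝ) :=
  summable_primes_rpow (by norm_num)

lemma sum_below (F : Finset (HeightOneSpectrum (𝓞 K))) :
    ∑ v ∈ F, ((below v : ℕ) : ℝ) ^ (-(3 / 2) : ℝ) ≤ Module.finrank ℚ K * ZZ := by
  classical
  rw [← Finset.sum_fiberwise_of_maps_to (fun v hv => Finset.mem_image_of_mem below hv)]
  calc ∑ p ∈ F.image below, ∑ v ∈ F with below v = p, ((below v : ℕ) : ℝ) ^ (-(3 / 2) : ℝ)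
      ≤ ∑ p ∈ F.image below, (Module.finrank ℚ K : ℝ) * ((p : ℕ) : ℝ) ^ (-(3 / 2) : ℝ) := by
        refine Finset.sum_le_sum fun p _ => ?_
        have h1 : ∑ v ∈ F with below v = p, ((below v : ℕ) : ℝ) ^ (-(3 / 2) : ℝ) =
            ∑ v ∈ F with below v = p, ((p : ℕ) : ℝ) ^ (-(3 / 2) : ℝ) :=
          Finset.sum_congr rfl fun v hv => by rw [(Finset.mem_filter.1 hv).2]
        rw [h1, Finset.sum_const, nsmul_eq_mul]
        refine mul_le_mul_of_nonneg_right ?_ (by positivity)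
        exact_mod_cast card_above p _ fun v hv => (Finset.mem_filter.1 hv).2
    _ = Module.finrank ℚ K * ∑ p ∈ F.image below, ((p : ℕ) : ℝ) ^ (-(3 / 2) : ℝ) := by
        rw [Finset.mul_sum]
    _ ≤ _ := mul_le_mul_of_nonneg_left (summable_ZZ.sum_le_tsum _ fun _ _ => by positivity)
        (Nat.cast_nonneg _)

lemma below_pos (v : HeightOneSpectrum (𝓞 K)) : (0 : ℝ) < ((below v : ℕ) : ℝ) := by
  exact_mod_cast (below v).2.pos

/-- places of non-prime norm -/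
lemma nonprime_le (v : HeightOneSpectrum (𝓞 K)) (hv : ¬ (nm v).Prime) {y : ℝ} (hy : 1 ≤ y)
    (hyv : y ≤ nm v) :
    1 / (nm v : ℝ) ≤ y ^ (-(1 / 4) : ℝ) * ((below v : ℕ) : ℝ) ^ (-(3 / 2) : ℝ) := by
  have h0 := nm_pos v
  have hb := below_pos v
  have h4 : ((below v : ℕ) : ℝ) ^ 2 ≤ nm v := by
    obtain ⟨h1, h2, _⟩ := nm_eq v
    have h3 : 2 ≤ deg v := by
      by_contra h4
      have h5 : deg v = 1 := by omega
      rw [h5, pow_one] at h1
      exact hv (by rw [h1]; exact (below v).2)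
    rw [h1]
    have : (below v : ℕ) ^ 2 ≤ (below v : ℕ) ^ deg v := Nat.pow_le_pow_right (below v).2.pos h3
    exact_mod_cast this
  have h5 : 1 / (nm v : ℝ) = (nm v : ℝ) ^ (-(1 / 4) : ℝ) * (nm v : ℝ) ^ (-(3 / 4) : ℝ) := by
    rw [← Real.rpow_add h0, one_div, ← Real.rpow_neg_one]
    norm_num
  rw [h5]
  refine mul_le_mul (Real.rpow_le_rpow_of_nonpos (by linarith) hyv (by norm_num)) ?_
    (by positivity) (by positivity)
  calc (nm v : ℝ) ^ (-(3 / 4) : ℝ) ≤ (((below v : ℕ) : ℝ) ^ 2) ^ (-(3 / 4) : ℝ) :=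
        Real.rpow_le_rpow_of_nonpos (by positivity) h4 (by norm_num)
    _ = _ := by
        rw [← Real.rpow_natCast, ← Real.rpow_mul hb.le]
        norm_num

lemma sq_le (v : HeightOneSpectrum (𝓞 K)) {y : ℝ} (hy : 1 ≤ y) (hyv : y ≤ nm v) :
    (nm v : ℝ) ^ (-2 : ℝ) ≤ y ^ (-(1 / 4) : ℝ) * ((below v : ℕ) : ℝ) ^ (-(3 / 2) : ℝ) := by
  have h0 := nm_pos v
  have hb := below_pos v
  have h1 : (1 : ℝ) ≤ nm v := by exact_mod_cast hN v
  have h5 : (nm v : ℝ) ^ (-2 : ℝ) ≤ (nm v : ℝ) ^ (-(1 / 4) : ℝ) * (nm v : ℝ) ^ (-(3 / 2) : ℝ) := by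
    rw [← Real.rpow_add h0]
    exact Real.rpow_le_rpow_of_exponent_le h1 (by norm_num)
  refine h5.trans (mul_le_mul (Real.rpow_le_rpow_of_nonpos (by linarith) hyv (by norm_num)) ?_
    (by positivity) (by positivity))
  exact Real.rpow_le_rpow_of_nonpos hb (by exact_mod_cast below_le_nm v) (by norm_num)

/-- places above 2 and 3 -/
lemma six_le (v : HeightOneSpectrum (𝓞 K)) (h6 : (6 : 𝓞 K) ∈ v.asIdeal) :
    1 ≤ 6 * ((below v : ℕ) : ℝ) ^ (-(3 / 2) : ℝ) := by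
  have hb := below_pos v
  have h1 : (below v : ℕ) ∣ 6 := by
    have h2 := (nm_eq v).2.2
    by_contra h3
    have h4 : Nat.Coprime (below v : ℕ) 6 := (Nat.Prime.coprime_iff_not_dvd (below v).2).2 h3
    have h5 : IsCoprime (((below v : ℕ) : ℤ)) ((6 : ℕ) : ℤ) := Nat.isCoprime_iff_coprime.2 h4
    obtain ⟨a, b, hab⟩ := h5
    have h6' : ((a : 𝓞 K)) * ((below v : ℕ) : 𝓞 K) + (b : 𝓞 K) * 6 = 1 := by
      have := congrArg (fun z : ℤ => (z : 𝓞 K)) hab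
      push_cast at this
      exact this
    have h7 : (1 : 𝓞 K) ∈ v.asIdeal := by
      rw [← h6']
      exact v.asIdeal.add_mem (v.asIdeal.mul_mem_left _ h2) (v.asIdeal.mul_mem_left _ h6)
    exact v.isPrime.ne_top ((Ideal.eq_top_iff_one _).2 h7)
  have h2 : (below v : ℕ) ≤ 3 := by
    have hp := (below v).2
    have h3 : (below v : ℕ) ∣ 2 * 3 := h1
    rcases (Nat.Prime.dvd_mul hp).1 h3 with h | h
    · have := Nat.le_of_dvd (by norm_num) h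
      omega
    · exact Nat.le_of_dvd (by norm_num) h
  have h3 : ((below v : ℕ) : ℝ) ≤ 3 := by exact_mod_cast h2
  have h4 : (3 : ℝ) ^ (-(3 / 2) : ℝ) ≤ ((below v : ℕ) : ℝ) ^ (-(3 / 2) : ℝ) :=
    Real.rpow_le_rpow_of_nonpos hb h3 (by norm_num)
  have h5 : (1 / 6 : ℝ) ≤ (3 : ℝ) ^ (-(3 / 2) : ℝ) := by
    have h6 : ((3 : ℝ) ^ (-(3 / 2) : ℝ)) ^ 2 = 1 / 27 := by
      rw [← Real.rpow_natCast, ← Real.rpow_mul (by norm_num)]
      norm_num
    have h7 : 0 < (3 : ℝ) ^ (-(3 / 2) : ℝ) := by positivity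
    by_contra h8
    push Not at h8
    nlinarith
  linarith

end Pool.Agent.Y834.EA
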