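import Pool.Agent.Y834.EA.Main
import Pool.Agent.Y834.EA.Disc
import Pool.Agent.Helper923.HMertens

/-!
# The logarithm of the L-function on the edge
-/

set_option autoImplicit false

namespace Pool.Agent.Y834.EA

open MeasureTheory Filter Topology NumberField IsDedekindDomain Finset
  Pool.Agent.H921R2.TatePole
  Pool.Agent.H341R2 Pool.Agent.H341R2.EC Pool.Agent.W350.Edge Pool.Agent.W350.EdgeV
  Pool.Agent.W350.EdgeNF Pool.Agent.W350.EdgeEC Polynomial

section
variable {K : Type} [Field K] [NumberField K]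

/-- the places of norm `p` -/
noncomputable def ft (K : Type) [Field K] [NumberField K] (p : ℕ) :
    Finset (HeightOneSpectrum (𝓞 K)) := by
  classical
  exact (FV nm hfin (p + 1)).filter fun v => nm v = p

lemma mem_ft {p : ℕ} {v : HeightOneSpectrum (𝓞 K)} : v ∈ ft K p ↔ nm v = p := by
  unfold ft
  rw [mem_filter, mem_FV]
  constructor
  · exact fun h => h.2
  · intro h
    exact ⟨by omega, h⟩

/-- `p^(-3/2)` times the sum of the traces at the places of norm `p` -/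
noncomputable def av (W : HeightOneSpectrum (𝓞 K) → WeierstrassCurve (𝓞 K)) (p : ℕ) : ℝ :=
  (∑ v ∈ ft K p, (trc W v : ℝ)) * (p : ℝ) ^ (-(3 / 2) : ℝ)

lemma below_eq {v : HeightOneSpectrum (𝓞 K)} (hv : (nm v).Prime) : (below v : ℕ) = nm v := by
  obtain ⟨h1, h2, _⟩ := nm_eq v
  have h3 : (below v : ℕ) ∣ nm v := by
    rw [h1]
    exact dvd_pow_self _ h2.ne'
  exact (Nat.prime_dvd_prime_iff_eq (below v).2 hv).1 h3

lemma trc_prime (W : HeightOneSpectrum (𝓞 K) → WeierstrassCurve (𝓞 K))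
    {v : HeightOneSpectrum (𝓞 K)} (hv : (nm v).Prime) :
    |(trc W v : ℝ)| ≤ 2 * Real.sqrt (nm v) := by
  have h0 := nm_pos v
  have hsq : Real.sqrt (nm v) * Real.sqrt (nm v) = nm v := Real.mul_self_sqrt h0.le
  have hs0 : 0 ≤ Real.sqrt (nm v) := Real.sqrt_nonneg _
  rcases le_or_gt (nm v) 4 with h4 | h4
  · have h3 : |(trc W v : ℝ)| ≤ nm v := by exact_mod_cast trc_le W v
    have h5 : (nm v : ℝ) ≤ 4 := by exact_mod_cast h4
    nlinarith
  · refine trc_bound W v fun h6 => ?_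
    have h7 := six_le v h6
    rw [below_eq hv] at h7
    have h8 : (5 : ℝ) ≤ nm v := by exact_mod_cast h4
    have h9 : (nm v : ℝ) ^ (-(3 / 2) : ℝ) ≤ (5 : ℝ) ^ (-(3 / 2) : ℝ) :=
      Real.rpow_le_rpow_of_nonpos (by norm_num) h8 (by norm_num)
    have h10 : ((5 : ℝ) ^ (-(3 / 2) : ℝ)) ^ 2 = 1 / 125 := by
      rw [← Real.rpow_natCast, ← Real.rpow_mul (by norm_num)]
      norm_num
    have h11 : 0 < (5 : ℝ) ^ (-(3 / 2) : ℝ) := by positivity
    nlinarith

lemma norm_av (W : HeightOneSpectrum (𝓞 K) → WeierstrassCurve (𝓞 K)) (p : ℕ) (hp : p.Prime) :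
    ‖(av W p : ℂ)‖ ≤ 2 * Module.finrank ℚ K / p := by
  have hp0 : (0 : ℝ) < p := by exact_mod_cast hp.pos
  rw [Complex.norm_real, Real.norm_eq_abs]
  unfold av
  rw [abs_mul, abs_of_pos (show 0 < (p : ℝ) ^ (-(3 / 2) : ℝ) by positivity)]
  have h1 : |∑ v ∈ ft K p, (trc W v : ℝ)| ≤ Module.finrank ℚ K * (2 * Real.sqrt p) := by
    refine (abs_sum_le_sum_abs _ _).trans ?_
    calc ∑ v ∈ ft K p, |(trc W v : ℝ)| ≤ ∑ v ∈ ft K p, 2 * Real.sqrt p := by
          refine sum_le_sum fun v hv => ?_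
          rw [mem_ft] at hv
          have := trc_prime W (v := v) (by rw [hv]; exact hp)
          rwa [hv] at this
      _ = ((ft K p).card : ℝ) * (2 * Real.sqrt p) := by rw [sum_const, nsmul_eq_mul]
      _ ≤ _ := by
          refine mul_le_mul_of_nonneg_right ?_ (by positivity)
          exact_mod_cast card_above (K := K) ⟨p, hp⟩ (ft K p) fun v hv => by
            rw [mem_ft] at hv
            refine Subtype.ext ?_
            have := below_eq (v := v) (by rw [hv]; exact hp)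
            rw [this, hv]
  have h3 : Real.sqrt p * (p : ℝ) ^ (-(3 / 2) : ℝ) = 1 / p := by
    have h4 : (1 / 2 + -(3 / 2) : ℝ) = -1 := by norm_num
    rw [Real.sqrt_eq_rpow, ← Real.rpow_add hp0, h4, Real.rpow_neg_one, one_div]
  calc |∑ v ∈ ft K p, (trc W v : ℝ)| * (p : ℝ) ^ (-(3 / 2) : ℝ)
      ≤ Module.finrank ℚ K * (2 * Real.sqrt p) * (p : ℝ) ^ (-(3 / 2) : ℝ) :=
        mul_le_mul_of_nonneg_right h1 (by positivity)
    _ = 2 * Module.finrank ℚ K * (Real.sqrt p * (p : ℝ) ^ (-(3 / 2) : ℝ)) := by ring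
    _ = _ := by rw [h3]; ring

open Classical in
/-- the logarithm of the local factor -/
lemma log_lf (W : HeightOneSpectrum (𝓞 K) → WeierstrassCurve (𝓞 K))
    (v : HeightOneSpectrum (𝓞 K)) {s : ℂ} (hs : 3 / 2 ≤ s.re) :
    Complex.log (lf W v s) = (if (6 : 𝓞 K) ∉ v.asIdeal then
      (trc W v : ℂ) * (nm v : ℂ) ^ (-s) else 0) + rw6 W v s := by
  have h1 := norm_ww_lt W v hs
  have h2 : 0 < (1 - ww W v s).re := by
    rw [Complex.sub_re, Complex.one_re]
    have := Complex.re_le_norm (ww W v s)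
    linarith
  have h3 : (1 - ww W v s).arg ≠ Real.pi :=
    Complex.slitPlane_arg_ne_pi (Complex.mem_slitPlane_iff.2 (Or.inl h2))
  unfold rw6
  rw [lf_eq, Complex.log_inv _ h3]
  ring

lemma norm_log_lf (W : HeightOneSpectrum (𝓞 K) → WeierstrassCurve (𝓞 K))
    (v : HeightOneSpectrum (𝓞 K)) {s : ℂ} (hs : 3 / 2 ≤ s.re) :
    ‖Complex.log (lf W v s)‖ ≤ 13 := by
  have h1 := norm_ww_lt W v hs
  have h2 : 0 < (1 - ww W v s).re := by
    rw [Complex.sub_re, Complex.one_re]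
    have := Complex.re_le_norm (ww W v s)
    linarith
  have h3 : (1 - ww W v s).arg ≠ Real.pi :=
    Complex.slitPlane_arg_ne_pi (Complex.mem_slitPlane_iff.2 (Or.inl h2))
  rw [lf_eq, Complex.log_inv _ h3, norm_neg, sub_eq_add_neg]
  have h4 : ‖-ww W v s‖ < 1 := by
    rw [norm_neg]
    linarith
  refine (Complex.norm_log_one_add_le h4).trans ?_
  rw [norm_neg]
  have h5 : (1 - ‖ww W v s‖)⁻¹ ≤ 25 := by
    rw [inv_le_comm₀ (by linarith) (by norm_num)]
    linarith
  have h6 : ‖ww W v s‖ ^ 2 ≤ (24 / 25) ^ 2 := pow_le_pow_left₀ (norm_nonneg _) h1 2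
  have h7 : 0 < (1 - ‖ww W v s‖)⁻¹ := inv_pos.2 (by linarith)
  have h8 := mul_le_mul h6 h5 h7.le (by norm_num)
  norm_num at h8
  linarith

open Classical in
/-- comparison of the logarithm of the local factor with its main term -/
lemma norm_log_lf_sub (W : HeightOneSpectrum (𝓞 K) → WeierstrassCurve (𝓞 K))
    (v : HeightOneSpectrum (𝓞 K)) {s : ℂ} (hs : 3 / 2 ≤ s.re) :
    ‖Complex.log (lf W v s) - (if (nm v).Prime then (trc W v : ℂ) * (nm v : ℂ) ^ (-s) else 0)‖ ≤
      84 * ((below v : ℕ) : ℝ) ^ (-(3 / 2) : ℝ) := by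
  have hb : 0 ≤ ((below v : ℕ) : ℝ) ^ (-(3 / 2) : ℝ) := by positivity
  have h1' : (1 : ℝ) ≤ nm v := by exact_mod_cast hN v
  by_cases h6 : (6 : 𝓞 K) ∈ v.asIdeal
  · have h1 := norm_log_lf W v hs
    have h2 := six_le v h6
    have h3 : ‖(if (nm v).Prime then (trc W v : ℂ) * (nm v : ℂ) ^ (-s) else 0)‖ ≤ 1 := by
      split_ifs
      · refine (norm_trc_all W v hs).trans ?_
        exact Real.rpow_le_one_of_one_le_of_nonpos h1' (by norm_num)
      · simp
    refine (norm_sub_le _ _).trans ?_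
    linarith
  · rw [log_lf W v hs, if_pos h6]
    have h1 := norm_rw6_good W v h6 hs
    have h2 := sq_le v le_rfl h1'
    rw [Real.one_rpow, one_mul] at h2
    by_cases hp : (nm v).Prime
    · rw [if_pos hp, add_sub_cancel_left]
      linarith
    · rw [if_neg hp, sub_zero]
      have h3 := norm_trc_good W v h6 hs
      have h4 := nonprime_le v hp le_rfl h1'
      rw [Real.one_rpow, one_mul] at h4
      refine (norm_add_le _ _).trans ?_
      have h5 : 2 / (nm v : ℝ) = 2 * (1 / nm v) := by ring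
      rw [h5] at h3
      linarith

lemma av_term (W : HeightOneSpectrum (𝓞 K) → WeierstrassCurve (𝓞 K)) {p : ℕ} (hp : 1 ≤ p)
    (τ : ℝ) : (av W p : ℂ) * Complex.exp (-(τ * Real.log p) * Complex.I) =
      ∑ v ∈ ft K p, (trc W v : ℂ) * (nm v : ℂ) ^ (-(((3 / 2 : ℝ) : ℂ) + τ * Complex.I)) := by
  have h0 : (0 : ℝ) < p := by exact_mod_cast hp
  have hne : (p : ℂ) ≠ 0 := by
    have := h0.ne'
    exact_mod_cast this
  have h1 : ∀ v ∈ ft K p, (trc W v : ℂ) * (nm v : ℂ) ^ (-(((3 / 2 : ℝ) : ℂ) + τ * Complex.I)) =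
      (trc W v : ℂ) * ((((p : ℝ) ^ (-(3 / 2) : ℝ) : ℝ) : ℂ) *
        Complex.exp (-(τ * Real.log p) * Complex.I)) := by
    intro v hv
    rw [mem_ft] at hv
    rw [hv]
    congr 1
    have hlog : Complex.log (p : ℂ) = ((Real.log p : ℝ) : ℂ) := by
      rw [← Complex.ofReal_natCast, Complex.ofReal_log h0.le]
    rw [Complex.cpow_def_of_ne_zero hne, hlog, Real.rpow_def_of_pos h0, Complex.ofReal_exp,
      ← Complex.exp_add]
    congr 1
    push_cast
    ring
  rw [sum_congr rfl h1, ← sum_mul]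
  unfold av
  push_cast
  ring

open Classical in
lemma sum_av (W : HeightOneSpectrum (𝓞 K) → WeierstrassCurve (𝓞 K)) (x : ℕ) (τ : ℝ) :
    ∑ p ∈ PS x, (av W p : ℂ) * Complex.exp (-(τ * Real.log p) * Complex.I) =
      ∑ v ∈ FV (nm : HeightOneSpectrum (𝓞 K) → ℕ) hfin x, (if (nm v).Prime then
        (trc W v : ℂ) * (nm v : ℂ) ^ (-(((3 / 2 : ℝ) : ℂ) + τ * Complex.I)) else 0) := by
  rw [← sum_filter]
  have hmaps : ∀ v ∈ (FV (nm : HeightOneSpectrum (𝓞 K) → ℕ) hfin x).filter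
      (fun v => (nm v).Prime), nm v ∈ PS x := by
    intro v hv
    rw [mem_filter, mem_FV] at hv
    exact mem_PS.2 hv
  rw [← sum_fiberwise_of_maps_to hmaps]
  refine sum_congr rfl fun p hp => ?_
  rw [mem_PS] at hp
  rw [av_term W hp.2.one_le]
  refine sum_congr ?_ fun _ _ => rfl
  ext v
  rw [mem_ft, mem_filter, mem_filter, mem_FV]
  constructor
  · intro h
    rw [h]
    exact ⟨hp, rfl⟩
  · exact fun h => h.2

/-- the logarithm of the short product is a sum over primes -/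
theorem log_short (W : HeightOneSpectrum (𝓞 K) → WeierstrassCurve (𝓞 K)) (x : ℕ) (τ : ℝ) :
    ‖∑ v ∈ FV (nm : HeightOneSpectrum (𝓞 K) → ℕ) hfin x,
        Complex.log (lf W v (((3 / 2 : ℝ) : ℂ) + τ * Complex.I)) -
      ∑ p ∈ PS x, (av W p : ℂ) * Complex.exp (-(τ * Real.log p) * Complex.I)‖ ≤
      84 * (Module.finrank ℚ K * ZZ) := by
  classical
  have hre : (3 / 2 : ℝ) ≤ (((3 / 2 : ℝ) : ℂ) + τ * Complex.I).re := by
    simp
  rw [sum_av, ← sum_sub_distrib]
  refine (norm_sum_le_of_le _ fun v _ => norm_log_lf_sub W v hre).trans ?_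
  rw [← mul_sum]
  exact mul_le_mul_of_nonneg_left (sum_below _) (by norm_num)

/-- convergence of the series of the logarithms of the local factors -/
theorem log_limit {θ : 𝓞 K} {A B : ℤ[X]} (hD : PP θ A ^ 3 - QQ θ B ^ 2 ≠ 0)
    (W : HeightOneSpectrum (𝓞 K) → WeierstrassCurve (𝓞 K))
    (hW : ∀ v, IsMinAt (twist (crv θ A B) 1) v (W v)) (τ : ℝ) (hτ : τ ∉ TT) :
    ∃ w : ℂ, Tendsto (fun x : ℕ => ∑ v ∈ FV nm hfin x,
      Complex.log (lf W v (((3 / 2 : ℝ) : ℂ) + τ * Complex.I))) atTop (𝓝 w) := by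
  classical
  set P := PP θ A with hP
  set Q := QQ θ B with hQ
  rw [TT, Set.mem_union, not_or, Set.mem_iUnion, Set.mem_iUnion, not_exists, not_exists] at hτ
  obtain ⟨d, hd⟩ := exists_idx (𝓞 K) P Q (2 * Module.finrank ℚ K) (homCoef_bound P Q)
  have hconv : ∃ A, Tendsto (fun x => ∑ v ∈ FV nm hfin x, vt nm (an P Q) τ v) atTop (𝓝 A) := by
    refine tendsto_places hN hfin (an P Q) 2 (norm_an P Q) hlow (coefU d)
      (fun p hp => by rw [hd p hp, grp_an P Q p hp]) τ ?_
    have := hτ.1 d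
    unfold divSet at this
    simpa using this
  obtain ⟨a, ha⟩ := hconv
  have hre : (3 / 2 : ℝ) ≤ (((3 / 2 : ℝ) : ℂ) + τ * Complex.I).re := by
    simp
  set g : HeightOneSpectrum (𝓞 K) → ℂ := fun v =>
    Complex.log (lf W v (((3 / 2 : ℝ) : ℂ) + τ * Complex.I)) - vt nm (an P Q) τ v with hg
  have hgs : Summable g := by
    refine Summable.of_norm_bounded_eventually ((hpow 2 one_lt_two).mul_left 6) ?_
    have hbad := finite_bad hD
    rw [Filter.eventually_cofinite]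
    refine hbad.subset fun v hv => ?_
    by_contra hgood
    have hg' : Good P Q v := by
      by_contra h
      exact hgood h
    apply hv
    have h1 : vt nm (an P Q) τ v =
        (trc W v : ℂ) * (nm v : ℂ) ^ (-(((3 / 2 : ℝ) : ℂ) + τ * Complex.I)) := by
      have h2 := bn_term W hg'.1 τ 0
      rw [neg_zero, zero_mul, Complex.exp_zero, one_mul, add_zero] at h2
      rw [← h2]
      have h3 : an P Q v = bn W v := by
        unfold bn an
        rw [if_pos hg'.1, if_pos hg', good_trc hW v hg']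
        push_cast
        ring
      unfold vt
      rw [h3]
    simp only [hg]
    rw [log_lf W v hre, if_pos hg'.1, h1, add_sub_cancel_left]
    exact norm_rw6_good W v hg'.1 hre
  refine ⟨a + ∑' v, g v, (ha.add (hgs.hasSum.comp (tendsto_FV hfin))).congr fun x => ?_⟩
  simp only [Function.comp_apply]
  rw [← sum_add_distrib]
  refine sum_congr rfl fun v _ => ?_
  simp only [hg]
  ring

end

/-- Mertens -/
theorem mertens_tail : ∃ C : ℝ, 0 ≤ C ∧ ∀ A : ℝ, 1 ≤ A → ∀ᶠ L : ℝ in atTop, ∀ η : ℝ, 0 ≤ η →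
    η ≤ 1 / 2 → ∑ p ∈ PS ⌈L ^ A⌉₊ \ PS ⌈L ^ (1 - η)⌉₊, (1 : ℝ) / p ≤
      Real.log (4 * (A + 1)) + C := by
  obtain ⟨C, hC0, hC⟩ := Pool.Agent.Helper923.HMertens.mertens_ratio
  refine ⟨2 * C, by positivity, ?_⟩
  intro A hA
  filter_upwards [eventually_ge_atTop 16] with L hL η hη0 hη
  have hL0 : 0 < L := by linarith
  have hL1 : 1 ≤ L := by linarith
  set u : ℝ := L ^ ((1 - η) / 2) with hu
  have hu2 : 2 ≤ u := by
    calc (2 : ℝ) = (16 : ℝ) ^ (1 / 4 : ℝ) := by
          have : (16 : ℝ) = 2 ^ (4 : ℝ) := by norm_num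
          rw [this, ← Real.rpow_mul (by norm_num)]
          norm_num
      _ ≤ L ^ (1 / 4 : ℝ) := Real.rpow_le_rpow (by norm_num) hL (by norm_num)
      _ ≤ _ := Real.rpow_le_rpow_of_exponent_le hL1 (by linarith)
  have huu : L ^ (1 - η) = u ^ 2 := by
    rw [hu, ← Real.rpow_natCast, ← Real.rpow_mul hL0.le]
    congr 1
    push_cast
    ring
  set z := ⌈L ^ (1 - η)⌉₊ with hz
  set x := ⌈L ^ A⌉₊ with hx
  have hzle : u ^ 2 ≤ z := by
    rw [← huu]
    exact Nat.le_ceil _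
  have hz4 : 4 ≤ z := by
    have : (4 : ℝ) ≤ z := by nlinarith
    exact_mod_cast this
  have hzx : z ≤ x := Nat.ceil_mono (Real.rpow_le_rpow_of_exponent_le hL1 (by linarith))
  have h1 := hC (z - 1) x (by omega) (by omega)
  have hcast : ((z - 1 : ℕ) : ℝ) = (z : ℝ) - 1 := by
    rw [Nat.cast_sub (by omega)]
    norm_num
  have hza : u ≤ ((z - 1 : ℕ) : ℝ) := by
    rw [hcast]
    nlinarith
  have hlogu : Real.log L / 4 ≤ Real.log ((z - 1 : ℕ) : ℝ) := by
    have h2 := Real.log_le_log (by linarith) hza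
    rw [hu, Real.log_rpow hL0] at h2
    have h3 : 0 ≤ Real.log L := Real.log_nonneg hL1
    nlinarith
  have hlogL : 0 < Real.log L := Real.log_pos (by linarith)
  have hloga : Real.log 2 ≤ Real.log ((z - 1 : ℕ) : ℝ) :=
    Real.log_le_log (by norm_num) (hu2.trans hza)
  have hlogx : Real.log x ≤ (A + 1) * Real.log L := by
    have h2 : (x : ℝ) ≤ L ^ (A + 1) := by
      have h3 := Nat.ceil_lt_add_one (show 0 ≤ L ^ A by positivity)
      have h4 : 1 ≤ L ^ A := Real.one_le_rpow hL1 (by linarith)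
      rw [Real.rpow_add hL0, Real.rpow_one]
      nlinarith
    have hx0 : (0 : ℝ) < x := by
      have : 0 < x := by omega
      exact_mod_cast this
    have h3 := Real.log_le_log hx0 h2
    rwa [Real.log_rpow hL0] at h3
  have hx1 : 0 < Real.log x := by
    refine Real.log_pos ?_
    exact_mod_cast (by omega : 1 < x)
  have hla : 0 < Real.log ((z - 1 : ℕ) : ℝ) := by linarith
  have hratio : Real.log (Real.log x / Real.log ((z - 1 : ℕ) : ℝ)) ≤ Real.log (4 * (A + 1)) := by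
    refine Real.log_le_log (by positivity) ?_
    rw [div_le_iff₀ hla]
    calc Real.log x ≤ (A + 1) * Real.log L := hlogx
      _ = 4 * (A + 1) * (Real.log L / 4) := by ring
      _ ≤ _ := mul_le_mul_of_nonneg_left hlogu (by linarith)
  have hlast : C / Real.log ((z - 1 : ℕ) : ℝ) ≤ 2 * C := by
    have h2 := Real.log_two_gt_d9
    rw [div_le_iff₀ hla]
    nlinarith
  have hsub : PS x \ PS z ⊆ (Finset.Ioc (z - 1) x).filter Nat.Prime := by
    intro p hp
    rw [Finset.mem_sdiff, mem_PS, mem_PS] at hp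
    obtain ⟨⟨h2, h3⟩, h4⟩ := hp
    rw [mem_filter, mem_Ioc]
    have h5 : z ≤ p := by
      by_contra h
      exact h4 ⟨by omega, h3⟩
    exact ⟨⟨by omega, h2.le⟩, h3⟩
  have h2 := sum_le_sum_of_subset_of_nonneg (f := fun p : ℕ => (1 : ℝ) / p) hsub
    (fun p _ _ => by positivity)
  have h3 := (abs_le.1 h1).2
  linarith

end Pool.Agent.Y834.EA
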