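import Pool.Agent.Y834.EA.Idx

/-!
# Boundary values of all elliptic curves of small height
-/

set_option autoImplicit false

namespace Pool.Agent.Y834.EA

open MeasureTheory Filter Topology NumberField IsDedekindDomain Finset
  Pool.Agent.H921R2.TatePole
  Pool.Agent.H341R2 Pool.Agent.H341R2.EC Pool.Agent.W350.Edge Pool.Agent.W350.EdgeV
  Pool.Agent.W350.EdgeNF Pool.Agent.W350.EdgeEC Polynomial

/-- the elliptic curve `y² = x³ + a x + b` -/
noncomputable def crv {K : Type} [Field K] [NumberField K] (θ : 𝓞 K) (A B : ℤ[X]) :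
    WeierstrassCurve K where
  a₁ := 0
  a₂ := 0
  a₃ := 0
  a₄ := ((aeval θ A : 𝓞 K) : K)
  a₆ := ((aeval θ B : 𝓞 K) : K)

/-- the data of a curve of height at most `H` over a field of degree at most `d` -/
structure Dt (d : ℕ) (H : ℝ) {K : Type} [Field K] [NumberField K] (θ : 𝓞 K) (A B : ℤ[X]) :
    Prop where
  gen : IntermediateField.adjoin ℚ {(θ : K)} = ⊤
  deg : Module.finrank ℚ K ≤ d
  dA : A.natDegree ≤ d
  dB : B.natDegree ≤ d
  hθ : ∀ i, |((minpoly ℤ θ).coeff i : ℝ)| ≤ H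
  hA : ∀ i, |(A.coeff i : ℝ)| ≤ H
  hB : ∀ i, |(B.coeff i : ℝ)| ≤ H
  disc : 4 * aeval θ A ^ 3 + 27 * aeval θ B ^ 2 ≠ 0

section
variable {K : Type} [Field K] [NumberField K] {d : ℕ} {H : ℝ} {θ : 𝓞 K} {A B : ℤ[X]}

lemma crv_c4 : ((PP θ A : 𝓞 K) : K) = ((1 : 𝓞 K) : K) ^ 4 * (crv θ A B).c₄ := by
  unfold PP crv
  simp only [WeierstrassCurve.c₄, WeierstrassCurve.b₂, WeierstrassCurve.b₄, map_mul, map_neg,
    map_ofNat, map_one]
  ring

lemma crv_c6 : ((QQ θ B : 𝓞 K) : K) = ((1 : 𝓞 K) : K) ^ 6 * (crv θ A B).c₆ := by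
  unfold QQ crv
  simp only [WeierstrassCurve.c₆, WeierstrassCurve.b₂, WeierstrassCurve.b₄,
    WeierstrassCurve.b₆, map_mul, map_neg, map_ofNat, map_one]
  ring

lemma PQ_eq : PP θ A ^ 3 - QQ θ B ^ 2 = -27648 * (4 * aeval θ A ^ 3 + 27 * aeval θ B ^ 2) := by
  unfold PP QQ
  ring

lemma Dt.ne (h : Dt d H θ A B) : PP θ A ^ 3 - QQ θ B ^ 2 ≠ 0 := by
  rw [PQ_eq]
  exact mul_ne_zero (by norm_num) h.disc

lemma crv_elliptic (h : Dt d H θ A B) : (crv θ A B).IsElliptic := by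
  refine ⟨isUnit_iff_ne_zero.2 ?_⟩
  intro h0
  have h1 : (crv θ A B).Δ = -16 * ((4 * aeval θ A ^ 3 + 27 * aeval θ B ^ 2 : 𝓞 K) : K) := by
    unfold crv
    simp only [WeierstrassCurve.Δ, WeierstrassCurve.b₂, WeierstrassCurve.b₄,
      WeierstrassCurve.b₆, WeierstrassCurve.b₈, map_mul, map_ofNat, map_add, map_pow]
    ring
  rw [h1] at h0
  have h2 : ((4 * aeval θ A ^ 3 + 27 * aeval θ B ^ 2 : 𝓞 K) : K) ≠ 0 := by
    intro h3
    exact h.disc ((FaithfulSMul.algebraMap_eq_zero_iff (𝓞 K) K).1 h3)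
  exact mul_ne_zero (by norm_num) h2 h0

lemma good_trc {W : HeightOneSpectrum (𝓞 K) → WeierstrassCurve (𝓞 K)}
    (hW : ∀ v, IsMinAt (twist (crv θ A B) 1) v (W v)) (v : HeightOneSpectrum (𝓞 K))
    (hv : Good (PP θ A) (QQ θ B) v) : trc W v = -csumv (PP θ A) (QQ θ B) v := by
  have h1 : (1 : 𝓞 K) ∉ v.asIdeal := fun h => v.isPrime.ne_top ((Ideal.eq_top_iff_one _).2 h)
  have h2 := count_good (E := crv θ A B) (one_ne_zero : (1 : 𝓞 K) ≠ 0) crv_c4 crv_c6 (d := 1)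
    (by simpa using hW v) hv.1 h1 hv.2
  have h3 : chi (1 : 𝓞 K) v = 1 := by
    unfold chi
    rw [map_one, map_one]
  rw [h3, one_mul] at h2
  unfold trc
  rw [h2.2]
  ring

/-- the number of places dividing the discriminant -/
noncomputable def MM (d : ℕ) (H : ℝ) : ℝ :=
  2 * (d : ℝ) ^ 2 * Real.log (10 ^ 6 * ((d + 1) * (1 + H) ^ (d + 1)) ^ 3)

lemma Dt.count (h : Dt d H θ A B) (F : Finset (HeightOneSpectrum (𝓞 K)))
    (hF : ∀ v ∈ F, PP θ A ^ 3 - QQ θ B ^ 2 ∈ v.asIdeal) : (F.card : ℝ) ≤ MM d H := by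
  have hH0 : 0 ≤ H := (abs_nonneg _).trans (h.hA 0)
  have h1 : (1 : ℝ) ≤ 10 ^ 6 * ((d + 1) * (1 + H) ^ (d + 1)) ^ 3 := by
    have h2 : (1 : ℝ) ≤ (1 + H) ^ (d + 1) := one_le_pow₀ (by linarith)
    have h3 : (0 : ℝ) ≤ d := Nat.cast_nonneg d
    have h4 : (1 : ℝ) ≤ (d + 1) * (1 + H) ^ (d + 1) := by nlinarith
    have h5 : (1 : ℝ) ≤ ((d + 1) * (1 + H) ^ (d + 1)) ^ 3 := one_le_pow₀ h4
    linarith
  refine (count_places h.ne (disc_bound h.hθ h.dA h.hA h.dB h.hB) h1 F hF).trans ?_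
  unfold MM
  have h2 : (Module.finrank ℚ K : ℝ) ≤ d := by exact_mod_cast h.deg
  have h3 : (Module.finrank ℚ K : ℝ) ^ 2 ≤ (d : ℝ) ^ 2 :=
    pow_le_pow_left₀ (Nat.cast_nonneg _) h2 2
  have h4 := Real.log_nonneg h1
  nlinarith

end

/-- the exceptional set -/
noncomputable def XX (d : ℕ) (δ A B T : ℝ) : Set ℝ :=
  TT ∪ ⋃ z ∈ box d (T ^ δ), ⋃ a ∈ ({-(2 * T), -T, 0} : Finset ℝ), Exc A B T (cz d z 0) a

lemma volume_TT : volume TT = 0 := by
  have h1 : (μH[(1 : ℝ)] : Measure ℝ) = volume := hausdorffMeasure_real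
  have h2 : dimH TT < ((1 : NNReal) : ENNReal) := by
    rw [dimH_TT]
    norm_num
  have h3 := measure_zero_of_dimH_lt (μ := (volume : Measure ℝ)) (d := 1)
    (by rw [NNReal.coe_one, h1]) h2
  exact h3

/-- the constant in the bound of the number of places dividing the discriminant -/
noncomputable def CM (d : ℕ) : ℝ :=
  2 * (d : ℝ) ^ 2 * (Real.log (10 ^ 6 * ((d + 1) * 2 ^ (d + 1)) ^ 3) + 3 * (d + 1))

lemma CM_arg (d : ℕ) : (1 : ℝ) ≤ 10 ^ 6 * ((d + 1) * 2 ^ (d + 1)) ^ 3 := by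
  have h2 : (1 : ℝ) ≤ 2 ^ (d + 1) := one_le_pow₀ (by norm_num)
  have h3 : (0 : ℝ) ≤ d := Nat.cast_nonneg d
  have h4 : (1 : ℝ) ≤ (d + 1) * 2 ^ (d + 1) := by nlinarith
  have h5 : (1 : ℝ) ≤ ((d + 1 : ℝ) * 2 ^ (d + 1)) ^ 3 := one_le_pow₀ h4
  linarith

lemma CM_nonneg (d : ℕ) : 0 ≤ CM d := by
  unfold CM
  have := Real.log_nonneg (CM_arg d)
  positivity

lemma MM_bound (d : ℕ) {δ T : ℝ} (hδ0 : 0 ≤ δ) (hδ : δ ≤ 1) (hT : 1 ≤ T)
    (hL : 1 ≤ Real.log T) : MM d (T ^ δ) ≤ CM d * Real.log T := by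
  have hT0 : 0 < T := by linarith
  have h1 : 1 + T ^ δ ≤ 2 * T := by
    have : T ^ δ ≤ T := by
      calc T ^ δ ≤ T ^ (1 : ℝ) := Real.rpow_le_rpow_of_exponent_le hT hδ
        _ = T := Real.rpow_one T
    linarith
  have h2 : 10 ^ 6 * ((d + 1 : ℝ) * (1 + T ^ δ) ^ (d + 1)) ^ 3 ≤
      (10 ^ 6 * ((d + 1) * 2 ^ (d + 1)) ^ 3) * T ^ (3 * (d + 1)) := by
    calc 10 ^ 6 * ((d + 1 : ℝ) * (1 + T ^ δ) ^ (d + 1)) ^ 3
        ≤ 10 ^ 6 * ((d + 1 : ℝ) * (2 * T) ^ (d + 1)) ^ 3 := by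
          have : 0 ≤ 1 + T ^ δ := by positivity
          gcongr
      _ = _ := by
          rw [mul_pow 2 T, ← mul_assoc, mul_pow _ (T ^ (d + 1)), ← pow_mul, mul_comm (d + 1) 3]
          ring
  have h0 : (0 : ℝ) < 10 ^ 6 * ((d + 1 : ℝ) * (1 + T ^ δ) ^ (d + 1)) ^ 3 := by positivity
  have h3 := Real.log_le_log h0 h2
  have h4 := CM_arg d
  have h3' : Real.log ((10 ^ 6 * ((d + 1 : ℝ) * 2 ^ (d + 1)) ^ 3) * T ^ (3 * (d + 1))) =
      Real.log (10 ^ 6 * ((d + 1 : ℝ) * 2 ^ (d + 1)) ^ 3) + 3 * (d + 1) * Real.log T := by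
    rw [Real.log_mul (by linarith) (by positivity), Real.log_pow]
    push_cast
    ring
  rw [h3'] at h3
  have h5 := Real.log_nonneg h4
  unfold MM CM
  have h6 : Real.log (10 ^ 6 * ((d + 1 : ℝ) * (1 + T ^ δ) ^ (d + 1)) ^ 3) ≤
      (Real.log (10 ^ 6 * ((d + 1) * 2 ^ (d + 1)) ^ 3) + 3 * (d + 1)) * Real.log T := by
    nlinarith
  calc 2 * (d : ℝ) ^ 2 * Real.log (10 ^ 6 * ((d + 1 : ℝ) * (1 + T ^ δ) ^ (d + 1)) ^ 3)
      ≤ 2 * (d : ℝ) ^ 2 * ((Real.log (10 ^ 6 * ((d + 1) * 2 ^ (d + 1)) ^ 3) + 3 * (d + 1)) *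
        Real.log T) := mul_le_mul_of_nonneg_left h6 (by positivity)
    _ = _ := by ring

/-- the error term -/
noncomputable def EE (d : ℕ) (δ A B T : ℝ) : ℝ :=
  9 * Real.log T ^ (1 - B) + 26 * ((Real.log T ^ A) ^ (-(1 / 4) : ℝ) * (d * ZZ)) +
    2 * MM d (T ^ δ) / Real.log T ^ A

lemma EE_small (d : ℕ) {δ A B : ℝ} (hδ0 : 0 ≤ δ) (hδ : δ ≤ 1) (hB : 0 ≤ B) (hA : 4 * B + 4 ≤ A) :
    ∀ᶠ T : ℝ in atTop, EE d δ A (B + 2) T ≤ Real.log T ^ (-B) / 4 := by
  have hZ := ZZ_nonneg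
  have hCM := CM_nonneg d
  filter_upwards [Real.tendsto_log_atTop.eventually_ge_atTop
    (4 * (9 + 26 * (d * ZZ) + 2 * CM d)), Real.tendsto_log_atTop.eventually_ge_atTop 1,
    eventually_ge_atTop 1] with T h1 h2 h3
  set L := Real.log T with hL
  have hL0 : 0 < L := by linarith
  have h4 : L ^ (1 - (B + 2)) = L ^ (-B - 1) := by congr 1; ring
  have h5 : (L ^ A) ^ (-(1 / 4) : ℝ) ≤ L ^ (-B - 1) := by
    rw [← Real.rpow_mul hL0.le]
    refine Real.rpow_le_rpow_of_exponent_le h2 ?_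
    linarith
  have h6 : 2 * MM d (T ^ δ) / L ^ A ≤ 2 * CM d * L ^ (-B - 1) := by
    have h7 := MM_bound d hδ0 hδ h3 h2
    calc 2 * MM d (T ^ δ) / L ^ A ≤ 2 * (CM d * L) / L ^ A := by gcongr
      _ = 2 * CM d * (L ^ (1 : ℝ) * L ^ (-A)) := by
          rw [Real.rpow_one, Real.rpow_neg hL0.le]
          ring
      _ = 2 * CM d * L ^ (1 + -A) := by rw [← Real.rpow_add hL0]
      _ ≤ 2 * CM d * L ^ (-B - 1) := by
          refine mul_le_mul_of_nonneg_left ?_ (by positivity)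
          exact Real.rpow_le_rpow_of_exponent_le h2 (by linarith)
  unfold EE
  rw [← hL, h4]
  have h8 : L ^ (-B - 1) = L ^ (-B) / L := by
    rw [Real.rpow_sub hL0, Real.rpow_one]
  have h9 : 0 ≤ (d : ℝ) * ZZ := by positivity
  have h10 : 0 < L ^ (-B) := by positivity
  calc 9 * L ^ (-B - 1) + 26 * ((L ^ A) ^ (-(1 / 4) : ℝ) * (d * ZZ)) + 2 * MM d (T ^ δ) / L ^ A
      ≤ 9 * L ^ (-B - 1) + 26 * (L ^ (-B - 1) * (d * ZZ)) + 2 * CM d * L ^ (-B - 1) := by
        gcongr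
    _ = (9 + 26 * (d * ZZ) + 2 * CM d) * (L ^ (-B) / L) := by rw [h8]; ring
    _ ≤ L / 4 * (L ^ (-B) / L) := by
        refine mul_le_mul_of_nonneg_right ?_ (by positivity)
        linarith
    _ = _ := by field_simp

/-- **Main theorem on boundary values.** -/
theorem main2 (d : ℕ) (ε B : ℝ) (hε : 0 < ε) (hB : 0 ≤ B) :
    ∃ A δ C : ℝ, 1 ≤ A ∧ 0 < δ ∧ 0 < C ∧ ∀ᶠ T : ℝ in atTop, ∃ X : Set ℝ,
      volume X ≤ ENNReal.ofReal (T ^ ε) ∧
      ∀ (K : Type) [Field K] [NumberField K] (θ : 𝓞 K) (a b : ℤ[X]), Dt d (T ^ δ) θ a b →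
        ∀ W : HeightOneSpectrum (𝓞 K) → WeierstrassCurve (𝓞 K),
          (∀ v, IsMinAt (twist (crv θ a b) 1) v (W v)) →
        ∀ τ : ℝ, |τ| ≤ T → τ ∉ X → ∃ l : ℂ, l ≠ 0 ∧
          Tendsto (fun x : ℕ => ∏ v ∈ FV nm hfin x,
            lf W v (((3 / 2 : ℝ) : ℂ) + τ * Complex.I)) atTop (𝓝 l) ∧
          (∀ C' : ℝ, Tendsto (fun s : ℂ => ∏' v, lf W v s)
            (𝓝[{s : ℂ | (3 / 2 : ℝ) < s.re ∧
              ‖s - (((3 / 2 : ℝ) : ℂ) + τ * Complex.I)‖ ≤ C' * (s.re - (3 / 2 : ℝ))}]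
              (((3 / 2 : ℝ) : ℂ) + τ * Complex.I)) (𝓝 l)) ∧
          ‖l - Py W (Real.log T ^ A) (((3 / 2 : ℝ) : ℂ) + τ * Complex.I)‖ ≤
            Real.log T ^ (-B) * ‖Py W (Real.log T ^ A) (((3 / 2 : ℝ) : ℂ) + τ * Complex.I)‖ ∧
          1 / (C * Real.log (Real.log T) ^ (2 * Module.finrank ℚ K)) ≤ ‖l‖ ∧
          ‖l‖ ≤ C * Real.log (Real.log T) ^ (2 * Module.finrank ℚ K) := by
  classical
  obtain ⟨C0, hC0, hsize⟩ := size_Py
  set e1 : ℝ := min ε 1 / 4 with he1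
  have he0 : 0 < e1 := by
    have : 0 < min ε 1 := lt_min hε one_pos
    positivity
  have he4 : e1 ≤ 1 / 4 := by
    have := min_le_right ε 1
    linarith
  have heε : 4 * e1 ≤ ε := by
    have := min_le_left ε 1
    linarith
  set A : ℝ := 1 + (2 * (B + 2) + 2) * 4 / e1 with hAdef
  have hA : 32 * B + 97 ≤ A := by
    have h1 : (2 * (B + 2) + 2) * 16 ≤ (2 * (B + 2) + 2) * 4 / e1 := by
      rw [le_div_iff₀ he0]
      nlinarith
    linarith
  set δ : ℝ := e1 / (3 * (d + 1)) with hδdef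
  have hδ0 : 0 < δ := by positivity
  have hδ1 : δ ≤ 1 := by
    rw [hδdef, div_le_one (by positivity)]
    have : (0 : ℝ) ≤ d := Nat.cast_nonneg d
    linarith
  refine ⟨A, δ, 2 * Real.exp (C0 * d) * A ^ (2 * d), by linarith, hδ0, by positivity, ?_⟩
  have hpowev : ∀ᶠ T : ℝ in atTop, (3 : ℝ) ^ (3 * (d + 1) + 1) ≤ T ^ (2 * e1) :=
    (tendsto_rpow_atTop (by positivity)).eventually_ge_atTop _
  have hll : Tendsto (fun T => Real.log (Real.log T)) atTop atTop :=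
    Real.tendsto_log_atTop.comp Real.tendsto_log_atTop
  filter_upwards [exc_small (2 * d) e1 (B + 2) he0 (by linarith), eventually_ge_atTop 8,
    Real.tendsto_log_atTop.eventually_ge_atTop 2, hpowev,
    EE_small d hδ0.le hδ1 hB (by linarith : 4 * B + 4 ≤ A), hll.eventually_ge_atTop 1]
    with T hexc hT8 hL2 hpow hEE hll1
  rw [← hAdef] at hexc
  have hT0 : 0 < T := by linarith
  have hL0 : 0 < Real.log T := by linarith
  refine ⟨XX d δ A (B + 2) T, ?_, ?_⟩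
  · -- the measure
    have h1 : volume (XX d δ A (B + 2) T) ≤ ∑ z ∈ box d (T ^ δ),
        ∑ a ∈ ({-(2 * T), -T, 0} : Finset ℝ), ENNReal.ofReal (T ^ e1) := by
      unfold XX
      refine (measure_union_le _ _).trans ?_
      rw [volume_TT, zero_add]
      refine (measure_biUnion_finset_le _ _).trans (Finset.sum_le_sum fun z _ => ?_)
      refine (measure_biUnion_finset_le _ _).trans (Finset.sum_le_sum fun a _ => ?_)
      refine hexc (cz d z 0) (fun p hp => ?_) a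
      have := norm_cz d z le_rfl p hp
      simpa using this
    refine h1.trans ?_
    rw [Finset.sum_const, Finset.sum_const, nsmul_eq_mul, nsmul_eq_mul,
      ← ENNReal.ofReal_natCast, ← ENNReal.ofReal_natCast,
      ← ENNReal.ofReal_mul (Nat.cast_nonneg _), ← ENNReal.ofReal_mul (Nat.cast_nonneg _)]
    refine ENNReal.ofReal_le_ofReal ?_
    have hH1 : 1 ≤ T ^ δ := Real.one_le_rpow (by linarith) hδ0.le
    have h2 := card_box d hH1
    have h3 : ((({-(2 * T), -T, 0} : Finset ℝ).card : ℕ) : ℝ) ≤ 3 := by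
      exact_mod_cast Finset.card_le_three
    have h4 : (3 * T ^ δ) ^ (3 * (d + 1)) = 3 ^ (3 * (d + 1)) * T ^ e1 := by
      rw [mul_pow, ← Real.rpow_natCast (T ^ δ), ← Real.rpow_mul hT0.le]
      congr 2
      rw [hδdef]
      push_cast
      field_simp
    rw [h4] at h2
    have h5 : 0 < T ^ e1 := by positivity
    calc ((box d (T ^ δ)).card : ℝ) * (((({-(2 * T), -T, 0} : Finset ℝ).card : ℕ) : ℝ) * T ^ e1)
        ≤ (3 ^ (3 * (d + 1)) * T ^ e1) * (3 * T ^ e1) := by gcongr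
      _ = 3 ^ (3 * (d + 1) + 1) * (T ^ e1 * T ^ e1) := by rw [pow_succ]; ring
      _ ≤ T ^ (2 * e1) * (T ^ e1 * T ^ e1) := by gcongr
      _ = T ^ (4 * e1) := by
          rw [← Real.rpow_add hT0, ← Real.rpow_add hT0]
          congr 1
          ring
      _ ≤ T ^ ε := Real.rpow_le_rpow_of_exponent_le (by linarith) heε
  · intro K _ _ θ a b hD W hW τ hτT hτX
    unfold XX at hτX
    rw [Set.mem_union, not_or] at hτX
    obtain ⟨l, hl0, hl1, hl2⟩ := universal (crv θ a b) (crv_elliptic hD) W hW τ hτX.1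
    -- the window
    obtain ⟨w, hw, hτw⟩ : ∃ w ∈ ({-(2 * T), -T, 0} : Finset ℝ), τ ∈ Set.Ioc w (w + T) := by
      obtain ⟨h1, h2⟩ := abs_le.1 hτT
      rcases le_or_gt τ (-T) with h3 | h3
      · exact ⟨-(2 * T), by simp, by linarith, by linarith⟩
      · rcases le_or_gt τ 0 with h4 | h4
        · exact ⟨-T, by simp, h3, by linarith⟩
        · exact ⟨0, by simp, h4, by linarith⟩
    set z := ix d (minpoly ℤ θ) a b with hz'
    have hzbox : z ∈ box d (T ^ δ) := ix_mem hD.hθ hD.hA hD.hB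
    have hmatch := match_ix hD.gen hD.deg hD.dA hD.dB
    have hcz : cz d z 0 = cf (𝓞 K) (PP θ a) (QQ θ b) 0 := by
      funext p
      unfold cz cf
      rw [hz_eq hmatch]
    have hexcτ : τ ∉ Exc A (B + 2) T (cz d z 0) w := by
      intro h
      apply hτX.2
      rw [Set.mem_iUnion₂]
      refine ⟨z, hzbox, ?_⟩
      rw [Set.mem_iUnion₂]
      exact ⟨w, hw, h⟩
    have hpart := partial_bound (A := A) (B := B + 2) hT8 hL2 (cz d z 0) hτw hexcτ
    rw [hcz] at hpart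
    have hy16 : (16 : ℝ) ≤ Real.log T ^ A := by
      calc (16 : ℝ) = 2 ^ (4 : ℝ) := by norm_num
        _ ≤ Real.log T ^ (4 : ℝ) := Real.rpow_le_rpow (by norm_num) hL2 (by norm_num)
        _ ≤ _ := Real.rpow_le_rpow_of_exponent_le (by linarith) (by linarith)
    set s0 : ℂ := ((3 / 2 : ℝ) : ℂ) + τ * Complex.I with hs0
    have hLB1 : Real.log T ^ (-B) ≤ 1 :=
      Real.rpow_le_one_of_one_le_of_nonpos (by linarith) (by linarith)
    have hLB0 : 0 < Real.log T ^ (-B) := by positivity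
    have hn : (Module.finrank ℚ K : ℝ) ≤ d := by exact_mod_cast hD.deg
    have hclose : ‖l - Py W (Real.log T ^ A) s0‖ ≤
        Real.log T ^ (-B) / 2 * ‖Py W (Real.log T ^ A) s0‖ := by
      have hK1 : 1 ≤ K0 T := by
        unfold K0
        exact Nat.one_le_ceil_iff.2 (by positivity)
      have hxe := tendsto_xe hT0 hK1
      have h1 : Tendsto (fun i => ‖∏ v ∈ FV nm hfin (xe T i), lf W v s0 -
          Py W (Real.log T ^ A) s0‖) atTop (𝓝 ‖l - Py W (Real.log T ^ A) s0‖) :=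
        ((hl1.comp hxe).sub_const _).norm
      refine le_of_tendsto h1 ?_
      filter_upwards [hxe.eventually_ge_atTop ⌈Real.log T ^ A⌉₊] with i hi
      have h2 := ratio W (good_trc hW) (hD.count) hy16 hi τ (le_refl (0 : ℝ))
        (E := Real.log T ^ (-B) / 4) (by linarith) (by
          refine le_trans ?_ hEE
          unfold EE
          have h3 := hpart i
          have h4 : 0 ≤ (Real.log T ^ A) ^ (-(1 / 4) : ℝ) := by positivity
          have h5 := ZZ_nonneg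
          have h6 : (Real.log T ^ A) ^ (-(1 / 4) : ℝ) * (Module.finrank ℚ K * ZZ) ≤
              (Real.log T ^ A) ^ (-(1 / 4) : ℝ) * (d * ZZ) := by gcongr
          linarith)
      rw [Complex.ofReal_zero, add_zero, ← hs0] at h2
      refine h2.trans (le_of_eq ?_)
      ring
    refine ⟨l, hl0, hl1, hl2, ?_, ?_⟩
    · refine hclose.trans ?_
      refine mul_le_mul_of_nonneg_right ?_ (norm_nonneg _)
      linarith
    · -- the size
      have hre : (3 / 2 : ℝ) ≤ s0.re := by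
        rw [hs0]
        simp
      obtain ⟨hs1, hs2⟩ := hsize K W (Real.log T ^ A) (by linarith) s0 hre
      set P := ‖Py W (Real.log T ^ A) s0‖ with hP
      have hP0 : 0 ≤ P := norm_nonneg _
      have hll0 : 0 < Real.log (Real.log T) := by linarith
      have hA0 : 0 < A := by linarith
      have hlogy : Real.log (Real.log T ^ A) = A * Real.log (Real.log T) :=
        Real.log_rpow hL0 A
      set n := Module.finrank ℚ K with hndef
      have hexp : Real.exp (2 * n * Real.log (Real.log (Real.log T ^ A)) + C0 * n) ≤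
          Real.exp (C0 * d) * A ^ (2 * d) * Real.log (Real.log T) ^ (2 * n) := by
        rw [hlogy, Real.exp_add]
        have h1 : Real.exp (2 * n * Real.log (A * Real.log (Real.log T))) =
            (A * Real.log (Real.log T)) ^ (2 * n) := by
          have h2 : 0 < A * Real.log (Real.log T) := by positivity
          rw [← Real.exp_log (pow_pos h2 (2 * n)), Real.log_pow]
          push_cast
          ring_nf
        rw [h1, mul_pow]
        have h2 : A ^ (2 * n) ≤ A ^ (2 * d) :=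
          pow_le_pow_right₀ (by linarith) (by have := hD.deg; omega)
        have h3 : Real.exp (C0 * n) ≤ Real.exp (C0 * d) :=
          Real.exp_le_exp.2 (mul_le_mul_of_nonneg_left hn hC0)
        calc A ^ (2 * n) * Real.log (Real.log T) ^ (2 * n) * Real.exp (C0 * n)
            ≤ A ^ (2 * d) * Real.log (Real.log T) ^ (2 * n) * Real.exp (C0 * d) := by gcongr
          _ = _ := by ring
      have hlP : |‖l‖ - P| ≤ P / 2 := by
        refine (abs_norm_sub_norm_le _ _).trans (hclose.trans ?_)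
        nlinarith
      obtain ⟨h1, h2⟩ := abs_le.1 hlP
      constructor
      · have h3 : P ≤ 2 * ‖l‖ := by linarith
        have h4 : Real.exp (-(2 * n * Real.log (Real.log (Real.log T ^ A)) + C0 * n)) ≤
            2 * ‖l‖ := hs1.trans h3
        rw [Real.exp_neg] at h4
        have h5 : 0 < Real.exp (2 * n * Real.log (Real.log (Real.log T ^ A)) + C0 * n) :=
          Real.exp_pos _
        rw [div_le_iff₀ (by positivity)]
        have h6 : 1 ≤ 2 * ‖l‖ * Real.exp (2 * n * Real.log (Real.log (Real.log T ^ A)) +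
            C0 * n) := by
          have h7 := mul_le_mul_of_nonneg_right h4 h5.le
          rwa [inv_mul_cancel₀ h5.ne'] at h7
        calc (1 : ℝ) ≤ 2 * ‖l‖ * Real.exp (2 * n * Real.log (Real.log (Real.log T ^ A)) +
            C0 * n) := h6
          _ ≤ 2 * ‖l‖ * (Real.exp (C0 * d) * A ^ (2 * d) *
              Real.log (Real.log T) ^ (2 * n)) :=
              mul_le_mul_of_nonneg_left hexp (by positivity)
          _ = _ := by ring
      · calc ‖l‖ ≤ 2 * P := by linarith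
          _ ≤ 2 * (Real.exp (C0 * d) * A ^ (2 * d) * Real.log (Real.log T) ^ (2 * n)) :=
              mul_le_mul_of_nonneg_left (hs2.trans hexp) (by norm_num)
          _ = _ := by ring

end Pool.Agent.Y834.EA
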