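import Pool.Agent.Y834.EA.Lip
import Pool.Agent.Y834.EA.LogL

/-!
# The L-function near the edge, in almost all windows
-/

set_option autoImplicit false

namespace Pool.Agent.Y834.EA

open MeasureTheory Filter Topology NumberField IsDedekindDomain Finset
  Pool.Agent.H921R2.TatePole
  Pool.Agent.H341R2 Pool.Agent.H341R2.EC Pool.Agent.W350.Edge Pool.Agent.W350.EdgeV
  Pool.Agent.W350.EdgeNF Pool.Agent.W350.EdgeEC Polynomial

section
variable {K : Type} [Field K] [NumberField K]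

/-- absolute convergence of the Euler product -/
theorem multipliable_lf (W : HeightOneSpectrum (𝓞 K) → WeierstrassCurve (𝓞 K)) {s : ℂ}
    (hs : 3 / 2 < s.re) : Multipliable (fun v => lf W v s) := by
  classical
  have h1 : Summable fun v : HeightOneSpectrum (𝓞 K) => ((below v : ℕ) : ℝ) ^ (-(3 / 2) : ℝ) :=
    summable_of_sum_le (fun _ => by positivity) (sum_below (K := K))
  have h2 : Summable fun v : HeightOneSpectrum (𝓞 K) => 2 * (nm v : ℝ) ^ (-(s.re - 1 / 2)) :=
    (hpow (s.re - 1 / 2) (by linarith)).mul_left 2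
  have h3 : Summable fun v => Complex.log (lf W v s) := by
    refine Summable.of_norm_bounded ((h1.mul_left 84).add h2) fun v => ?_
    have h4 := norm_log_lf_sub W v hs.le
    have h0 := nm_pos v
    have h5 : ‖(if (nm v).Prime then (trc W v : ℂ) * (nm v : ℂ) ^ (-s) else 0)‖ ≤
        2 * (nm v : ℝ) ^ (-(s.re - 1 / 2)) := by
      split_ifs with hp
      · rw [norm_mul, Complex.norm_intCast, Complex.norm_natCast_cpow_of_pos (hN v),
          Complex.neg_re]
        have h6 := trc_prime W hp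
        have h7 : Real.sqrt (nm v) * (nm v : ℝ) ^ (-s.re) = (nm v : ℝ) ^ (-(s.re - 1 / 2)) := by
          rw [Real.sqrt_eq_rpow, ← Real.rpow_add h0]
          congr 1
          ring
        calc |(trc W v : ℝ)| * (nm v : ℝ) ^ (-s.re)
            ≤ (2 * Real.sqrt (nm v)) * (nm v : ℝ) ^ (-s.re) :=
              mul_le_mul_of_nonneg_right h6 (by positivity)
          _ = 2 * (Real.sqrt (nm v) * (nm v : ℝ) ^ (-s.re)) := by ring
          _ = _ := by rw [h7]
      · rw [norm_zero]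
        positivity
    have h6 : Complex.log (lf W v s) = (Complex.log (lf W v s) -
        (if (nm v).Prime then (trc W v : ℂ) * (nm v : ℂ) ^ (-s) else 0)) +
        (if (nm v).Prime then (trc W v : ℂ) * (nm v : ℂ) ^ (-s) else 0) := by ring
    rw [h6]
    exact (norm_add_le _ _).trans (add_le_add h4 h5)
  have h4 := h3.hasSum.cexp.multipliable
  refine h4.congr fun v => ?_
  simp only [Function.comp_apply]
  exact Complex.exp_log (lf_ne_zero W v hs.le)

end

/-- the union of the exceptional sets of a grid -/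
noncomputable def YY (d : ℕ) (δ A B ρ T : ℝ) : Set ℝ :=
  ⋃ z ∈ box d (T ^ δ), ⋃ g ∈ range (⌊1 / ρ⌋₊ + 1),
    ⋃ a ∈ ({-(2 * T), -T, 0, T} : Finset ℝ), Exc A B T (cz d z (g * ρ)) a

/-- outside the bad windows the tails are small -/
lemma good_window {d : ℕ} {δ A B ρ T η₀ : ℝ} (hη₀ : 0 < η₀) (hη₀1 : η₀ ≤ 1)
    (hρ : ρ = Real.log T ^ (-(B + 1)) * η₀ ^ 2 / (32 * (2 * d + 1))) (hB : 0 ≤ B)
    (hT8 : 8 ≤ T) (hL : 10 ≤ Real.log T) {z : Fin 3 → Fin (d + 1) → ℤ} (hz : z ∈ box d (T ^ δ))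
    {η τ : ℝ} (hη : η₀ ≤ η) (hη1 : η ≤ 1) (hτ : |τ| ≤ T)
    (hgood : ¬ ENNReal.ofReal ρ ≤
      volume (YY d δ A (B + 3) ρ T ∩ Set.Ioc ((⌊τ⌋ : ℝ) - 1) (⌊τ⌋ + 2))) (i : ℕ) :
    ‖SS (PR (Real.log T ^ A) (xe T i)) (cz d z η) τ‖ ≤ 2 * Real.log T ^ (-(B + 1)) := by
  have hL0 : 0 < Real.log T := by linarith
  set L := Real.log T with hLdef
  set lam : ℝ := L ^ (-(B + 1)) with hlam
  have hlam0 : 0 < lam := by positivity
  have hlam1 : lam ≤ 1 := Real.rpow_le_one_of_one_le_of_nonpos (by linarith) (by linarith)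
  have hd0 : (0 : ℝ) ≤ d := Nat.cast_nonneg d
  have hρ0 : 0 < ρ := by rw [hρ]; positivity
  have hρη : ρ ≤ η₀ / 2 := by
    rw [hρ, div_le_iff₀ (by positivity)]
    have h1 : lam * η₀ ^ 2 ≤ 1 * (η₀ * 1) := by
      rw [sq]
      exact mul_le_mul hlam1 (mul_le_mul_of_nonneg_left hη₀1 hη₀.le) (by positivity) zero_le_one
    nlinarith
  by_contra hbad
  push Not at hbad
  apply hgood
  set g : ℕ := ⌊η / ρ⌋₊ with hg
  have hg1 : (g : ℝ) * ρ ≤ η := by
    have := Nat.floor_le (show 0 ≤ η / ρ from div_nonneg (hη₀.le.trans hη) hρ0.le)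
    rwa [le_div_iff₀ hρ0] at this
  have hg2 : η < g * ρ + ρ := by
    have := Nat.lt_floor_add_one (η / ρ)
    rw [div_lt_iff₀ hρ0] at this
    linarith
  have hgmem : g ∈ range (⌊1 / ρ⌋₊ + 1) := by
    rw [mem_range, Nat.lt_succ_iff]
    exact Nat.floor_le_floor (div_le_div_of_nonneg_right hη1 hρ0.le)
  have hgη : η₀ / 2 ≤ g * ρ := by linarith
  have hfl1 := Int.floor_le τ
  have hfl2 := Int.lt_floor_add_one τ
  obtain ⟨hτ1, hτ2⟩ := abs_le.1 hτ
  have hsub : Set.Ioc τ (τ + ρ) ⊆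
      YY d δ A (B + 3) ρ T ∩ Set.Ioc ((⌊τ⌋ : ℝ) - 1) (⌊τ⌋ + 2) := by
    intro τ' hτ'
    obtain ⟨h1, h2⟩ := hτ'
    have hρ1 : ρ ≤ 1 := by linarith
    refine ⟨?_, by linarith, by linarith⟩
    obtain ⟨u, hu, hτu⟩ : ∃ u ∈ ({-(2 * T), -T, 0, T} : Finset ℝ), τ' ∈ Set.Ioc u (u + T) := by
      rcases le_or_gt τ' (-T) with h3 | h3
      · exact ⟨-(2 * T), by simp, by linarith, by linarith⟩
      · rcases le_or_gt τ' 0 with h4 | h4
        · exact ⟨-T, by simp, h3, by linarith⟩
        · rcases le_or_gt τ' T with h5 | h5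
          · exact ⟨0, by simp, h4, by linarith⟩
          · exact ⟨T, by simp, h5, by linarith⟩
    unfold YY
    rw [Set.mem_iUnion₂]
    refine ⟨z, hz, ?_⟩
    rw [Set.mem_iUnion₂]
    refine ⟨g, hgmem, ?_⟩
    rw [Set.mem_iUnion₂]
    refine ⟨u, hu, ?_⟩
    by_contra hnot
    have h3 := partial_bound (A := A) (B := B + 3) hT8 (by linarith) (cz d z (g * ρ)) hτu hnot i
    rw [← hLdef] at h3
    have h4 := lip (D := 2 * d) (by positivity) (by positivity : 0 < η₀ / 2) (Pool.Agent.Y834.EA.hz d z)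
      (norm_hz d z) (L ^ A) (xe T i) (η := η) (η' := g * ρ) (τ := τ) (τ' := τ') (by linarith) hgη
    have h5 : |η - g * ρ| + |τ - τ'| ≤ 2 * ρ := by
      rw [abs_of_nonneg (by linarith), abs_of_neg (by linarith)]
      linarith
    have h6 : 2 * (d : ℝ) * (4 / (η₀ / 2) ^ 2) * (|η - g * ρ| + |τ - τ'|) ≤ lam := by
      calc 2 * (d : ℝ) * (4 / (η₀ / 2) ^ 2) * (|η - g * ρ| + |τ - τ'|)
          ≤ (2 * d + 1) * (4 / (η₀ / 2) ^ 2) * (2 * ρ) := by
            have : 2 * (d : ℝ) ≤ 2 * d + 1 := by linarith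
            gcongr
        _ = lam := by
            rw [hρ]
            field_simp
            ring
    have h7 : 9 * L ^ (1 - (B + 3)) ≤ lam := by
      have h8 : L ^ (1 - (B + 3)) = lam / L := by
        rw [hlam, show (1 - (B + 3) : ℝ) = -(B + 1) - 1 by ring, Real.rpow_sub hL0, Real.rpow_one]
      rw [h8, mul_div_assoc', div_le_iff₀ hL0]
      nlinarith
    have h8 := norm_sub_norm_le (SS (PR (L ^ A) (xe T i)) (cz d z η) τ)
      (SS (PR (L ^ A) (xe T i)) (cz d z (g * ρ)) τ')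
    have h9 : ‖SS (PR (L ^ A) (xe T i)) (cz d z η) τ -
        SS (PR (L ^ A) (xe T i)) (cz d z (g * ρ)) τ'‖ ≤ lam := h4.trans h6
    linarith
  refine le_trans (le_of_eq ?_) (measure_mono hsub)
  rw [Real.volume_Ioc]
  congr 1
  ring

/-- **Main theorem near the edge.** -/
theorem main4 (d : ℕ) (ε B : ℝ) (hε : 0 < ε) (hB : 0 ≤ B) :
    ∃ A δ C : ℝ, 1 ≤ A ∧ 0 < δ ∧ 0 < C ∧ ∀ᶠ T : ℝ in atTop, ∃ M : Finset ℤ,
      (M.card : ℝ) ≤ T ^ ε ∧
      ∀ (K : Type) [Field K] [NumberField K] (θ : 𝓞 K) (a b : ℤ[X]), Dt d (T ^ δ) θ a b →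
        ∀ W : HeightOneSpectrum (𝓞 K) → WeierstrassCurve (𝓞 K),
          (∀ v, IsMinAt (twist (crv θ a b) 1) v (W v)) →
        ∀ s : ℂ, |s.im| ≤ T → ⌊s.im⌋ ∉ M → 3 / 2 + T ^ (-δ) ≤ s.re →
          Multipliable (fun v => lf W v s) ∧
          ‖∏' v, lf W v s - Py W (Real.log T ^ A) s‖ ≤
            Real.log T ^ (-B) * ‖Py W (Real.log T ^ A) s‖ ∧
          1 / (C * Real.log (Real.log T) ^ (2 * Module.finrank ℚ K)) ≤ ‖∏' v, lf W v s‖ ∧
          ‖∏' v, lf W v s‖ ≤ C * Real.log (Real.log T) ^ (2 * Module.finrank ℚ K) := by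
  classical
  obtain ⟨C0, hC0, hsize⟩ := size_Py
  set e1 : ℝ := min ε 1 / 16 with he1
  have he0 : 0 < e1 := by
    have : 0 < min ε 1 := lt_min hε one_pos
    positivity
  have he4 : e1 ≤ 1 / 16 := by
    have := min_le_right ε 1
    linarith
  have heε : 16 * e1 ≤ ε := by
    have := min_le_left ε 1
    linarith
  set A : ℝ := 1 + (2 * (B + 3) + 2) * 4 / e1 with hAdef
  have hA : 128 * B + 500 ≤ A := by
    have h1 : (2 * (B + 3) + 2) * 64 ≤ (2 * (B + 3) + 2) * 4 / e1 := by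
      rw [le_div_iff₀ he0]
      nlinarith
    linarith
  set δ : ℝ := e1 / (3 * (d + 1)) with hδdef
  have hd0 : (0 : ℝ) ≤ d := Nat.cast_nonneg d
  have hδ0 : 0 < δ := by positivity
  have hδe : δ ≤ e1 := by
    rw [hδdef, div_le_iff₀ (by positivity)]
    nlinarith
  have hδ1 : δ ≤ 1 := by linarith
  refine ⟨A, δ, 2 * Real.exp (C0 * d) * A ^ (2 * d), by linarith, hδ0, by positivity, ?_⟩
  set CC : ℝ := 24 * 3 ^ (3 * (d + 1)) * (32 * (2 * d + 1)) ^ 2 with hCC
  have hpowev : ∀ᶠ T : ℝ in atTop, CC * Real.log T ^ (2 * (B + 1)) ≤ T ^ e1 := by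
    have h1 := ((isLittleO_log_rpow_rpow_atTop (2 * (B + 1)) he0).const_mul_left CC).bound
      (zero_lt_one : (0 : ℝ) < 1)
    filter_upwards [h1, eventually_ge_atTop 1] with T hT hT1
    have h2 : 0 ≤ Real.log T := Real.log_nonneg hT1
    rw [one_mul, Real.norm_of_nonneg (by positivity), Real.norm_of_nonneg (by positivity)] at hT
    exact hT
  have hll : Tendsto (fun T => Real.log (Real.log T)) atTop atTop :=
    Real.tendsto_log_atTop.comp Real.tendsto_log_atTop
  filter_upwards [exc_small (2 * d) e1 (B + 3) he0 (by linarith), eventually_ge_atTop 8,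
    Real.tendsto_log_atTop.eventually_ge_atTop 10, hpowev,
    EE_small d hδ0.le hδ1 hB (by linarith : 4 * B + 4 ≤ A), hll.eventually_ge_atTop 1,
    Real.tendsto_log_atTop.eventually_ge_atTop (2 * d * ZZ)]
    with T hexc hT8 hL10 hpow hEE hll1 hLd
  rw [← hAdef] at hexc
  have hT0 : 0 < T := by linarith
  have hL0 : 0 < Real.log T := by linarith
  have hL2 : 2 ≤ Real.log T := by linarith
  set L := Real.log T with hLdef
  set η₀ : ℝ := T ^ (-δ) with hη₀def
  have hη₀ : 0 < η₀ := by positivity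
  have hη₀1 : η₀ ≤ 1 := Real.rpow_le_one_of_one_le_of_nonpos (by linarith) (by linarith)
  set ρ : ℝ := L ^ (-(B + 1)) * η₀ ^ 2 / (32 * (2 * d + 1)) with hρ
  have hρ0 : 0 < ρ := by positivity
  have hlam1 : L ^ (-(B + 1)) ≤ 1 :=
    Real.rpow_le_one_of_one_le_of_nonpos (by linarith) (by linarith)
  have hρ1 : ρ ≤ 1 := by
    rw [hρ, div_le_one (by positivity)]
    have h1 : L ^ (-(B + 1)) * η₀ ^ 2 ≤ 1 * 1 :=
      mul_le_mul hlam1 (by nlinarith) (by positivity) zero_le_one
    nlinarith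
  set M : Finset ℤ := (Finset.Icc (-⌈T⌉ - 1) (⌈T⌉ + 1)).filter fun m =>
    ENNReal.ofReal ρ ≤ volume (YY d δ A (B + 3) ρ T ∩ Set.Ioc ((m : ℝ) - 1) (m + 2)) with hM
  refine ⟨M, ?_, ?_⟩
  · -- counting
    have hvol : volume (YY d δ A (B + 3) ρ T) ≤
        ENNReal.ofReal (3 ^ (3 * (d + 1)) * T ^ e1 * (2 / ρ) * (4 * T ^ e1)) := by
      have h1 : volume (YY d δ A (B + 3) ρ T) ≤ ∑ z ∈ box d (T ^ δ),
          ∑ g ∈ range (⌊1 / ρ⌋₊ + 1), ∑ a ∈ ({-(2 * T), -T, 0, T} : Finset ℝ),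
            ENNReal.ofReal (T ^ e1) := by
        unfold YY
        refine (measure_biUnion_finset_le _ _).trans (Finset.sum_le_sum fun z _ => ?_)
        refine (measure_biUnion_finset_le _ _).trans (Finset.sum_le_sum fun g _ => ?_)
        refine (measure_biUnion_finset_le _ _).trans (Finset.sum_le_sum fun a _ => ?_)
        refine hexc (cz d z (g * ρ)) (fun p hp => ?_) a
        have := norm_cz d z (η := g * ρ) (by positivity) p hp
        simpa using this
      refine h1.trans ?_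
      rw [Finset.sum_const, Finset.sum_const, Finset.sum_const, nsmul_eq_mul, nsmul_eq_mul,
        nsmul_eq_mul, ← ENNReal.ofReal_natCast, ← ENNReal.ofReal_natCast,
        ← ENNReal.ofReal_natCast, ← ENNReal.ofReal_mul (Nat.cast_nonneg _),
        ← ENNReal.ofReal_mul (Nat.cast_nonneg _), ← ENNReal.ofReal_mul (Nat.cast_nonneg _)]
      refine ENNReal.ofReal_le_ofReal ?_
      have hH1 : 1 ≤ T ^ δ := Real.one_le_rpow (by linarith) hδ0.le
      have h2 := card_box d hH1
      have h3 : ((({-(2 * T), -T, 0, T} : Finset ℝ).card : ℕ) : ℝ) ≤ 4 := by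
        exact_mod_cast Finset.card_le_four
      have h4 : (3 * T ^ δ) ^ (3 * (d + 1)) = 3 ^ (3 * (d + 1)) * T ^ e1 := by
        rw [mul_pow, ← Real.rpow_natCast (T ^ δ), ← Real.rpow_mul hT0.le]
        congr 2
        rw [hδdef]
        push_cast
        field_simp
      rw [h4] at h2
      have h5 : 0 < T ^ e1 := by positivity
      have h6 : (((range (⌊1 / ρ⌋₊ + 1)).card : ℕ) : ℝ) ≤ 2 / ρ := by
        rw [card_range]
        push_cast
        have h7 := Nat.floor_le (show 0 ≤ 1 / ρ by positivity)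
        have h8 : 1 ≤ 1 / ρ := by
          rw [le_div_iff₀ hρ0]
          linarith
        have h9 : 2 / ρ = 1 / ρ + 1 / ρ := by ring
        linarith
      calc ((box d (T ^ δ)).card : ℝ) * ((((range (⌊1 / ρ⌋₊ + 1)).card : ℕ) : ℝ) *
            (((({-(2 * T), -T, 0, T} : Finset ℝ).card : ℕ) : ℝ) * T ^ e1))
          ≤ (3 ^ (3 * (d + 1)) * T ^ e1) * ((2 / ρ) * (4 * T ^ e1)) := by gcongr
        _ = _ := by ring
    have h1 := count_windows (by positivity) hvol M (fun m hm => (mem_filter.1 hm).2)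
    have h2 : (M.card : ℝ) ≤ 24 * 3 ^ (3 * (d + 1)) * (T ^ e1 * T ^ e1) * (1 / ρ) ^ 2 := by
      have h3 : (M.card : ℝ) ≤
          3 * (3 ^ (3 * (d + 1)) * T ^ e1 * (2 / ρ) * (4 * T ^ e1)) / ρ := by
        rw [le_div_iff₀ hρ0]
        exact h1
      refine h3.trans (le_of_eq ?_)
      field_simp
      ring
    have h3 : (1 / ρ) ^ 2 = (32 * (2 * d + 1)) ^ 2 * (L ^ (2 * (B + 1)) * T ^ (4 * δ)) := by
      have h4 : (L ^ (-(B + 1))) ^ 2 = (L ^ (2 * (B + 1)))⁻¹ := by
        rw [← Real.rpow_natCast, ← Real.rpow_mul hL0.le, ← Real.rpow_neg hL0.le]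
        congr 1
        push_cast
        ring
      have h5 : (η₀ ^ 2) ^ 2 = (T ^ (4 * δ))⁻¹ := by
        rw [hη₀def, ← pow_mul, ← Real.rpow_natCast, ← Real.rpow_mul hT0.le,
          ← Real.rpow_neg hT0.le]
        congr 1
        push_cast
        ring
      rw [hρ, one_div, inv_pow, div_pow, mul_pow, h4, h5]
      field_simp
    rw [h3] at h2
    have h4 : T ^ (4 * δ) ≤ T ^ (4 * e1) :=
      Real.rpow_le_rpow_of_exponent_le (by linarith) (by linarith)
    calc (M.card : ℝ) ≤ 24 * 3 ^ (3 * (d + 1)) * (T ^ e1 * T ^ e1) *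
          ((32 * (2 * d + 1)) ^ 2 * (L ^ (2 * (B + 1)) * T ^ (4 * δ))) := h2
      _ = (CC * L ^ (2 * (B + 1))) * (T ^ e1 * T ^ e1) * T ^ (4 * δ) := by
          rw [hCC]
          ring
      _ ≤ T ^ e1 * (T ^ e1 * T ^ e1) * T ^ (4 * e1) := by gcongr
      _ = T ^ (7 * e1) := by
          rw [← Real.rpow_add hT0, ← Real.rpow_add hT0, ← Real.rpow_add hT0]
          congr 1
          ring
      _ ≤ T ^ ε := Real.rpow_le_rpow_of_exponent_le (by linarith) (by linarith)
  · intro K _ _ θ a b hD W hW s hsT hsM hsre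
    set η : ℝ := s.re - 3 / 2 with hηdef
    have hη : η₀ ≤ η := by linarith
    have hη0 : 0 ≤ η := by linarith
    have hs : s = ((3 / 2 : ℝ) : ℂ) + (s.im : ℂ) * Complex.I + (η : ℂ) := by
      refine Complex.ext ?_ ?_
      · simp [hηdef]
      · simp
    have hre' : (3 / 2 : ℝ) < s.re := by linarith
    have hre : (3 / 2 : ℝ) ≤ s.re := hre'.le
    have hmult := multipliable_lf W hre'
    set z := ix d (minpoly ℤ θ) a b with hz'
    have hzbox : z ∈ box d (T ^ δ) := ix_mem hD.hθ hD.hA hD.hB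
    have hmatch := match_ix hD.gen hD.deg hD.dA hD.dB
    have hcz : cz d z η = cf (𝓞 K) (PP θ a) (QQ θ b) η := by
      funext p
      unfold cz cf
      rw [hz_eq hmatch]
    have hgood : ¬ ENNReal.ofReal ρ ≤
        volume (YY d δ A (B + 3) ρ T ∩ Set.Ioc ((⌊s.im⌋ : ℝ) - 1) (⌊s.im⌋ + 2)) := by
      intro h
      apply hsM
      rw [hM, mem_filter, mem_Icc]
      obtain ⟨h1, h2⟩ := abs_le.1 hsT
      have h3 := Int.floor_le s.im
      have h4 := Int.lt_floor_add_one s.im
      have h5 := Int.le_ceil T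
      refine ⟨⟨?_, ?_⟩, h⟩
      · have h6 : ((-⌈T⌉ - 1 : ℤ) : ℝ) ≤ (⌊s.im⌋ : ℝ) := by
          push_cast
          linarith
        exact_mod_cast h6
      · have h6 : (⌊s.im⌋ : ℝ) ≤ ((⌈T⌉ + 1 : ℤ) : ℝ) := by
          push_cast
          linarith
        exact_mod_cast h6
    have hlam0 : 0 < L ^ (-(B + 1)) := by positivity
    have hy16 : (16 : ℝ) ≤ L ^ A := by
      calc (16 : ℝ) = 2 ^ (4 : ℝ) := by norm_num
        _ ≤ L ^ (4 : ℝ) := Real.rpow_le_rpow (by norm_num) hL2 (by norm_num)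
        _ ≤ _ := Real.rpow_le_rpow_of_exponent_le (by linarith) (by linarith)
    have hpart : ∀ i, ‖SS (PR (L ^ A) (xe T i)) (cz d z η) s.im‖ ≤ 9 * L ^ (1 - (B + 2)) := by
      intro i
      have h0 : L ^ (1 - (B + 2)) = L ^ (-(B + 1)) := by
        congr 1
        ring
      rw [h0]
      rcases le_or_gt η 1 with h1 | h1
      · have h2 := good_window (A := A) hη₀ hη₀1 hρ hB hT8 hL10 hzbox hη h1 hsT hgood i
        rw [← hLdef] at h2
        linarith
      · have h2 := far (D := 2 * d) (by positivity) (Pool.Agent.Y834.EA.hz d z) (norm_hz d z)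
          (by linarith : 1 ≤ L ^ A) (xe T i) h1.le s.im
        have h3 : (L ^ A) ^ (-(1 / 4) : ℝ) ≤ L ^ (-(B + 1)) / L := by
          rw [← Real.rpow_mul hL0.le]
          have h4 : L ^ (-(B + 1)) / L = L ^ (-(B + 1) - 1) := by
            rw [Real.rpow_sub hL0, Real.rpow_one]
          rw [h4]
          exact Real.rpow_le_rpow_of_exponent_le (by linarith) (by linarith)
        have hZ := ZZ_nonneg
        calc ‖SS (PR (L ^ A) (xe T i)) (cz d z η) s.im‖
            ≤ 2 * d * ((L ^ A) ^ (-(1 / 4) : ℝ) * ZZ) := h2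
          _ ≤ 2 * d * ((L ^ (-(B + 1)) / L) * ZZ) := by gcongr
          _ = (2 * d * ZZ) * (L ^ (-(B + 1)) / L) := by ring
          _ ≤ L * (L ^ (-(B + 1)) / L) := mul_le_mul_of_nonneg_right hLd (by positivity)
          _ = L ^ (-(B + 1)) := by field_simp
          _ ≤ _ := by linarith
    rw [hcz] at hpart
    have hLB1 : L ^ (-B) ≤ 1 :=
      Real.rpow_le_one_of_one_le_of_nonpos (by linarith) (by linarith)
    have hLB0 : 0 < L ^ (-B) := by positivity
    have hn : (Module.finrank ℚ K : ℝ) ≤ d := by exact_mod_cast hD.deg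
    set l : ℂ := ∏' v, lf W v s with hl
    have hclose : ‖l - Py W (L ^ A) s‖ ≤ L ^ (-B) / 2 * ‖Py W (L ^ A) s‖ := by
      have hK1 : 1 ≤ K0 T := by
        unfold K0
        exact Nat.one_le_ceil_iff.2 (by positivity)
      have hxe := tendsto_xe hT0 hK1
      have h0 : Tendsto (fun x => ∏ v ∈ FV nm hfin x, lf W v s) atTop (𝓝 l) :=
        hmult.hasProd.comp (tendsto_FV hfin)
      have h1 : Tendsto (fun i => ‖∏ v ∈ FV nm hfin (xe T i), lf W v s -
          Py W (L ^ A) s‖) atTop (𝓝 ‖l - Py W (L ^ A) s‖) :=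
        ((h0.comp hxe).sub_const _).norm
      refine le_of_tendsto h1 ?_
      filter_upwards [hxe.eventually_ge_atTop ⌈L ^ A⌉₊] with i hi
      have h2 := ratio W (good_trc hW) (hD.count) hy16 hi s.im hη0
        (E := L ^ (-B) / 4) (by linarith) (by
          refine le_trans ?_ hEE
          unfold EE
          rw [← hLdef]
          have h3 := hpart i
          have h4 : 0 ≤ (L ^ A) ^ (-(1 / 4) : ℝ) := by positivity
          have h5 := ZZ_nonneg
          have h6 : (L ^ A) ^ (-(1 / 4) : ℝ) * (Module.finrank ℚ K * ZZ) ≤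
              (L ^ A) ^ (-(1 / 4) : ℝ) * (d * ZZ) := by gcongr
          refine add_le_add (add_le_add h3 (mul_le_mul_of_nonneg_left h6 (by norm_num))) le_rfl)
      rw [← hs] at h2
      refine h2.trans (le_of_eq ?_)
      ring
    refine ⟨hmult, ?_, ?_⟩
    · refine hclose.trans ?_
      refine mul_le_mul_of_nonneg_right ?_ (norm_nonneg _)
      linarith
    · -- the size
      obtain ⟨hs1, hs2⟩ := hsize K W (L ^ A) (by linarith) s hre
      set P := ‖Py W (L ^ A) s‖ with hP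
      have hP0 : 0 ≤ P := norm_nonneg _
      have hll0 : 0 < Real.log L := by linarith
      have hA0 : 0 < A := by linarith
      have hlogy : Real.log (L ^ A) = A * Real.log L := Real.log_rpow hL0 A
      set n := Module.finrank ℚ K with hndef
      have hexp : Real.exp (2 * n * Real.log (Real.log (L ^ A)) + C0 * n) ≤
          Real.exp (C0 * d) * A ^ (2 * d) * Real.log L ^ (2 * n) := by
        rw [hlogy, Real.exp_add]
        have h1 : Real.exp (2 * n * Real.log (A * Real.log L)) =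
            (A * Real.log L) ^ (2 * n) := by
          have h2 : 0 < A * Real.log L := by positivity
          rw [← Real.exp_log (pow_pos h2 (2 * n)), Real.log_pow]
          push_cast
          ring_nf
        rw [h1, mul_pow]
        have h2 : A ^ (2 * n) ≤ A ^ (2 * d) :=
          pow_le_pow_right₀ (by linarith) (by have := hD.deg; omega)
        have h3 : Real.exp (C0 * n) ≤ Real.exp (C0 * d) :=
          Real.exp_le_exp.2 (mul_le_mul_of_nonneg_left hn hC0)
        calc A ^ (2 * n) * Real.log L ^ (2 * n) * Real.exp (C0 * n)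
            ≤ A ^ (2 * d) * Real.log L ^ (2 * n) * Real.exp (C0 * d) := by gcongr
          _ = _ := by ring
      have hlP : |‖l‖ - P| ≤ P / 2 := by
        refine (abs_norm_sub_norm_le _ _).trans (hclose.trans ?_)
        nlinarith
      obtain ⟨h1, h2⟩ := abs_le.1 hlP
      constructor
      · have h3 : P ≤ 2 * ‖l‖ := by linarith
        have h4 : Real.exp (-(2 * n * Real.log (Real.log (L ^ A)) + C0 * n)) ≤
            2 * ‖l‖ := hs1.trans h3
        rw [Real.exp_neg] at h4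
        have h5 : 0 < Real.exp (2 * n * Real.log (Real.log (L ^ A)) + C0 * n) :=
          Real.exp_pos _
        rw [div_le_iff₀ (by positivity)]
        have h6 : 1 ≤ 2 * ‖l‖ * Real.exp (2 * n * Real.log (Real.log (L ^ A)) +
            C0 * n) := by
          have h7 := mul_le_mul_of_nonneg_right h4 h5.le
          rwa [inv_mul_cancel₀ h5.ne'] at h7
        calc (1 : ℝ) ≤ 2 * ‖l‖ * Real.exp (2 * n * Real.log (Real.log (L ^ A)) +
            C0 * n) := h6
          _ ≤ 2 * ‖l‖ * (Real.exp (C0 * d) * A ^ (2 * d) * Real.log L ^ (2 * n)) :=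
              mul_le_mul_of_nonneg_left hexp (by positivity)
          _ = _ := by ring
      · calc ‖l‖ ≤ 2 * P := by linarith
          _ ≤ 2 * (Real.exp (C0 * d) * A ^ (2 * d) * Real.log L ^ (2 * n)) :=
              mul_le_mul_of_nonneg_left (hs2.trans hexp) (by norm_num)
          _ = _ := by ring

end Pool.Agent.Y834.EA
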