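import Pool.Agent.Y834.EA.Fill

/-!
# All unimodular twists are realised on the edge, simultaneously for all curves
-/

set_option autoImplicit false

namespace Pool.Agent.Y834.EA

open MeasureTheory Filter Topology NumberField IsDedekindDomain Finset
  Pool.Agent.H921R2.TatePole
  Pool.Agent.H341R2 Pool.Agent.H341R2.EC Pool.Agent.W350.Edge Pool.Agent.W350.EdgeV
  Pool.Agent.W350.EdgeNF Pool.Agent.W350.EdgeEC Polynomial

/-- choice of the parameters -/
lemma params (D ε : ℝ) (hD : 0 ≤ D) (hε : 0 < ε) (hε1 : ε ≤ 1) :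
    ∀ᶠ T : ℝ in atTop, ∃ k : ℕ, 0 < T ∧ 1 ≤ Real.log T ^ (1 - ε) ∧
      4 * ((Real.log T ^ (1 - ε)) ^ k) ^ 2 ≤ T ∧
      (∀ M : ℝ, 1 ≤ M → M ≤ D * (1 + Real.log ⌈Real.log T ^ (1 - ε)⌉₊) →
        Real.exp (-(k * (1 / (2 * M ^ 2)))) ≤
          1 / (4 * ((k : ℝ) + 1) ^ (PS ⌈Real.log T ^ (1 - ε)⌉₊).card)) ∧
      T ^ (1 - ε) ≤ T / (4 * ((k : ℝ) + 1) ^ (PS ⌈Real.log T ^ (1 - ε)⌉₊).card) := by
  have hlog : Tendsto Real.log atTop atTop := Real.tendsto_log_atTop
  have hev : ∀ᶠ L : ℝ in atTop, 2 ≤ L ∧ Real.log L ≤ L ^ (ε / 16) ∧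
      8 + 4 / ε + 400 * D ^ 2 ≤ L ^ (ε / 16) := by
    have h1 : ∀ᶠ L : ℝ in atTop, Real.log L ≤ L ^ (ε / 16) := by
      have h2 := (isLittleO_log_rpow_atTop (r := ε / 16) (by positivity)).bound
        (zero_lt_one : (0 : ℝ) < 1)
      filter_upwards [h2, eventually_ge_atTop 1] with L hL hL1
      rw [one_mul, Real.norm_eq_abs, Real.norm_eq_abs,
        abs_of_nonneg (Real.log_nonneg hL1), abs_of_nonneg (by positivity)] at hL
      exact hL
    have h3 : Tendsto (fun L : ℝ => L ^ (ε / 16)) atTop atTop :=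
      tendsto_rpow_atTop (by positivity)
    filter_upwards [eventually_ge_atTop 2, h1, h3.eventually_ge_atTop (8 + 4 / ε + 400 * D ^ 2)]
      with L h4 h5 h6
    exact ⟨h4, h5, h6⟩
  filter_upwards [hlog.eventually hev, eventually_gt_atTop 0] with T hT hT0
  obtain ⟨hL2, hll, hX⟩ := hT
  set L := Real.log T with hL
  have hL0 : 0 < L := by linarith
  have hL1 : 1 ≤ L := by linarith
  set X : ℝ := L ^ (ε / 16) with hXdef
  set Y : ℝ := L ^ (1 - ε) with hYdef
  have hε4 : 0 < 4 / ε := by positivity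
  have hD2 : 0 ≤ D ^ 2 := sq_nonneg D
  have hX8 : 8 ≤ X := by linarith
  have hX0 : 0 < X := by linarith
  have hY1 : 1 ≤ Y := Real.one_le_rpow hL1 (by linarith)
  have hY0 : 0 < Y := by linarith
  have hLXY : L = Y * X ^ 16 := by
    rw [hXdef, hYdef, ← Real.rpow_natCast, ← Real.rpow_mul hL0.le, ← Real.rpow_add hL0]
    have : 1 - ε + ε / 16 * ((16 : ℕ) : ℝ) = 1 := by push_cast; ring
    rw [this, Real.rpow_one]
  set k : ℕ := ⌊Y * X ^ 8⌋₊ with hk
  have hX8' : 1 ≤ X ^ 8 := one_le_pow₀ (by linarith)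
  have hX88 : X ≤ X ^ 8 := le_self_pow₀ (by linarith) (by norm_num)
  have hYX : 2 ≤ Y * X ^ 8 := by nlinarith
  have hk1 : (k : ℝ) ≤ Y * X ^ 8 := Nat.floor_le (by positivity)
  have hk2 : Y * X ^ 8 < k + 1 := Nat.lt_floor_add_one _
  have hk3 : Y * X ^ 8 / 2 ≤ k := by linarith
  have hX816 : X ^ 16 = X ^ 8 * X ^ 8 := by rw [← pow_add]
  have hkL : (k : ℝ) + 1 ≤ L ^ 2 := by
    have h1 : Y * X ^ 8 ≤ L := by
      rw [hLXY, hX816]
      have : X ^ 8 ≤ X ^ 8 * X ^ 8 := by nlinarith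
      exact mul_le_mul_of_nonneg_left this hY0.le
    nlinarith
  have hlogk : Real.log ((k : ℝ) + 1) ≤ 2 * X := by
    have h1 := Real.log_le_log (by positivity) hkL
    rw [Real.log_pow] at h1
    push_cast at h1
    linarith
  have hlogk0 : 0 ≤ Real.log ((k : ℝ) + 1) := Real.log_nonneg (by
    have : (0 : ℝ) ≤ k := Nat.cast_nonneg k
    linarith)
  have hcard : ((PS ⌈Y⌉₊).card : ℝ) ≤ Y := by
    have h1 : PS ⌈Y⌉₊ ⊆ Ico 1 ⌈Y⌉₊ := fun p hp => by
      rw [mem_PS] at hp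
      exact mem_Ico.2 ⟨hp.2.one_le, hp.1⟩
    have h2 := card_le_card h1
    rw [Nat.card_Ico] at h2
    have h3 : 1 ≤ ⌈Y⌉₊ := Nat.one_le_ceil_iff.2 hY0
    have h4 : ((PS ⌈Y⌉₊).card : ℝ) ≤ (⌈Y⌉₊ : ℝ) - 1 := by
      have : (PS ⌈Y⌉₊).card + 1 ≤ ⌈Y⌉₊ := by omega
      have h5 : (((PS ⌈Y⌉₊).card : ℕ) : ℝ) + 1 ≤ (⌈Y⌉₊ : ℝ) := by exact_mod_cast this
      linarith
    have := Nat.ceil_lt_add_one hY0.le
    linarith
  have hlog4 : Real.log 4 ≤ 2 := by
    have h1 : Real.log 4 = 2 * Real.log 2 := by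
      have : (4 : ℝ) = 2 ^ 2 := by norm_num
      rw [this, Real.log_pow]
      norm_num
    have := Real.log_two_lt_d9
    linarith
  have hden : 4 * ((k : ℝ) + 1) ^ (PS ⌈Y⌉₊).card ≤ Real.exp (4 * Y * X) := by
    have h1 : (0 : ℝ) < 4 * ((k : ℝ) + 1) ^ (PS ⌈Y⌉₊).card := by positivity
    rw [← Real.log_le_iff_le_exp h1, Real.log_mul (by norm_num) (by positivity), Real.log_pow]
    have h2 : ((PS ⌈Y⌉₊).card : ℝ) * Real.log ((k : ℝ) + 1) ≤ Y * (2 * X) :=
      mul_le_mul hcard hlogk hlogk0 hY0.le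
    nlinarith
  have hTQ : 4 * (Y ^ k) ^ 2 ≤ T := by
    have h1 : (0 : ℝ) < 4 * (Y ^ k) ^ 2 := by positivity
    rw [← Real.log_le_log_iff h1 hT0, Real.log_mul (by norm_num) (by positivity), Real.log_pow,
      Real.log_pow, ← hL]
    have h2 : Real.log Y ≤ X := by
      refine le_trans ?_ hll
      refine Real.log_le_log hY0 ?_
      calc Y ≤ L ^ (1 : ℝ) := Real.rpow_le_rpow_of_exponent_le hL1 (by linarith)
        _ = L := Real.rpow_one L
    have h2' : 0 ≤ Real.log Y := Real.log_nonneg hY1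
    have h3 : (k : ℝ) * Real.log Y ≤ (Y * X ^ 8) * X := mul_le_mul hk1 h2 h2' (by positivity)
    have h4 : 4 * (Y * X ^ 8 * X) ≤ L := by
      rw [hLXY, hX816]
      have h5 : 4 * X ≤ X ^ 8 := by
        have h6 : X ^ 2 ≤ X ^ 8 := pow_le_pow_right₀ (by linarith) (by norm_num)
        nlinarith
      have h6 : 0 ≤ Y * X ^ 8 := by positivity
      nlinarith
    push_cast
    have h7 : 2 ≤ Y * X ^ 8 * X := by nlinarith
    linarith
  refine ⟨k, hT0, hY1, hTQ, ?_, ?_⟩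
  · intro M hM1 h1
    have h2 : Real.log ⌈Y⌉₊ ≤ 2 * X := by
      have h3 : (⌈Y⌉₊ : ℝ) ≤ L ^ 2 := by
        have h4 := Nat.ceil_lt_add_one hY0.le
        have h5 : Y ≤ L := by
          calc Y ≤ L ^ (1 : ℝ) := Real.rpow_le_rpow_of_exponent_le hL1 (by linarith)
            _ = L := Real.rpow_one L
        nlinarith
      have h4 : (0 : ℝ) < ⌈Y⌉₊ := lt_of_lt_of_le hY0 (Nat.le_ceil Y)
      have h5 := Real.log_le_log h4 h3
      rw [Real.log_pow] at h5
      push_cast at h5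
      linarith
    have h3 : M ≤ 3 * (D * X) := by
      refine h1.trans ?_
      have : 1 + Real.log ⌈Y⌉₊ ≤ 3 * X := by linarith
      nlinarith
    have h4 : M ^ 2 ≤ 9 * D ^ 2 * X ^ 2 := by
      have := pow_le_pow_left₀ (by linarith) h3 2
      nlinarith
    have h5 : 4 * Y * X ≤ k * (1 / (2 * M ^ 2)) := by
      rw [mul_one_div, le_div_iff₀ (by positivity)]
      have h6 : 4 * Y * X * (2 * M ^ 2) ≤ 4 * Y * X * (2 * (9 * D ^ 2 * X ^ 2)) := by gcongr
      refine h6.trans (le_trans ?_ hk3)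
      have h7 : 144 * D ^ 2 ≤ X := by linarith
      have h8 : X ^ 4 ≤ X ^ 8 := pow_le_pow_right₀ (by linarith) (by norm_num)
      have h9 : 144 * D ^ 2 * X ^ 3 ≤ X ^ 8 := by
        calc 144 * D ^ 2 * X ^ 3 ≤ X * X ^ 3 := mul_le_mul_of_nonneg_right h7 (by positivity)
          _ = X ^ 4 := by ring
          _ ≤ X ^ 8 := h8
      nlinarith
    refine (Real.exp_le_exp.2 (neg_le_neg h5)).trans ?_
    rw [Real.exp_neg, one_div]
    exact inv_anti₀ (by positivity) hden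
  · rw [le_div_iff₀ (by positivity)]
    have h2 : T ^ (1 - ε) = Real.exp (L * (1 - ε)) := Real.rpow_def_of_pos hT0 _
    have h3 : T = Real.exp L := (Real.exp_log hT0).symm
    calc T ^ (1 - ε) * (4 * ((k : ℝ) + 1) ^ (PS ⌈Y⌉₊).card)
        ≤ Real.exp (L * (1 - ε)) * Real.exp (4 * Y * X) := by
          rw [h2]
          exact mul_le_mul_of_nonneg_left hden (Real.exp_pos _).le
      _ = Real.exp (L * (1 - ε) + 4 * Y * X) := (Real.exp_add _ _).symm
      _ ≤ Real.exp L := by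
          refine Real.exp_le_exp.2 ?_
          have h4 : 4 * Y * X ≤ ε * L := by
            have h5 : 4 ≤ ε * X := by
              have : 4 / ε ≤ X := by linarith
              rw [div_le_iff₀ hε] at this
              linarith
            have h6 : X ≤ X ^ 15 := le_self_pow₀ (by linarith) (by norm_num)
            calc 4 * Y * X ≤ (ε * X) * Y * X ^ 15 := by gcongr
              _ = ε * (Y * X ^ 16) := by ring
              _ = ε * L := by rw [← hLXY]
          linarith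
      _ = T := h3.symm

lemma norm_expI (τ : ℝ) (p : ℕ) : ‖Complex.exp (-(τ * Real.log p) * Complex.I)‖ = 1 := by
  have h1 : -((τ : ℂ) * (Real.log p : ℂ)) * Complex.I =
      ((-(τ * Real.log p) : ℝ) : ℂ) * Complex.I := by
    push_cast
    ring
  rw [h1, Complex.norm_exp_ofReal_mul_I]

/-- **Simultaneous approximation of arbitrary phases.** -/
theorem phase_ev (ε : ℝ) (hε : 0 < ε) (hε1 : ε ≤ 1) :
    ∀ᶠ T : ℝ in atTop, ∀ u : ℕ → ℂ, (∀ p : ℕ, p.Prime → ‖u p‖ = 1) →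
        ENNReal.ofReal (T ^ (1 - ε)) ≤ volume {τ : ℝ | τ ∈ Set.Ioc 0 T ∧
          ∑ p ∈ PS ⌈Real.log T ^ (1 - ε)⌉₊,
            1 / (p : ℝ) * ‖Complex.exp (-(τ * Real.log p) * Complex.I) - u p‖ ≤ 2} := by
  filter_upwards [params 1 ε zero_le_one hε hε1] with T hT u hu
  obtain ⟨k, hT0, hY1, hTQ, hkk, hTT⟩ := hT
  set Y : ℝ := Real.log T ^ (1 - ε) with hY
  set c : ℕ → ℂ := fun p => (1 / (p : ℝ) : ℝ) * (starRingEnd ℂ) (u p) with hc
  have hcn : ∀ p : ℕ, p.Prime → ‖c p‖ = 1 / p := by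
    intro p hp
    rw [hc]
    simp only
    rw [norm_mul, RCLike.norm_conj, hu p hp, mul_one, Complex.norm_real,
      Real.norm_of_nonneg (by positivity)]
  set M : ℝ := ∑ p ∈ PS ⌈Y⌉₊, 1 / (p : ℝ) with hM
  have hMc : ∑ p ∈ PS ⌈Y⌉₊, ‖c p‖ = M :=
    sum_congr rfl fun p hp => hcn p (mem_PS.1 hp).2
  have hM0 : 0 ≤ M := sum_nonneg fun _ _ => by positivity
  have hzn : ∀ (τ : ℝ), ∀ p ∈ PS ⌈Y⌉₊, ‖c p * Complex.exp (-(τ * Real.log p) * Complex.I)‖ =
      1 / p := by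
    intro τ p hp
    rw [norm_mul, norm_expI, mul_one, hcn p (mem_PS.1 hp).2]
  have hdist : ∀ (τ : ℝ), ∀ p ∈ PS ⌈Y⌉₊,
      1 / (p : ℝ) * ‖Complex.exp (-(τ * Real.log p) * Complex.I) - u p‖ =
      ‖c p * Complex.exp (-(τ * Real.log p) * Complex.I) -
        (‖c p * Complex.exp (-(τ * Real.log p) * Complex.I)‖ : ℂ)‖ := by
    intro τ p hp
    rw [hzn τ p hp]
    have h1 : u p * (starRingEnd ℂ) (u p) = 1 := by
      rw [Complex.mul_conj, Complex.normSq_eq_norm_sq, hu p (mem_PS.1 hp).2]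
      norm_num
    have h2 : c p * Complex.exp (-(τ * Real.log p) * Complex.I) - ((1 / (p : ℝ) : ℝ) : ℂ) =
        ((1 / (p : ℝ) : ℝ) : ℂ) * ((starRingEnd ℂ) (u p) *
          (Complex.exp (-(τ * Real.log p) * Complex.I) - u p)) := by
      rw [hc]
      simp only
      rw [mul_sub ((starRingEnd ℂ) (u p)), mul_comm ((starRingEnd ℂ) (u p)) (u p), h1]
      ring
    rw [h2, norm_mul, norm_mul, RCLike.norm_conj, hu p (mem_PS.1 hp).2, one_mul,
      Complex.norm_real, Real.norm_of_nonneg (by positivity)]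
  rcases le_or_gt 1 M with hM1 | hM1
  · have hMpos : 0 < M := by linarith
    have hMle : M ≤ 1 * (1 + Real.log ⌈Y⌉₊) := by
      have := sum_PS_le zero_le_one c (fun p hp => (hcn p hp).le) ⌈Y⌉₊
      rwa [hMc] at this
    have h1 := large_values (fun p hp => (mem_PS.1 hp).2) hY1
      (fun p hp => (Nat.lt_ceil.1 (mem_PS.1 hp).1).le) c hMc hMpos (1 / M) k hT0 hTQ (by
      have h2 : 1 / M / (2 * M) = 1 / (2 * M ^ 2) := by field_simp
      rw [h2]
      exact hkk M hM1 hMle)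
    refine (ENNReal.ofReal_le_ofReal hTT).trans (h1.trans (measure_mono ?_))
    rintro τ ⟨hτ1, hτ2⟩
    refine ⟨hτ1, ?_⟩
    rw [sum_congr rfl (hdist τ)]
    have h3 : ∑ p ∈ PS ⌈Y⌉₊, ‖c p * Complex.exp (-(τ * Real.log p) * Complex.I)‖ = M :=
      sum_congr rfl (hzn τ)
    have h2 := approx_of_re (PS ⌈Y⌉₊)
      (fun p => c p * Complex.exp (-(τ * Real.log p) * Complex.I)) (lam := 1 / M) (by
      rw [h3]
      exact hτ2)
    rw [h3, mul_assoc, mul_one_div_cancel hMpos.ne'] at h2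
    have h4 : 0 ≤ ∑ p ∈ PS ⌈Y⌉₊, ‖c p * Complex.exp (-(τ * Real.log p) * Complex.I) -
        (‖c p * Complex.exp (-(τ * Real.log p) * Complex.I)‖ : ℂ)‖ :=
      sum_nonneg fun _ _ => norm_nonneg _
    nlinarith
  · have h1 : Set.Ioc 0 T ⊆ {τ : ℝ | τ ∈ Set.Ioc 0 T ∧
          ∑ p ∈ PS ⌈Y⌉₊,
            1 / (p : ℝ) * ‖Complex.exp (-(τ * Real.log p) * Complex.I) - u p‖ ≤ 2} := by
      intro τ hτ
      refine ⟨hτ, ?_⟩
      calc ∑ p ∈ PS ⌈Y⌉₊,
            1 / (p : ℝ) * ‖Complex.exp (-(τ * Real.log p) * Complex.I) - u p‖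
          ≤ ∑ p ∈ PS ⌈Y⌉₊, 1 / (p : ℝ) * 2 := by
            refine sum_le_sum fun p hp => mul_le_mul_of_nonneg_left ?_ (by positivity)
            refine (norm_sub_le _ _).trans ?_
            rw [norm_expI, hu p (mem_PS.1 hp).2]
            norm_num
        _ = 2 * M := by
            rw [← sum_mul]
            ring
        _ ≤ 2 := by linarith
    refine le_trans ?_ (measure_mono h1)
    rw [Real.volume_Ioc, sub_zero]
    refine ENNReal.ofReal_le_ofReal (hTT.trans ?_)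
    refine div_le_self hT0.le ?_
    have : (1 : ℝ) ≤ ((k : ℝ) + 1) ^ (PS ⌈Y⌉₊).card := one_le_pow₀ (by
      have : (0 : ℝ) ≤ k := Nat.cast_nonneg k
      linarith)
    linarith

/-- **Main theorem on simultaneous twists.** -/
theorem main5 (d : ℕ) (ε : ℝ) (hε : 0 < ε) :
    ∃ δ C : ℝ, 0 < δ ∧ 0 < C ∧ ∀ᶠ T : ℝ in atTop, ∀ u : ℕ → ℂ,
      (∀ p : ℕ, p.Prime → ‖u p‖ = 1) → ∃ G : Set ℝ, G ⊆ Set.Ioc 0 T ∧
      ENNReal.ofReal (T ^ (1 - ε)) ≤ volume G ∧
      ∀ (K : Type) [Field K] [NumberField K] (θ : 𝓞 K) (a b : ℤ[X]), Dt d (T ^ δ) θ a b →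
        ∀ W : HeightOneSpectrum (𝓞 K) → WeierstrassCurve (𝓞 K),
          (∀ v, IsMinAt (twist (crv θ a b) 1) v (W v)) →
        ∀ τ ∈ G, ∃ w : ℂ, IsLog W τ w ∧
          ‖w - ∑ p ∈ PS ⌈Real.log T⌉₊, (av W p : ℂ) * u p‖ ≤ C := by
  classical
  set e1 : ℝ := min ε 1 / 4 with he1
  have hmin0 : 0 < min ε 1 := lt_min hε one_pos
  have he0 : 0 < e1 := by positivity
  have he4 : e1 ≤ 1 / 4 := by
    have := min_le_right ε 1
    linarith
  have heε : 4 * e1 ≤ ε := by
    have := min_le_left ε 1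
    linarith
  obtain ⟨δ, C, hδ, hC, hev⟩ := main3 d e1 he0
  obtain ⟨C1, hC10, hC1⟩ := mertens_tail
  set C2 : ℝ := Real.log (4 * (1 + 1)) + C1 with hC2
  have hC20 : 0 ≤ C2 := by
    have : 0 ≤ Real.log (4 * (1 + 1)) := Real.log_nonneg (by norm_num)
    positivity
  refine ⟨δ, C + 4 * d + 4 * d * C2, hδ, by positivity, ?_⟩
  have hpow2 : ∀ᶠ T : ℝ in atTop, 2 ≤ T ^ e1 :=
    (tendsto_rpow_atTop he0).eventually_ge_atTop _
  filter_upwards [hev, phase_ev (2 * e1) (by positivity) (by linarith),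
    Real.tendsto_log_atTop.eventually (hC1 1 le_rfl), hpow2, eventually_ge_atTop 3,
    Real.tendsto_log_atTop.eventually_ge_atTop 1]
    with T hT hph hmer hT2 hT3 hL1 u hu
  obtain ⟨X, hX, hmain⟩ := hT
  have hT0 : 0 < T := by linarith
  set S : Set ℝ := {τ : ℝ | τ ∈ Set.Ioc 0 T ∧
          ∑ p ∈ PS ⌈Real.log T ^ (1 - 2 * e1)⌉₊,
            1 / (p : ℝ) * ‖Complex.exp (-(τ * Real.log p) * Complex.I) - u p‖ ≤ 2} with hS
  have h1 := hph u hu
  rw [← hS] at h1
  refine ⟨S \ X, fun τ hτ => hτ.1.1, ?_, ?_⟩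
  · refine le_trans ?_ (le_measure_sdiff)
    rw [ENNReal.le_sub_iff_add_le_right (ne_top_of_le_ne_top ENNReal.ofReal_ne_top hX)]
    · refine (add_le_add le_rfl hX).trans ?_
      rw [← ENNReal.ofReal_add (by positivity) (by positivity)]
      refine le_trans (ENNReal.ofReal_le_ofReal ?_) h1
      have h2 : T ^ (1 - 2 * e1) = T ^ (1 - 2 * e1 - e1) * T ^ e1 := by
        rw [← Real.rpow_add hT0]
        congr 1
        ring
      have h3 : T ^ (1 - ε) ≤ T ^ (1 - 2 * e1 - e1) :=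
        Real.rpow_le_rpow_of_exponent_le (by linarith) (by linarith)
      have h4 : T ^ e1 ≤ T ^ (1 - 2 * e1 - e1) :=
        Real.rpow_le_rpow_of_exponent_le (by linarith) (by linarith)
      have h5 : 0 < T ^ (1 - 2 * e1 - e1) := by positivity
      rw [h2]
      nlinarith
    · refine hX.trans (le_trans (ENNReal.ofReal_le_ofReal ?_) h1)
      exact Real.rpow_le_rpow_of_exponent_le (by linarith) (by linarith)
  · intro K _ _ θ a b hD W hW τ hτ
    obtain ⟨⟨hτ1, hτ2⟩, hτ3⟩ := hτ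
    obtain ⟨hv, -⟩ := hmain K θ a b hD W hW
    obtain ⟨w, hw1, hw2, -⟩ := hv τ (by rw [abs_of_pos hτ1.1]; exact hτ1.2) hτ3
    refine ⟨w, hw1, ?_⟩
    have hav : ∀ p : ℕ, p.Prime → ‖(av W p : ℂ)‖ ≤ 2 * d / p := by
      intro p hp
      refine (norm_av W p hp).trans ?_
      have : (0 : ℝ) < p := by exact_mod_cast hp.pos
      have hn : (Module.finrank ℚ K : ℝ) ≤ d := by exact_mod_cast hD.deg
      gcongr
    set z := ⌈Real.log T ^ (1 - 2 * e1)⌉₊ with hz
    set x := ⌈Real.log T⌉₊ with hx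
    have hsub : PS z ⊆ PS x := by
      intro p hp
      rw [mem_PS] at hp ⊢
      refine ⟨lt_of_lt_of_le hp.1 (Nat.ceil_mono ?_), hp.2⟩
      calc Real.log T ^ (1 - 2 * e1) ≤ Real.log T ^ (1 : ℝ) :=
            Real.rpow_le_rpow_of_exponent_le (by linarith) (by linarith)
        _ = _ := Real.rpow_one _
    have hdiff : ‖∑ p ∈ PS x, (av W p : ℂ) * Complex.exp (-(τ * Real.log p) * Complex.I) -
        ∑ p ∈ PS x, (av W p : ℂ) * u p‖ ≤ 4 * d + 4 * d * C2 := by
      rw [← sum_sub_distrib, ← sum_sdiff hsub]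
      have h2 : ‖∑ p ∈ PS x \ PS z, ((av W p : ℂ) *
          Complex.exp (-(τ * Real.log p) * Complex.I) - (av W p : ℂ) * u p)‖ ≤ 4 * d * C2 := by
        calc ‖∑ p ∈ PS x \ PS z, ((av W p : ℂ) *
          Complex.exp (-(τ * Real.log p) * Complex.I) - (av W p : ℂ) * u p)‖
            ≤ ∑ p ∈ PS x \ PS z, 4 * d * (1 / (p : ℝ)) := by
              refine norm_sum_le_of_le _ fun p hp => ?_
              have hpp := (mem_PS.1 (Finset.mem_sdiff.1 hp).1).2
              rw [← mul_sub, norm_mul]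
              have h3 : ‖Complex.exp (-(τ * Real.log p) * Complex.I) - u p‖ ≤ 2 := by
                refine (norm_sub_le _ _).trans ?_
                rw [norm_expI, hu p hpp]
                norm_num
              calc ‖(av W p : ℂ)‖ * ‖Complex.exp (-(τ * Real.log p) * Complex.I) - u p‖
                  ≤ 2 * d / p * 2 := mul_le_mul (hav p hpp) h3 (norm_nonneg _) (by positivity)
                _ = _ := by ring
          _ = 4 * d * ∑ p ∈ PS x \ PS z, 1 / (p : ℝ) := by rw [mul_sum]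
          _ ≤ 4 * d * C2 := by
              refine mul_le_mul_of_nonneg_left ?_ (by positivity)
              have h3 := hmer (2 * e1) (by positivity) (by linarith)
              rw [Real.rpow_one] at h3
              exact h3
      have h3 : ‖∑ p ∈ PS z, ((av W p : ℂ) *
          Complex.exp (-(τ * Real.log p) * Complex.I) - (av W p : ℂ) * u p)‖ ≤ 4 * d := by
        calc ‖∑ p ∈ PS z, ((av W p : ℂ) *
          Complex.exp (-(τ * Real.log p) * Complex.I) - (av W p : ℂ) * u p)‖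
            ≤ ∑ p ∈ PS z, 2 * d * (1 / (p : ℝ) *
                ‖Complex.exp (-(τ * Real.log p) * Complex.I) - u p‖) := by
              refine norm_sum_le_of_le _ fun p hp => ?_
              have hpp := (mem_PS.1 hp).2
              rw [← mul_sub, norm_mul]
              calc ‖(av W p : ℂ)‖ * ‖Complex.exp (-(τ * Real.log p) * Complex.I) - u p‖
                  ≤ 2 * d / p * ‖Complex.exp (-(τ * Real.log p) * Complex.I) - u p‖ :=
                    mul_le_mul_of_nonneg_right (hav p hpp) (norm_nonneg _)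
                _ = _ := by ring
          _ = 2 * d * ∑ p ∈ PS z, 1 / (p : ℝ) *
                ‖Complex.exp (-(τ * Real.log p) * Complex.I) - u p‖ := by rw [mul_sum]
          _ ≤ 2 * d * 2 := mul_le_mul_of_nonneg_left hτ2 (by positivity)
          _ = _ := by ring
      refine (norm_add_le _ _).trans ?_
      linarith
    calc ‖w - ∑ p ∈ PS x, (av W p : ℂ) * u p‖ =
        ‖(w - ∑ p ∈ PS x, (av W p : ℂ) * Complex.exp (-(τ * Real.log p) * Complex.I)) +
          (∑ p ∈ PS x, (av W p : ℂ) * Complex.exp (-(τ * Real.log p) * Complex.I) -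
        ∑ p ∈ PS x, (av W p : ℂ) * u p)‖ := by
          congr 1
          ring
      _ ≤ C + (4 * d + 4 * d * C2) := (norm_add_le _ _).trans (add_le_add hw2 hdiff)
      _ = _ := by ring

end Pool.Agent.Y834.EA
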