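import Pool.Agent.Y834.EA.EC
import Pool.Agent.W74.HB.Mert

/-!
# The size of the short Euler product; the number of places dividing an integer
-/

set_option autoImplicit false

namespace Pool.Agent.Y834.EA

open Filter Topology NumberField IsDedekindDomain Finset Pool.Agent.H921R2.TatePole
  Pool.Agent.H341R2 Pool.Agent.H341R2.EC Pool.Agent.W350.Edge Pool.Agent.W350.EdgeV
  Pool.Agent.W350.EdgeNF Pool.Agent.W350.EdgeEC

/-- `∑ (2/q + 6/q^2)` over the places of norm less than `Y` -/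
theorem sum_places : ∃ C : ℝ, 0 ≤ C ∧ ∀ (K : Type) [Field K] [NumberField K] (Y : ℕ), 3 ≤ Y →
    ∑ v ∈ FV (nm : HeightOneSpectrum (𝓞 K) → ℕ) hfin Y, (2 / (nm v : ℝ) + 6 * (nm v : ℝ) ^ (-2 : ℝ)) ≤
      2 * Module.finrank ℚ K * Real.log (Real.log Y) + C * Module.finrank ℚ K := by
  classical
  obtain ⟨C, hC0, hC⟩ := Pool.Agent.W74.HB.sum_inv
  refine ⟨2 * C + 8 * ZZ, by have := ZZ_nonneg; positivity, ?_⟩
  intro K _ _ Y hY
  have hbelow := sum_below (K := K) (FV nm hfin Y)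
  have hprime : ∑ v ∈ (FV (nm : HeightOneSpectrum (𝓞 K) → ℕ) hfin Y).filter
      (fun v => (nm v).Prime), 1 / (nm v : ℝ) ≤
      Module.finrank ℚ K * (Real.log (Real.log Y) + C) := by
    have hmaps : ∀ v ∈ (FV (nm : HeightOneSpectrum (𝓞 K) → ℕ) hfin Y).filter
        (fun v => (nm v).Prime), nm v ∈ (Icc 1 Y).filter Nat.Prime := by
      intro v hv
      rw [mem_filter, mem_FV] at hv
      rw [mem_filter, mem_Icc]
      exact ⟨⟨hN v, hv.1.le⟩, hv.2⟩
    rw [← sum_fiberwise_of_maps_to hmaps]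
    calc ∑ p ∈ (Icc 1 Y).filter Nat.Prime, ∑ v ∈ ((FV (nm : HeightOneSpectrum (𝓞 K) → ℕ)
          hfin Y).filter (fun v => (nm v).Prime)).filter (fun v => nm v = p), 1 / (nm v : ℝ)
        ≤ ∑ p ∈ (Icc 1 Y).filter Nat.Prime, (Module.finrank ℚ K : ℝ) * (1 / (p : ℝ)) := by
          refine sum_le_sum fun p hp => ?_
          rw [mem_filter] at hp
          have h1 : ∑ v ∈ ((FV (nm : HeightOneSpectrum (𝓞 K) → ℕ)
              hfin Y).filter (fun v => (nm v).Prime)).filter (fun v => nm v = p), 1 / (nm v : ℝ) =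
              ∑ v ∈ ((FV (nm : HeightOneSpectrum (𝓞 K) → ℕ)
              hfin Y).filter (fun v => (nm v).Prime)).filter (fun v => nm v = p), 1 / (p : ℝ) :=
            sum_congr rfl fun v hv => by rw [(mem_filter.1 hv).2]
          rw [h1, sum_const, nsmul_eq_mul]
          refine mul_le_mul_of_nonneg_right ?_ (by positivity)
          have h2 := card_above (K := K) ⟨p, hp.2⟩ (((FV (nm : HeightOneSpectrum (𝓞 K) → ℕ)
              hfin Y).filter (fun v => (nm v).Prime)).filter (fun v => nm v = p)) (fun v hv => by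
            have h3 := (mem_filter.1 hv).2
            have h4 := nm_eq v
            refine Subtype.ext ?_
            have h5 : (below v : ℕ) ∣ p := by
              rw [← h3, h4.1]
              exact dvd_pow_self _ h4.2.1.ne'
            exact (Nat.prime_dvd_prime_iff_eq (below v).2 hp.2).1 h5)
          exact_mod_cast h2
      _ = Module.finrank ℚ K * ∑ p ∈ (Icc 1 Y).filter Nat.Prime, 1 / (p : ℝ) := by
          rw [mul_sum]
      _ ≤ _ := mul_le_mul_of_nonneg_left (hC Y (by omega)) (Nat.cast_nonneg _)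
  have hnon : ∑ v ∈ (FV (nm : HeightOneSpectrum (𝓞 K) → ℕ) hfin Y).filter
      (fun v => ¬ (nm v).Prime), 1 / (nm v : ℝ) ≤ Module.finrank ℚ K * ZZ := by
    refine le_trans ?_ (sum_below (K := K) ((FV nm hfin Y).filter (fun v => ¬ (nm v).Prime)))
    refine sum_le_sum fun v hv => ?_
    have h1 := nonprime_le v (mem_filter.1 hv).2 le_rfl
      (by exact_mod_cast hN v : (1 : ℝ) ≤ nm v)
    rwa [Real.one_rpow, one_mul] at h1
  have hsq : ∑ v ∈ FV (nm : HeightOneSpectrum (𝓞 K) → ℕ) hfin Y, (nm v : ℝ) ^ (-2 : ℝ) ≤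
      Module.finrank ℚ K * ZZ := by
    refine le_trans ?_ hbelow
    refine sum_le_sum fun v _ => ?_
    have h1 := sq_le v le_rfl (by exact_mod_cast hN v : (1 : ℝ) ≤ nm v)
    rwa [Real.one_rpow, one_mul] at h1
  have hsplit : ∑ v ∈ FV (nm : HeightOneSpectrum (𝓞 K) → ℕ) hfin Y,
      (2 / (nm v : ℝ) + 6 * (nm v : ℝ) ^ (-2 : ℝ)) =
      2 * (∑ v ∈ (FV (nm : HeightOneSpectrum (𝓞 K) → ℕ) hfin Y).filter
        (fun v => (nm v).Prime), 1 / (nm v : ℝ) + ∑ v ∈ (FV (nm : HeightOneSpectrum (𝓞 K) → ℕ)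
          hfin Y).filter (fun v => ¬ (nm v).Prime), 1 / (nm v : ℝ)) +
      6 * ∑ v ∈ FV (nm : HeightOneSpectrum (𝓞 K) → ℕ) hfin Y, (nm v : ℝ) ^ (-2 : ℝ) := by
    rw [sum_filter_add_sum_filter_not, mul_sum, mul_sum, ← sum_add_distrib]
    refine sum_congr rfl fun v _ => ?_
    ring
  rw [hsplit]
  linarith

variable {K : Type} [Field K] [NumberField K]

lemma lf_bounds (W : HeightOneSpectrum (𝓞 K) → WeierstrassCurve (𝓞 K))
    (v : HeightOneSpectrum (𝓞 K)) (h6 : (6 : 𝓞 K) ∉ v.asIdeal) {s : ℂ} (hs : 3 / 2 ≤ s.re) :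
    Real.exp (-(2 / (nm v : ℝ) + 6 * (nm v : ℝ) ^ (-2 : ℝ))) ≤ ‖lf W v s‖ ∧
    ‖lf W v s‖ ≤ Real.exp (2 / (nm v : ℝ) + 6 * (nm v : ℝ) ^ (-2 : ℝ)) := by
  classical
  have h1 := norm_ww_good W v h6 hs
  have h2 := lf_exp W v (s := s) (fun hw => by
    have := h1.2
    rw [hw, norm_one] at this
    norm_num at this)
  rw [if_pos h6] at h2
  rw [h2, Complex.norm_exp]
  have h3 := norm_trc_good W v h6 hs
  have h4 := norm_rw6_good W v h6 hs
  have h5 := (norm_add_le ((trc W v : ℂ) * (nm v : ℂ) ^ (-s)) (rw6 W v s)).trans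
    (add_le_add h3 h4)
  have h6' := Complex.abs_re_le_norm ((trc W v : ℂ) * (nm v : ℂ) ^ (-s) + rw6 W v s)
  have h7 := abs_le.1 (h6'.trans h5)
  exact ⟨Real.exp_le_exp.2 h7.1, Real.exp_le_exp.2 h7.2⟩

lemma norm_ww_lt (W : HeightOneSpectrum (𝓞 K) → WeierstrassCurve (𝓞 K))
    (v : HeightOneSpectrum (𝓞 K)) {s : ℂ} (hs : 3 / 2 ≤ s.re) : ‖ww W v s‖ ≤ 24 / 25 := by
  classical
  have h2 : (2 : ℝ) ≤ nm v := by exact_mod_cast two_le_nm v
  have h3 := norm_trc_all W v hs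
  have h4 := norm_eps W v hs
  have h5 : (nm v : ℝ) ^ (-(1 / 2) : ℝ) ≤ 71 / 100 := by
    have h6 : (nm v : ℝ) ^ (-(1 / 2) : ℝ) ≤ (2 : ℝ) ^ (-(1 / 2) : ℝ) :=
      Real.rpow_le_rpow_of_nonpos (by norm_num) h2 (by norm_num)
    refine h6.trans ?_
    have h7 : ((2 : ℝ) ^ (-(1 / 2) : ℝ)) ^ 2 = 1 / 2 := by
      rw [← Real.rpow_natCast, ← Real.rpow_mul (by norm_num)]
      norm_num
    have h8 : 0 < (2 : ℝ) ^ (-(1 / 2) : ℝ) := by positivity
    by_contra h9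
    push Not at h9
    nlinarith
  have h6 : (nm v : ℝ) ^ (-2 : ℝ) ≤ 1 / 4 := by
    have h7 : (nm v : ℝ) ^ (-2 : ℝ) ≤ (2 : ℝ) ^ (-2 : ℝ) :=
      Real.rpow_le_rpow_of_nonpos (by norm_num) h2 (by norm_num)
    refine h7.trans (le_of_eq ?_)
    rw [Real.rpow_neg (by norm_num), Real.rpow_two]
    norm_num
  unfold ww
  refine (norm_sub_le _ _).trans ?_
  linarith

lemma lf_bounds_all (W : HeightOneSpectrum (𝓞 K) → WeierstrassCurve (𝓞 K))
    (v : HeightOneSpectrum (𝓞 K)) {s : ℂ} (hs : 3 / 2 ≤ s.re) :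
    Real.exp (-4) ≤ ‖lf W v s‖ ∧ ‖lf W v s‖ ≤ Real.exp 4 := by
  have h1 := norm_ww_lt W v hs
  have h2 : 1 / 25 ≤ ‖1 - ww W v s‖ := by
    have := norm_sub_norm_le (1 : ℂ) (ww W v s)
    rw [norm_one] at this
    linarith
  have h3 : ‖1 - ww W v s‖ ≤ 2 := by
    refine (norm_sub_le _ _).trans ?_
    rw [norm_one]
    linarith
  have he : (25 : ℝ) ≤ Real.exp 4 := by
    have h4 : Real.exp 4 = Real.exp 1 ^ 4 := by
      rw [← Real.exp_nat_mul]
      norm_num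
    have h5 := Real.exp_one_gt_d9
    have h6 : (27 / 10 : ℝ) ^ 4 ≤ Real.exp 1 ^ 4 := pow_le_pow_left₀ (by norm_num) (by linarith) 4
    rw [h4]
    norm_num at h6
    linarith
  rw [lf_eq, norm_inv]
  constructor
  · rw [Real.exp_neg]
    refine inv_anti₀ (by linarith) ?_
    linarith
  · rw [inv_le_comm₀ (by linarith) (Real.exp_pos _)]
    refine le_trans ?_ h2
    rw [one_div]
    exact inv_anti₀ (by norm_num) he

lemma lf_ne_zero (W : HeightOneSpectrum (𝓞 K) → WeierstrassCurve (𝓞 K))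
    (v : HeightOneSpectrum (𝓞 K)) {s : ℂ} (hs : 3 / 2 ≤ s.re) : lf W v s ≠ 0 := by
  have := (lf_bounds_all W v hs).1
  rw [← norm_pos_iff]
  exact lt_of_lt_of_le (Real.exp_pos _) this

/-- two-sided bounds for the short Euler product -/
theorem size_Py : ∃ C : ℝ, 0 ≤ C ∧ ∀ (K : Type) [Field K] [NumberField K]
    (W : HeightOneSpectrum (𝓞 K) → WeierstrassCurve (𝓞 K)) (y : ℝ) (_ : 3 ≤ y) (s : ℂ)
    (_ : 3 / 2 ≤ s.re),
    Real.exp (-(2 * Module.finrank ℚ K * Real.log (Real.log y) + C * Module.finrank ℚ K)) ≤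
      ‖Py W y s‖ ∧
    ‖Py W y s‖ ≤
      Real.exp (2 * Module.finrank ℚ K * Real.log (Real.log y) + C * Module.finrank ℚ K) := by
  classical
  obtain ⟨C, hC0, hC⟩ := sum_places
  refine ⟨2 * Real.log 2 + C + 24 * ZZ, by
    have := ZZ_nonneg
    have := Real.log_nonneg (show (1 : ℝ) ≤ 2 by norm_num)
    positivity, ?_⟩
  intro K _ _ W y hy s hs
  set n : ℝ := (Module.finrank ℚ K : ℝ) with hn
  have hn0 : 0 ≤ n := Nat.cast_nonneg _
  have hZ := ZZ_nonneg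
  have hl2 := Real.log_nonneg (show (1 : ℝ) ≤ 2 by norm_num)
  have hly : 1 < Real.log y := by
    rw [Real.lt_log_iff_exp_lt (by linarith)]
    have := Real.exp_one_lt_d9
    linarith
  have hY3 : 3 ≤ ⌈y⌉₊ := by
    have : (3 : ℝ) ≤ ⌈y⌉₊ := hy.trans (Nat.le_ceil y)
    exact_mod_cast this
  have hYlog : Real.log (Real.log ⌈y⌉₊) ≤ Real.log (Real.log y) + Real.log 2 := by
    have h1 : ((⌈y⌉₊ : ℕ) : ℝ) ≤ y ^ 2 := by
      have := Nat.ceil_lt_add_one (show 0 ≤ y by linarith)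
      nlinarith
    have h2 : Real.log ⌈y⌉₊ ≤ 2 * Real.log y := by
      have := Real.log_le_log (by positivity) h1
      rw [Real.log_pow] at this
      exact_mod_cast this
    have h3 : 0 < Real.log ⌈y⌉₊ := Real.log_pos (by exact_mod_cast (by omega : 1 < ⌈y⌉₊))
    calc Real.log (Real.log ⌈y⌉₊) ≤ Real.log (2 * Real.log y) := Real.log_le_log h3 h2
      _ = _ := by rw [Real.log_mul (by norm_num) (by linarith)]; ring
  have hS := hC K ⌈y⌉₊ hY3
  set S := ∑ v ∈ FV (nm : HeightOneSpectrum (𝓞 K) → ℕ) hfin ⌈y⌉₊,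
    (2 / (nm v : ℝ) + 6 * (nm v : ℝ) ^ (-2 : ℝ)) with hSdef
  have hbel := sum_below (K := K) (FV nm hfin ⌈y⌉₊)
  -- a bound for every factor
  have hfac : ∀ v : HeightOneSpectrum (𝓞 K),
      Real.exp (-(2 / (nm v : ℝ) + 6 * (nm v : ℝ) ^ (-2 : ℝ) +
        24 * ((below v : ℕ) : ℝ) ^ (-(3 / 2) : ℝ))) ≤ ‖lf W v s‖ ∧
      ‖lf W v s‖ ≤ Real.exp (2 / (nm v : ℝ) + 6 * (nm v : ℝ) ^ (-2 : ℝ) +
        24 * ((below v : ℕ) : ℝ) ^ (-(3 / 2) : ℝ)) := by
    intro v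
    have hb := below_pos v
    by_cases h6 : (6 : 𝓞 K) ∈ v.asIdeal
    · have h1 := lf_bounds_all W v hs
      have h2 := six_le v h6
      have h3 : 0 ≤ 2 / (nm v : ℝ) + 6 * (nm v : ℝ) ^ (-2 : ℝ) := by positivity
      constructor
      · refine le_trans (Real.exp_le_exp.2 ?_) h1.1
        linarith
      · refine h1.2.trans (Real.exp_le_exp.2 ?_)
        linarith
    · have h1 := lf_bounds W v h6 hs
      have h2 : 0 ≤ 24 * ((below v : ℕ) : ℝ) ^ (-(3 / 2) : ℝ) := by positivity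
      constructor
      · refine le_trans (Real.exp_le_exp.2 ?_) h1.1
        linarith
      · refine h1.2.trans (Real.exp_le_exp.2 ?_)
        linarith
  have hsum : ∑ v ∈ FV (nm : HeightOneSpectrum (𝓞 K) → ℕ) hfin ⌈y⌉₊,
      (2 / (nm v : ℝ) + 6 * (nm v : ℝ) ^ (-2 : ℝ) +
        24 * ((below v : ℕ) : ℝ) ^ (-(3 / 2) : ℝ)) ≤
      2 * n * Real.log (Real.log y) + (2 * Real.log 2 + C + 24 * ZZ) * n := by
    rw [sum_add_distrib, ← mul_sum]
    nlinarith
  unfold Py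
  rw [norm_prod]
  constructor
  · calc Real.exp (-(2 * n * Real.log (Real.log y) + (2 * Real.log 2 + C + 24 * ZZ) * n))
        ≤ Real.exp (∑ v ∈ FV (nm : HeightOneSpectrum (𝓞 K) → ℕ) hfin ⌈y⌉₊,
          -(2 / (nm v : ℝ) + 6 * (nm v : ℝ) ^ (-2 : ℝ) +
            24 * ((below v : ℕ) : ℝ) ^ (-(3 / 2) : ℝ))) := by
          rw [sum_neg_distrib]
          exact Real.exp_le_exp.2 (neg_le_neg hsum)
      _ = _ := Real.exp_sum _ _
      _ ≤ _ := prod_le_prod (fun _ _ => (Real.exp_pos _).le) fun v _ => (hfac v).1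
  · calc ∏ v ∈ FV (nm : HeightOneSpectrum (𝓞 K) → ℕ) hfin ⌈y⌉₊, ‖lf W v s‖
        ≤ ∏ v ∈ FV (nm : HeightOneSpectrum (𝓞 K) → ℕ) hfin ⌈y⌉₊,
          Real.exp (2 / (nm v : ℝ) + 6 * (nm v : ℝ) ^ (-2 : ℝ) +
            24 * ((below v : ℕ) : ℝ) ^ (-(3 / 2) : ℝ)) :=
          prod_le_prod (fun _ _ => norm_nonneg _) fun v _ => (hfac v).2
      _ = _ := (Real.exp_sum _ _).symm
      _ ≤ _ := Real.exp_le_exp.2 hsum

/-! ### places dividing an integer -/

/-- the number of places that divide an algebraic integer -/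
theorem count_places {x : 𝓞 K} (hx : x ≠ 0) {R : ℝ} (hR : ∀ σ : K →+* ℂ, ‖σ x‖ ≤ R)
    (hR1 : 1 ≤ R) (F : Finset (HeightOneSpectrum (𝓞 K))) (hF : ∀ v ∈ F, x ∈ v.asIdeal) :
    (F.card : ℝ) ≤ 2 * (Module.finrank ℚ K : ℝ) ^ 2 * Real.log R := by
  classical
  set N : ℕ := Ideal.absNorm (Ideal.span {x} : Ideal (𝓞 K)) with hNdef
  set n : ℕ := Module.finrank ℚ K with hn
  have hspan : (Ideal.span {x} : Ideal (𝓞 K)) ≠ 0 := by
    rwa [Ne, Ideal.zero_eq_bot, Ideal.span_singleton_eq_bot]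
  have hN0 : N ≠ 0 := by
    rw [hNdef, Ne, Ideal.absNorm_eq_zero_iff]
    exact hspan
  have hNR : (N : ℝ) ≤ R ^ n := by
    have h1 : (N : ℝ) = ‖(algebraMap ℚ ℂ) (Algebra.norm ℚ (x : K))‖ := by
      rw [hNdef, Ideal.absNorm_span_singleton, ← Algebra.coe_norm_int, map_intCast,
        Complex.norm_intCast, Nat.cast_natAbs, Int.cast_abs]
    rw [h1, Algebra.norm_eq_prod_embeddings, norm_prod]
    calc ∏ σ : K →ₐ[ℚ] ℂ, ‖σ (x : K)‖ ≤ ∏ _σ : K →ₐ[ℚ] ℂ, R :=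
          prod_le_prod (fun _ _ => norm_nonneg _) fun σ _ => hR (σ : K →+* ℂ)
      _ = R ^ n := by
          rw [prod_const, card_univ, AlgHom.card]
  have hdvd : ∀ v ∈ F, (below v : ℕ) ∣ N := by
    intro v hv
    have h1 := nm_eq v
    have h2 : v.asIdeal ∣ Ideal.span {x} := by
      rw [Ideal.dvd_span_singleton]
      exact hF v hv
    have h3 : nm v ∣ N := map_dvd Ideal.absNorm h2
    refine dvd_trans ?_ h3
    rw [h1.1]
    exact dvd_pow_self _ h1.2.1.ne'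
  have hcard : F.card ≤ n * N.primeFactors.card := by
    have hmaps : ∀ v ∈ F, (below v : ℕ) ∈ N.primeFactors := fun v hv =>
      Nat.mem_primeFactors.2 ⟨(below v).2, hdvd v hv, hN0⟩
    refine card_le_mul_card_image_of_maps_to hmaps n fun p hp => ?_
    have hpp := (Nat.mem_primeFactors.1 hp).1
    exact card_above (K := K) ⟨p, hpp⟩ _ fun v hv => Subtype.ext (mem_filter.1 hv).2
  have hpow : 2 ^ N.primeFactors.card ≤ N := by
    calc 2 ^ N.primeFactors.card = ∏ _p ∈ N.primeFactors, 2 := by rw [prod_const]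
      _ ≤ ∏ p ∈ N.primeFactors, p := prod_le_prod' fun p hp =>
          (Nat.mem_primeFactors.1 hp).1.two_le
      _ ≤ N := Nat.le_of_dvd (Nat.pos_of_ne_zero hN0) (Nat.prod_primeFactors_dvd N)
  have hlog : (N.primeFactors.card : ℝ) * Real.log 2 ≤ n * Real.log R := by
    have h1 : ((2 : ℝ) ^ N.primeFactors.card) ≤ R ^ n := by
      refine le_trans ?_ hNR
      exact_mod_cast hpow
    have h2 := Real.log_le_log (by positivity) h1
    rwa [Real.log_pow, Real.log_pow] at h2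
  have hl2 := Real.log_two_gt_d9
  have hlR := Real.log_nonneg hR1
  have h3 : (N.primeFactors.card : ℝ) ≤ 2 * (n * Real.log R) := by
    have : 0 ≤ (N.primeFactors.card : ℝ) := Nat.cast_nonneg _
    nlinarith
  calc (F.card : ℝ) ≤ n * N.primeFactors.card := by exact_mod_cast hcard
    _ ≤ n * (2 * (n * Real.log R)) := mul_le_mul_of_nonneg_left h3 (Nat.cast_nonneg _)
    _ = _ := by ring

end Pool.Agent.Y834.EA
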